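import Pool.Agent.R912.Q.TH5
import Pool.Agent.R912.Q.Main
import Pool.Agent.Y102.AV14

set_option autoImplicit false
set_option linter.unusedSectionVars false
set_option linter.unusedSimpArgs false
set_option linter.unusedVariables false

/-!
# Abelian varieties without factors of type IV
-/

open Module Function TensorProduct Matrix

noncomputable section

namespace Pool.Agent.R912

open Pool.Agent.Y102 Pool.Agent.W516.DR Pool.Agent.H204R3.GP Pool.Agent.W516.KC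
  Pool.Agent.H204R3.SP

/-! ## Components -/

section Cmp

variable {W : Type} [AddCommGroup W] [Module ℚ W] [FiniteDimensional ℚ W]

theorem trace_cmpE (X : Module.End ℂ (ℂ ⊗[ℚ] W)) : ∀ lam : ℂ →ₗ[ℚ] ℚ,
    LinearMap.trace ℚ W (Pool.Agent.W516.DR.cmpE lam X) = lam (LinearMap.trace ℂ _ X) := by
  have h : X ∈ extEnd ℂ (fun _ : W →ₗ[ℚ] W => True) := end_mem_span _ X fun _ => trivial
  unfold extEnd at h
  induction h using Submodule.span_induction with
  | mem X h =>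
    obtain ⟨P, hP, rfl⟩ := h
    intro lam
    have h1 : Pool.Agent.W516.DR.cmpE lam (P.baseChange ℂ) = lam 1 • P := by
      ext w
      rw [Pool.Agent.W516.DR.cmpE_apply, LinearMap.baseChange_tmul, Pool.Agent.W516.DR.cmp_tmul]
      rfl
    rw [h1, map_smul, LinearMap.trace_baseChange]
    have h2 : algebraMap ℚ ℂ (LinearMap.trace ℚ W P) = (LinearMap.trace ℚ W P) • (1 : ℂ) := by
      rw [Algebra.smul_def, mul_one]
    rw [h2, map_smul, smul_eq_mul, smul_eq_mul, mul_comm]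
  | zero =>
    intro lam
    have h1 : Pool.Agent.W516.DR.cmpE lam (0 : Module.End ℂ (ℂ ⊗[ℚ] W)) = 0 := by
      ext w
      rw [Pool.Agent.W516.DR.cmpE_apply, LinearMap.zero_apply, map_zero]
      rfl
    rw [h1, map_zero, map_zero, map_zero]
  | add a b _ _ ha hb =>
    intro lam
    have h1 : Pool.Agent.W516.DR.cmpE lam (a + b) =
        Pool.Agent.W516.DR.cmpE lam a + Pool.Agent.W516.DR.cmpE lam b := by
      ext w
      rw [Pool.Agent.W516.DR.cmpE_apply, LinearMap.add_apply, map_add]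
      rfl
    rw [h1, map_add, ha, hb, map_add, map_add]
  | smul c a _ ha =>
    intro lam
    have h1 : Pool.Agent.W516.DR.cmpE lam (c • a) =
        Pool.Agent.W516.DR.cmpE (lam ∘ₗ LinearMap.mulLeft ℚ c) a := by
      ext w
      rw [Pool.Agent.W516.DR.cmpE_apply, Pool.Agent.W516.DR.cmpE_apply, LinearMap.smul_apply,
        Pool.Agent.W516.DR.cmp_smul]
    rw [h1, ha, map_smul, LinearMap.comp_apply, LinearMap.mulLeft_apply, smul_eq_mul]

theorem cmpE_mul_bc (lam : ℂ →ₗ[ℚ] ℚ) (X : Module.End ℂ (ℂ ⊗[ℚ] W)) (Y : Module.End ℚ W) :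
    Pool.Agent.W516.DR.cmpE lam (X * Y.baseChange ℂ) = Pool.Agent.W516.DR.cmpE lam X * Y := by
  ext w
  rw [Pool.Agent.W516.DR.cmpE_apply, Module.End.mul_apply, LinearMap.baseChange_tmul,
    Module.End.mul_apply, Pool.Agent.W516.DR.cmpE_apply]

theorem cmpE_bc_mul (lam : ℂ →ₗ[ℚ] ℚ) (X : Module.End ℂ (ℂ ⊗[ℚ] W)) (Y : Module.End ℚ W) :
    Pool.Agent.W516.DR.cmpE lam (Y.baseChange ℂ * X) = Y * Pool.Agent.W516.DR.cmpE lam X := by
  have key : ∀ z : ℂ ⊗[ℚ] W, Pool.Agent.W516.DR.cmp lam (Y.baseChange ℂ z) =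
      Y (Pool.Agent.W516.DR.cmp lam z) := by
    intro z
    induction z with
    | zero => simp only [map_zero]
    | add a b ha hb => simp only [map_add, ha, hb]
    | tmul a w =>
      rw [LinearMap.baseChange_tmul, Pool.Agent.W516.DR.cmp_tmul, Pool.Agent.W516.DR.cmp_tmul,
        map_smul]
  ext w
  rw [Pool.Agent.W516.DR.cmpE_apply, Module.End.mul_apply, key, Module.End.mul_apply,
    Pool.Agent.W516.DR.cmpE_apply]

theorem eq_zero_of_cmpE {X : Module.End ℂ (ℂ ⊗[ℚ] W)}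
    (h : ∀ lam : ℂ →ₗ[ℚ] ℚ, Pool.Agent.W516.DR.cmpE lam X = 0) : X = 0 := by
  refine TensorProduct.AlgebraTensorModule.ext fun a w => ?_
  have h1 : a ⊗ₜ[ℚ] w = a • ((1 : ℂ) ⊗ₜ[ℚ] w) := by rw [smul_tmul', smul_eq_mul, mul_one]
  rw [h1, map_smul, LinearMap.zero_apply]
  have h2 : X ((1 : ℂ) ⊗ₜ[ℚ] w) = 0 := by
    apply Pool.Agent.W516.DR.eq_zero_of_cmp (k := ℚ)
    intro lam
    exact LinearMap.congr_fun (h lam) w
  rw [h2, smul_zero]

end Cmp

/-- The projection to an eigenspace of a commutative algebra with nondegenerate trace form. -/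
theorem exists_proj {U : Type} [AddCommGroup U] [Module ℂ U] [FiniteDimensional ℂ U]
    (Z : Submodule ℂ (Module.End ℂ U)) (hcomm : ∀ x ∈ Z, ∀ y ∈ Z, x * y = y * x)
    (hmul : ∀ x ∈ Z, ∀ y ∈ Z, x * y ∈ Z) (hone : (1 : Module.End ℂ U) ∈ Z)
    (hnd : ∀ x ∈ Z, (∀ y ∈ Z, LinearMap.trace ℂ U (x * y) = 0) → x = 0)
    (χ : Module.Dual ℂ Z) {q : U} (hq0 : q ≠ 0)
    (hχ' : ∀ z (hz : z ∈ Z), z q = χ ⟨z, hz⟩ • q) :
    ∃ π ∈ Z, ∃ c : ℂ, c ≠ 0 ∧ π q = c • q ∧ ∀ z (hz : z ∈ Z), z * π = χ ⟨z, hz⟩ • π := by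
  let B : Z →ₗ[ℂ] Module.Dual ℂ Z :=
    LinearMap.mk₂ ℂ (fun z y : Z => LinearMap.trace ℂ U (z.1 * y.1))
      (fun a b c => by rw [Submodule.coe_add, add_mul, map_add])
      (fun c a b => by rw [Submodule.coe_smul, smul_mul_assoc, map_smul])
      (fun a b c => by rw [Submodule.coe_add, mul_add, map_add])
      (fun c a b => by rw [Submodule.coe_smul, mul_smul_comm, map_smul])
  have hB : ∀ z y, B z y = LinearMap.trace ℂ U (z.1 * y.1) := fun _ _ => rfl
  have hinj : Function.Injective B := by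
    rw [injective_iff_map_eq_zero]
    intro z hz
    refine Subtype.ext (hnd z.1 z.2 fun Y hY => ?_)
    exact LinearMap.congr_fun hz ⟨Y, hY⟩
  let E : Z ≃ₗ[ℂ] Module.Dual ℂ Z := LinearMap.linearEquivOfInjective B hinj
    (Subspace.dual_finrank_eq).symm
  obtain ⟨π, hπ⟩ := E.surjective χ
  have hπ' : ∀ y (hy : y ∈ Z), LinearMap.trace ℂ _ (π.1 * y) = χ ⟨y, hy⟩ := by
    intro y hy
    exact LinearMap.congr_fun hπ ⟨y, hy⟩
  have hχmul : ∀ y (hy : y ∈ Z) z (hz : z ∈ Z),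
      χ ⟨y * z, hmul y hy z hz⟩ = χ ⟨y, hy⟩ * χ ⟨z, hz⟩ := by
    intro y hy z hz
    have h1 := hχ' _ (hmul y hy z hz)
    rw [Module.End.mul_apply, hχ' z hz, map_smul, hχ' y hy, smul_smul] at h1
    have h2 := smul_left_injective ℂ hq0 h1
    rw [← h2, mul_comm]
  have hχ1 : χ ⟨1, hone⟩ = 1 := by
    have h1 := hχ' _ hone
    rw [Module.End.one_apply] at h1
    exact smul_left_injective ℂ hq0 (h1.symm.trans (one_smul ℂ q).symm)
  have hzπ : ∀ z (hz : z ∈ Z), z * π.1 = χ ⟨z, hz⟩ • π.1 := by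
    intro z hz
    rw [← sub_eq_zero]
    refine hnd _ (Submodule.sub_mem _ (hmul z hz _ π.2) (Submodule.smul_mem _ _ π.2))
      fun Y hY => ?_
    rw [sub_mul, map_sub, hcomm z hz _ π.2, mul_assoc, hπ' _ (hmul z hz Y hY), hχmul z hz Y hY,
      smul_mul_assoc, map_smul, hπ' Y hY, smul_eq_mul, sub_self]
  have hππ : χ π ≠ 0 := by
    intro h0
    have h1 : π.1 * π.1 = 0 := by
      have h2 := hzπ π.1 π.2
      rw [h2]
      have h3 : (⟨π.1, π.2⟩ : Z) = π := rfl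
      rw [h3, h0, zero_smul]
    have h2 : IsNilpotent π.1 := ⟨2, by rw [pow_two, h1]⟩
    have h3 := LinearMap.isNilpotent_trace_of_isNilpotent h2
    have h4 := hπ' 1 hone
    rw [mul_one, hχ1] at h4
    rw [h4] at h3
    exact one_ne_zero h3.eq_zero
  exact ⟨π.1, π.2, χ π, hππ, hχ' π.1 π.2, hzπ⟩

section Rep

variable {g : ℕ} (A : AbVar g)

/-- There are no factors of type IV: the centre of the algebra of the endomorphisms contains no
nonzero skew-symmetric element, that is, its elements are fixed by the Rosati involution. -/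
def NoTypeIV : Prop :=
  ∀ P ∈ A.EA, (∀ Q ∈ A.EA, P * Q = Q * P) → IsSkew A.om P → P = 0

/-- the centre of the algebra of the endomorphisms -/
def ZC : Submodule ℚ (Module.End ℚ A.H1) where
  carrier := {P | P ∈ A.EA ∧ ∀ Q ∈ A.EA, P * Q = Q * P}
  zero_mem' := ⟨A.EA.zero_mem, fun Q _ => by rw [mul_zero, zero_mul]⟩
  add_mem' := fun {P P'} hP hP' => ⟨A.EA.add_mem hP.1 hP'.1, fun Q hQ => by
    rw [mul_add, add_mul, hP.2 Q hQ, hP'.2 Q hQ]⟩
  smul_mem' := fun c P hP => ⟨A.EA.smul_mem c hP.1, fun Q hQ => by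
    rw [mul_smul_comm, smul_mul_assoc, hP.2 Q hQ]⟩

variable {A}

/-- Central endomorphisms are symmetric. -/
theorem NoTypeIV.sym (hZ : NoTypeIV A) {P : Module.End ℚ A.H1} (hP : P ∈ ZC A) (u v : A.H1) :
    A.om (P u) v = A.om u (P v) := by
  obtain ⟨P', hP', hadj⟩ := A.endAlg.adj P hP.1
  have hadj' : ∀ u v, A.om (P' u) v = A.om u (P v) := by
    intro u v
    rw [A.om_anti, ← hadj, A.om_anti, neg_neg]
  have hcen : ∀ Q ∈ A.EA, P' * Q = Q * P' := by
    intro Q hQ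
    obtain ⟨Q', hQ', hQadj⟩ := A.endAlg.adj Q hQ
    have hQadj' : ∀ u v, A.om (Q' u) v = A.om u (Q v) := by
      intro u v
      rw [A.om_anti, ← hQadj, A.om_anti, neg_neg]
    have h1 := hP.2 Q' hQ'
    refine LinearMap.ext fun v => ?_
    rw [← sub_eq_zero]
    apply A.om_nondeg
    intro u
    have h2 : P (Q' u) = Q' (P u) := LinearMap.congr_fun h1 u
    rw [map_sub, LinearMap.sub_apply, Module.End.mul_apply, Module.End.mul_apply, sub_eq_zero,
      hadj', hQadj, hQadj, hadj', h2]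
  have h1 : P - P' = 0 := by
    refine hZ _ (A.EA.sub_mem hP.1 hP') (fun Q hQ => ?_) fun u v => ?_
    · rw [sub_mul, mul_sub, hP.2 Q hQ, hcen Q hQ]
    · rw [LinearMap.sub_apply, LinearMap.sub_apply, map_sub, map_sub, LinearMap.sub_apply,
        hadj, hadj']
      ring
  rw [hadj, ← sub_eq_zero.1 h1]

theorem ZC_comm {P Q : Module.End ℚ A.H1} (hP : P ∈ ZC A) (hQ : Q ∈ ZC A) : P * Q = Q * P :=
  hP.2 Q hQ.1

theorem ZC_mul {P Q : Module.End ℚ A.H1} (hP : P ∈ ZC A) (hQ : Q ∈ ZC A) : P * Q ∈ ZC A :=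
  ⟨A.endAlg.mul P hP.1 Q hQ.1, fun R hR => by
    rw [mul_assoc, hQ.2 R hR, ← mul_assoc, hP.2 R hR, mul_assoc]⟩

theorem ZC_one : (1 : Module.End ℚ A.H1) ∈ ZC A :=
  ⟨A.endAlg.one, fun R _ => by rw [one_mul, mul_one]⟩

/-- Positivity of the trace form on symmetric endomorphisms. -/
theorem trace_sym {X : Module.End ℚ A.H1} {M : (Fin g → ℂ) →ₗ[ℂ] (Fin g → ℂ)}
    (hM : ∀ w, M (A.per w) = A.per (X w)) (hs : ∀ u v, A.om (X u) v = A.om u (X v))
    (h0 : LinearMap.trace ℚ A.H1 (X * X) = 0) : X = 0 := by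
  classical
  have hsk : ∀ u v, A.E (M u) v = A.E u (M v) := by
    have h2 : A.E.comp (M.restrictScalars ℝ) = (A.E.flip.comp (M.restrictScalars ℝ)).flip := by
      refine A.ext_per fun u => A.ext_per fun v => ?_
      change A.E (M (A.per u)) (A.per v) = A.E (A.per u) (M (A.per v))
      rw [hM, hM, ← AbVar.om_coe, ← AbVar.om_coe, hs u v]
    intro u v
    exact congrArg (fun F : (Fin g → ℂ) →ₗ[ℝ] (Fin g → ℂ) →ₗ[ℝ] ℝ => F u v) h2
  have hPF : ∀ u v, A.PF (M u) v = A.PF u (M v) := fun u v => by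
    rw [AbVar.PF_apply, AbVar.PF_apply, hsk, map_smul]
  have htr : LinearMap.trace ℝ (Fin g → ℂ) ((M.comp M).restrictScalars ℝ) = 0 := by
    rw [← A.trace_real (X := X * X) (M := (M.comp M).restrictScalars ℝ), h0, Rat.cast_zero]
    intro w
    change M (M (A.per w)) = A.per (X (X w))
    rw [hM, hM]
  have hsym : LinearMap.IsSymm (A.PF) := ⟨fun u v => by rw [RingHom.id_apply]; exact A.PF_symm u v⟩
  obtain ⟨v, hv⟩ := LinearMap.BilinForm.exists_orthogonal_basis hsym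
  have hrepr : ∀ x i, v.repr x i * A.PF (v i) (v i) = A.PF x (v i) := by
    intro x i
    conv_rhs => rw [← v.sum_repr x]
    rw [map_sum, LinearMap.sum_apply, Finset.sum_eq_single i]
    · rw [map_smul, LinearMap.smul_apply, smul_eq_mul]
    · intro j _ hj
      rw [map_smul, LinearMap.smul_apply]
      have h1 : A.PF (v j) (v i) = 0 := hv hj
      rw [h1, smul_zero]
    · intro h
      exact absurd (Finset.mem_univ _) h
  have hpos : ∀ i, 0 < A.PF (v i) (v i) := fun i => A.PF_pos (v.ne_zero i)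
  have hterm : ∀ i, v.repr (M (M (v i))) i = A.PF (M (v i)) (M (v i)) / A.PF (v i) (v i) := by
    intro i
    have h1 := hrepr (M (M (v i))) i
    rw [hPF] at h1
    rw [eq_div_iff (hpos i).ne', h1]
  rw [LinearMap.trace_eq_matrix_trace ℝ v, Matrix.trace] at htr
  have hsum : ∑ i, A.PF (M (v i)) (M (v i)) / A.PF (v i) (v i) = 0 := by
    rw [← htr]
    refine Finset.sum_congr rfl fun i _ => ?_
    rw [Matrix.diag_apply, LinearMap.toMatrix_apply]
    exact (hterm i).symm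
  have hnn : ∀ i ∈ Finset.univ, 0 ≤ A.PF (M (v i)) (M (v i)) / A.PF (v i) (v i) := by
    intro i _
    refine div_nonneg ?_ (hpos i).le
    by_cases h : M (v i) = 0
    · rw [h, map_zero]
    · exact (A.PF_pos h).le
  have hM0 : ∀ i, M (v i) = 0 := by
    intro i
    have h1 := (Finset.sum_eq_zero_iff_of_nonneg hnn).1 hsum i (Finset.mem_univ _)
    by_contra hne
    rw [div_eq_zero_iff] at h1
    rcases h1 with h1 | h1
    · exact (A.PF_pos hne).ne' h1
    · exact (hpos i).ne' h1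
  have hM1 : M.restrictScalars ℝ = 0 := v.ext fun i => hM0 i
  refine LinearMap.ext fun w => A.per_inj ?_
  rw [← hM, LinearMap.zero_apply, map_zero]
  exact congrArg (fun F : (Fin g → ℂ) →ₗ[ℝ] (Fin g → ℂ) => F (A.per w)) hM1

/-- The trace form is nondegenerate on the centre. -/
theorem NoTypeIV.trace_nd (hZ : NoTypeIV A) {Z : Module.End ℂ (ℂ ⊗[ℚ] A.H1)} (h : Z ∈ cx (ZC A))
    (h0 : ∀ Y ∈ cx (ZC A), LinearMap.trace ℂ _ (Z * Y) = 0) : Z = 0 := by
  apply eq_zero_of_cmpE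
  intro lam
  have h1 := cmp_of_ext (ZC A) h lam
  obtain ⟨M, hM⟩ := A.hodge_end (A.mem_EA.1 h1.1)
  refine trace_sym hM (hZ.sym h1) ?_
  rw [← cmpE_mul_bc, trace_cmpE, h0 _ (bc_mem h1), map_zero]

theorem cx_mul {S : Submodule ℚ (Module.End ℚ A.H1)} (hS : ∀ X ∈ S, ∀ Y ∈ S, X * Y ∈ S) :
    ∀ X ∈ cx S, ∀ Y ∈ cx S, X * Y ∈ cx S := by
  intro k hk l hl
  induction hk using Submodule.span_induction with
  | mem k hk =>
    obtain ⟨X, hX, rfl⟩ := hk
    induction hl using Submodule.span_induction with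
    | mem l hl =>
      obtain ⟨Y, hY, rfl⟩ := hl
      rw [← bc_mul]
      exact bc_mem (hS X hX Y hY)
    | zero => rw [mul_zero]; exact Submodule.zero_mem _
    | add a b _ _ ha hb => rw [mul_add]; exact Submodule.add_mem _ ha hb
    | smul c a _ ha => rw [mul_smul_comm]; exact Submodule.smul_mem _ c ha
  | zero => rw [zero_mul]; exact Submodule.zero_mem _
  | add a b _ _ ha hb => rw [add_mul]; exact Submodule.add_mem _ ha hb
  | smul c a _ ha => rw [smul_mul_assoc]; exact Submodule.smul_mem _ c ha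

theorem cx_one {S : Submodule ℚ (Module.End ℚ A.H1)} (hS : (1 : Module.End ℚ A.H1) ∈ S) :
    (1 : Module.End ℂ (ℂ ⊗[ℚ] A.H1)) ∈ cx S := by
  have h1 : (1 : Module.End ℂ (ℂ ⊗[ℚ] A.H1)) = (1 : Module.End ℚ A.H1).baseChange ℂ :=
    (LinearMap.baseChange_id).symm
  rw [h1]
  exact bc_mem hS

theorem omC_adj {X X' : Module.End ℚ A.H1} (h : ∀ u v, A.om (X u) v = A.om u (X' v))
    (u v : ℂ ⊗[ℚ] A.H1) : omC A (X.baseChange ℂ u) v = omC A u (X'.baseChange ℂ v) := by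
  have h1 : (omC A).comp (X.baseChange ℂ) = (omC A).compl₂ (X'.baseChange ℂ) := by
    apply bilin_ext
    intro u v
    rw [LinearMap.comp_apply, LinearMap.compl₂_apply, LinearMap.baseChange_tmul,
      LinearMap.baseChange_tmul, omC_tmul, omC_tmul, h]
  exact congrArg (fun B : (ℂ ⊗[ℚ] A.H1) →ₗ[ℂ] (ℂ ⊗[ℚ] A.H1) →ₗ[ℂ] ℂ => B u v) h1

theorem cx_adj : ∀ X ∈ cx A.EA, ∃ X' ∈ cx A.EA, ∀ u v, omC A (X u) v = omC A u (X' v) := by
  intro X hX
  induction hX using Submodule.span_induction with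
  | mem X hX =>
    obtain ⟨P, hP, rfl⟩ := hX
    obtain ⟨P', hP', h⟩ := A.endAlg.adj P hP
    exact ⟨_, bc_mem hP', omC_adj h⟩
  | zero => exact ⟨0, Submodule.zero_mem _, fun u v => by simp⟩
  | add a b _ _ ha hb =>
    obtain ⟨a', ha', h1⟩ := ha
    obtain ⟨b', hb', h2⟩ := hb
    refine ⟨_, Submodule.add_mem _ ha' hb', fun u v => ?_⟩
    rw [LinearMap.add_apply, LinearMap.add_apply, map_add, map_add, LinearMap.add_apply, h1, h2]
  | smul c a _ ha =>
    obtain ⟨a', ha', h1⟩ := ha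
    refine ⟨_, Submodule.smul_mem _ c ha', fun u v => ?_⟩
    rw [LinearMap.smul_apply, LinearMap.smul_apply, map_smul, map_smul, LinearMap.smul_apply, h1]

theorem NoTypeIV.sym_cx (hZ : NoTypeIV A) : ∀ X ∈ cx (ZC A), ∀ u v,
    omC A (X u) v = omC A u (X v) := by
  intro X hX
  induction hX using Submodule.span_induction with
  | mem X hX =>
    obtain ⟨P, hP, rfl⟩ := hX
    exact omC_adj (hZ.sym hP)
  | zero => intro u v; simp
  | add a b _ _ ha hb =>
    intro u v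
    rw [LinearMap.add_apply, LinearMap.add_apply, map_add, map_add, LinearMap.add_apply, ha, hb]
  | smul c a _ ha =>
    intro u v
    rw [LinearMap.smul_apply, LinearMap.smul_apply, map_smul, map_smul, LinearMap.smul_apply, ha]

/-- The commutant of the centre preserves the subspaces stable under the Lie algebra and the
endomorphisms. -/
theorem stab_of_comm {P : Submodule ℂ (ℂ ⊗[ℚ] A.H1)} (h1 : ∀ x ∈ cx A.LA, ∀ u ∈ P, x u ∈ P)
    (h2 : ∀ x ∈ cx A.EA, ∀ u ∈ P, x u ∈ P) {T : Module.End ℂ (ℂ ⊗[ℚ] A.H1)}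
    (hT : ∀ Y ∈ ZC A, T * Y.baseChange ℂ = Y.baseChange ℂ * T) : ∀ u ∈ P, T u ∈ P := by
  have h3 : ∀ x ∈ cx (A.LA ⊔ A.EA), ∀ u ∈ P, x u ∈ P := by
    intro x hx
    induction hx using Submodule.span_induction with
    | mem x hx =>
      obtain ⟨Y, hY, rfl⟩ := hx
      obtain ⟨Y1, hY1, Y2, hY2, rfl⟩ := Submodule.mem_sup.1 hY
      intro u hu
      rw [LinearMap.baseChange_add, LinearMap.add_apply]
      exact P.add_mem (h1 _ (bc_mem hY1) u hu) (h2 _ (bc_mem hY2) u hu)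
    | zero => intro u _; exact P.zero_mem
    | add x y _ _ hx hy => intro u hu; exact P.add_mem (hx u hu) (hy u hu)
    | smul c x _ hx => intro u hu; exact P.smul_mem c (hx u hu)
  have h4 : ∀ T : Module.End ℚ A.H1, (∀ Y ∈ ZC A, T * Y = Y * T) →
      ∀ u ∈ P, T.baseChange ℂ u ∈ P := by
    intro T hT
    refine Pool.Agent.Y102.SP.kil_adj _ P h3 _ (bc_adjoin ?_)
    refine mem_adjoin_of_comm (semi_sup A) fun Q hQ => ?_
    exact hT Q ⟨fun X hX => hQ X (Submodule.mem_sup_left hX),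
      fun X hX => (hQ X (Submodule.mem_sup_right hX)).symm⟩
  intro u hu
  have h6 : T ∈ extEnd ℂ (fun T : A.H1 →ₗ[ℚ] A.H1 => ∀ Y ∈ ZC A, T * Y = Y * T) := by
    refine end_mem_span _ T fun lam Y hY => ?_
    have h7 := congrArg (Pool.Agent.W516.DR.cmpE lam) (hT Y hY)
    rwa [cmpE_mul_bc, cmpE_bc_mul] at h7
  clear hT
  unfold extEnd at h6
  induction h6 using Submodule.span_induction with
  | mem x hx =>
    obtain ⟨Y, hY, rfl⟩ := hx
    exact h4 Y hY u hu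
  | zero => exact P.zero_mem
  | add x y _ _ hx hy => exact P.add_mem hx hy
  | smul c x _ hx => exact P.smul_mem c hx

/-- Subspaces stable under the Lie algebra and the endomorphisms meet their orthogonal trivially. -/
theorem NoTypeIV.abs (hZ : NoTypeIV A) (P : Submodule ℂ (ℂ ⊗[ℚ] A.H1))
    (hP1 : ∀ x ∈ cx A.LA, ∀ u ∈ P, x u ∈ P) (hP2 : ∀ x ∈ cx A.EA, ∀ u ∈ P, x u ∈ P) :
    ∀ u ∈ P, (∀ v ∈ P, omC A v u = 0) → u = 0 := by
  by_contra hcon
  push Not at hcon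
  obtain ⟨u, hu, hu', hu0⟩ := hcon
  let Q : Submodule ℂ (ℂ ⊗[ℚ] A.H1) := P ⊓ oP (omC A) P
  have hQL : ∀ x ∈ cx A.LA, ∀ u ∈ Q, x u ∈ Q := by
    rintro x hx u ⟨h1, h2⟩
    refine ⟨hP1 x hx u h1, fun v hv => ?_⟩
    have h3 := omC_skew A (fun X hX => A.LA_skew hX) x hx v u
    rw [h2 _ (hP1 x hx v hv), zero_add] at h3
    exact h3
  have hQE : ∀ x ∈ cx A.EA, ∀ u ∈ Q, x u ∈ Q := by
    rintro x hx u ⟨h1, h2⟩
    refine ⟨hP2 x hx u h1, fun v hv => ?_⟩
    obtain ⟨x', hx', hadj⟩ := cx_adj x hx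
    rw [omC_anti, hadj, omC_anti, h2 _ (hP2 x' hx' v hv)]
    simp
  have hQ0 : Q ≠ ⊥ := by
    intro hb
    have h1 : u ∈ Q := ⟨hu, hu'⟩
    rw [hb, Submodule.mem_bot] at h1
    exact hu0 h1
  have hle : cx (ZC A) ≤ cx A.EA := cx_mono fun X hX => hX.1
  have hcomm := cx_commutes A (S := ZC A) (T := ZC A) fun X hX Y hY => ZC_comm hX hY
  let ι : cx (ZC A) →ₗ[ℂ] Module.End ℂ (ℂ ⊗[ℚ] A.H1) := (cx (ZC A)).subtype
  have hι : ∀ t, ι t = t.1 := fun _ => rfl
  obtain ⟨χ, q, hq, hq0, hχ⟩ := Pool.Agent.Y102.SP.kil_eig ι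
    (fun (s t : cx (ZC A)) => hcomm s.1 s.2 t.1 t.2) _ Q le_rfl hQ0
    (fun (t : cx (ZC A)) u hu => hQE _ (hle t.2) u hu)
  have hχ' : ∀ z (hz : z ∈ cx (ZC A)), z q = χ ⟨z, hz⟩ • q := fun z hz => hχ ⟨z, hz⟩
  obtain ⟨π, hπ, c, hc, hπq, hzπ⟩ := exists_proj (cx (ZC A)) hcomm
    (cx_mul (A := A) (S := ZC A) fun X hX Y hY => ZC_mul hX hY) (cx_one (A := A) ZC_one)
    (fun Z hZ' h0 => hZ.trace_nd hZ' h0) χ hq0 hχ'
  -- the vector
  obtain ⟨v0, hv0⟩ : ∃ v, omC A q v ≠ 0 := by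
    by_contra hcon
    push Not at hcon
    exact hq0 (nondeg_ext A.om (omC A) (omC_tmul A) (fun u hu => A.om_nondeg hu) q hcon)
  have hqv : omC A q (π v0) ≠ 0 := by
    rw [← hZ.sym_cx _ hπ, hπq, map_smul, LinearMap.smul_apply, smul_eq_mul]
    exact mul_ne_zero hc hv0
  have hzv : ∀ z (hz : z ∈ cx (ZC A)), z (π v0) = χ ⟨z, hz⟩ • π v0 := fun z hz =>
    LinearMap.congr_fun (hzπ z hz) v0
  let T : Module.End ℂ (ℂ ⊗[ℚ] A.H1) := ((omC A).flip (π v0)).smulRight (π v0)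
  have hT : ∀ u, T u = omC A u (π v0) • π v0 := fun u => rfl
  have h1 := stab_of_comm hQL hQE (T := T) (fun Y hY => LinearMap.ext fun u => by
    rw [Module.End.mul_apply, Module.End.mul_apply, hT, hT, hZ.sym_cx _ (bc_mem hY),
      map_smul, hzv _ (bc_mem hY), map_smul, smul_eq_mul, smul_smul,
      mul_comm (omC A u (π v0))]) q hq
  rw [hT] at h1
  have h2 : π v0 ∈ Q := by
    have h3 := Q.smul_mem (omC A q (π v0))⁻¹ h1
    rwa [smul_smul, inv_mul_cancel₀ hqv, one_smul] at h3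
  exact hqv (h2.2 q hq.1)

/-! ## The complex structure -/

variable (A) in
theorem exists_J : ∃ J ∈ cx A.MA, J * J = -1 := by
  classical
  let b : Basis (Fin (2 * g)) ℂ (ℂ ⊗[ℚ] A.H1) := A.bas.baseChange ℂ
  let M : Matrix (Fin (2 * g)) (Fin (2 * g)) ℝ := LinearMap.toMatrix A.lam A.lam AbVar.JJ
  let J : Module.End ℂ (ℂ ⊗[ℚ] A.H1) := Matrix.toLin b b (M.map (algebraMap ℝ ℂ))
  have hMM : M * M = -1 := by
    have h1 : (AbVar.JJ (g := g)) ∘ₗ AbVar.JJ = -LinearMap.id := by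
      refine LinearMap.ext fun u => ?_
      rw [LinearMap.comp_apply, AbVar.JJ_apply, AbVar.JJ_apply, smul_smul, Complex.I_mul_I,
        LinearMap.neg_apply, LinearMap.id_apply, neg_one_smul]
    rw [← LinearMap.toMatrix_comp, h1, map_neg, LinearMap.toMatrix_id]
  refine ⟨J, ?_, ?_⟩
  · refine end_mem_span _ J fun lam => ?_
    let f : ℝ →ₗ[ℚ] ℚ := lam ∘ₗ (Algebra.linearMap ℝ ℂ).restrictScalars ℚ
    have h1 : Pool.Agent.W516.DR.cmpE lam J = A.cmpE f AbVar.JJ := by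
      refine A.bas.ext fun j => ?_
      have e1 : (1 : ℂ) ⊗ₜ[ℚ] A.bas j = b j := by
        rw [Basis.baseChange_apply]
      rw [Pool.Agent.W516.DR.cmpE_apply, e1, Matrix.toLin_self, map_sum, AbVar.cmpE_apply,
        AbVar.per_bas, ← A.lam.sum_repr (AbVar.JJ (A.lam j)), map_sum]
      refine Finset.sum_congr rfl fun i _ => ?_
      rw [AbVar.cmp_real_smul_lam, ← LinearMap.toMatrix_apply, Basis.baseChange_apply,
        smul_tmul', Pool.Agent.W516.DR.cmp_tmul, smul_eq_mul, mul_one]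
      rfl
    rw [h1]
    exact A.J_mem f
  · change Matrix.toLin b b (M.map (algebraMap ℝ ℂ)) * Matrix.toLin b b (M.map (algebraMap ℝ ℂ)) = -1
    rw [Module.End.mul_eq_comp, ← Matrix.toLin_mul, ← Matrix.map_mul, hMM, Matrix.map_neg,
      Matrix.map_one, map_neg, Matrix.toLin_one]
    · rfl
    · exact map_zero _
    · exact map_one _
    · exact fun a => map_neg _ a

/-- elements of the enveloping algebra commute with the commutant -/
theorem adj_comL {L : Submodule ℂ (Module.End ℂ (ℂ ⊗[ℚ] A.H1))} {x : Module.End ℂ (ℂ ⊗[ℚ] A.H1)}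
    (hx : x ∈ Algebra.adjoin ℂ (L : Set (Module.End ℂ (ℂ ⊗[ℚ] A.H1)))) :
    ∀ k : Module.End ℂ (ℂ ⊗[ℚ] A.H1), (∀ y ∈ L, y * k = k * y) → x * k = k * x := by
  intro k hk
  induction hx using Algebra.adjoin_induction with
  | mem x hx => exact hk x hx
  | algebraMap r => exact Algebra.commutes r k
  | add x y _ _ hx hy => rw [add_mul, mul_add, hx, hy]
  | mul x y _ _ hx hy => rw [mul_assoc, hy, ← mul_assoc, hx, mul_assoc]

theorem NoTypeIV.thyp0 (hZ : NoTypeIV A) : THyp0 (cx A.LA) (omC A) where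
  br := cx_br fun X hX Y hY => by
    rw [← bc_br]
    exact bc_mem (A.LA_bracket hX hY)
  skew := omC_skew A fun X hX => A.LA_skew hX
  alt := omC_anti A
  nd := fun u hu => nondeg_ext A.om (omC A) (omC_tmul A) (fun u hu => A.om_nondeg hu) u fun z => by
    rw [omC_anti, hu, neg_zero]
  abs := fun P h1 h2 => hZ.abs P h1 fun x hx => h2 x fun y hy =>
    cx_commutes A (S := A.LA) (T := A.EA) (fun X hX Y hY => hY X hX) y hy x hx

theorem NoTypeIV.thyp (hZ : NoTypeIV A) : THyp (cx A.LA) (omC A) where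
  toTHyp0 := hZ.thyp0
  even' := fun N hN => by
    refine hZ.thyp0.even_of_J ?_ hN
    obtain ⟨J, hJ, hJJ⟩ := exists_J A
    have h1 : J ∈ Algebra.adjoin ℂ (cx A.LA : Set (Module.End ℂ (ℂ ⊗[ℚ] A.H1))) :=
      A.cx_adjoin J (cx_mono A.MA_le_NA hJ)
    exact ⟨J, hJJ, omC_skew A (fun X hX => A.MA_skew hX) J hJ,
      fun P hP => Pool.Agent.Y102.SP.kil_adj _ P hP _ h1, fun k hk => adj_comL h1 k hk⟩

end Rep

/-- **Main theorem**: the de Rham-Betti classes of degree four are killed by the skew endomorphisms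
commuting with the endomorphisms. -/
theorem four_kills' (A : AbVar 4) (hZ : NoTypeIV A) (φ : A.H1 [⋀^Fin 2 × Fin 2]→ₗ[ℚ] ℚ)
    (hφ : IsDeRhamBettiForm QBar A.dR tau 2 φ.toMultilinearMap) {X : Module.End ℚ A.H1}
    (hX1 : IsSkew A.om X) (hX2 : ∀ Q ∈ A.EA, X * Q = Q * X) :
    Kills X φ.toMultilinearMap := by
  classical
  let β := Module.finBasis ℚ A.H1
  obtain ⟨Ψ, hΨ⟩ : ∃ Ψ, Ψ = bcm (Ω := ℂ) β φ.toMultilinearMap := ⟨_, rfl⟩
  have hA : Alt4 (toQ4 Ψ) := hΨ ▸ alt_bcm β φ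
  have hL : ∀ x ∈ cx A.LA, Kill4 ⊤ (toQ4 Ψ) x := by
    intro x hx
    rw [← kills_iff_kill4, hΨ, kills_bcm_iff]
    intro lam
    exact A.kills_of_mem hφ (cmp_of_ext A.LA hx lam)
  have hadj : X ∈ Algebra.adjoin ℚ (A.LA : Set (Module.End ℚ A.H1)) :=
    mem_adjoin_of_comm A.semi_LA fun P hP => hX2 P hP
  have hadj' := bc_adjoin hadj
  have hU : finrank ℂ (ℂ ⊗[ℚ] A.H1) = 8 := by
    rw [finrank_baseChange, Module.finrank_fin_fun]
  have hnt : Nontrivial (ℂ ⊗[ℚ] A.H1) := by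
    apply Module.nontrivial_of_finrank_pos (R := ℂ)
    rw [hU]
    norm_num
  have hmain : Kill4 ⊤ (toQ4 Ψ) (X.baseChange ℂ) := by
    refine hZ.thyp.main hU hA hL ?_ ?_ ?_
    · intro P hP
      exact Pool.Agent.Y102.SP.kil_adj _ P hP _ hadj'
    · exact fun K hK => adj_comL hadj' K hK
    · exact skew_ext A.om (omC A) (omC_tmul A) hX1
  rw [← kills_iff_kill4, hΨ, kills_bcm_iff] at hmain
  obtain ⟨lam, hlam⟩ := exists_lam
  have h2 := hmain lam
  have h3 : Pool.Agent.W516.DR.cmpE lam (X.baseChange ℂ) = X := by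
    refine LinearMap.ext fun w => ?_
    rw [Pool.Agent.W516.DR.cmpE_apply, LinearMap.baseChange_tmul,
      Pool.Agent.W516.DR.cmp_tmul, hlam, one_smul]
  rwa [h3] at h2

/-- **De Rham-Betti classes of degree four on abelian fourfolds are Hodge classes**, if there is no
factor of type IV. -/
theorem four_hodge' (A : AbVar 4) (hZ : NoTypeIV A) (φ : A.H1 [⋀^Fin 2 × Fin 2]→ₗ[ℚ] ℚ)
    (hφ : IsDeRhamBettiForm QBar A.dR tau 2 φ.toMultilinearMap) :
    IsHodgeTensor (A.per : A.H1 →+ (Fin 4 → ℂ)) φ.toMultilinearMap :=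
  hodge_of_kills _ A.isRationalStructure _ fun Z hZ' =>
    four_kills' A hZ φ hφ (A.NA_skew (A.MA_le_NA hZ')) fun Q hQ => A.NA_comm (A.MA_le_NA hZ') hQ

end Pool.Agent.R912
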