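import Pool.Agent.R912.Q.Sp

set_option autoImplicit false
set_option linter.unusedSectionVars false

/-!
# Generation of the symplectic Lie algebra of a block
-/

open Matrix

namespace Pool.Agent.R912.Q

variable {k : ℕ}

/-- the indices in a block -/
def blkS (s : Set (Fin k)) : Set (Fin k × Bool) := {p | p.1 ∈ s}

section Gen

variable {M : Submodule ℂ (Matrix (Fin k × Bool) (Fin k × Bool) ℂ)} {s : Set (Fin k)}
  (hS : M ≤ Sk (-1) k) (hI : IrrOn M (blkS s))
  (hd : ∀ h : Fin k → ℤ, (∀ i ∉ s, h i = 0) → dg h ∈ M)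
include hS hI hd

theorem bGG_mem {p q : Fin k × Bool} (hp' : p.1 ∈ s) (hq' : q.1 ∈ s) (hpq : p.1 ≠ q.1) :
    GG (-1) p q ∈ M := by
  classical
  have hε : (-1 : ℂ) * -1 = 1 := by norm_num
  obtain ⟨h, hh⟩ : ∃ h : Fin k → ℤ, h = fun i => if i = q.1 then (if q.2 then 5 else -5) else
      if i = p.1 then (if p.2 then 2 else -2) else 0 := ⟨_, rfl⟩
  have hsupp : ∀ i ∉ s, h i = 0 := by
    intro i hi
    have h1 : i ≠ q.1 := fun e => hi (e ▸ hq')
    have h2 : i ≠ p.1 := fun e => hi (e ▸ hp')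
    rw [hh]
    simp only [if_neg h1, if_neg h2]
  have hq : til h q = 5 := by
    rw [hh]; unfold til; simp only [if_true]
    cases q.2 <;> simp
  have hp : til h p = 2 := by
    rw [hh]; unfold til; simp only [if_neg hpq, if_true]
    cases p.2 <;> simp
  have hall : ∀ i, i = q ∨ i = p ∨ i = bar q ∨ i = bar p ∨ til h i = 0 := by
    intro i
    by_cases h1 : i.1 = q.1
    · by_cases h2 : i = q
      · exact Or.inl h2
      · by_cases h3 : i = bar q
        · exact Or.inr (Or.inr (Or.inl h3))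
        · exact absurd h1 (fst_ne h2 h3)
    · by_cases h4 : i.1 = p.1
      · by_cases h2 : i = p
        · exact Or.inr (Or.inl h2)
        · by_cases h3 : i = bar p
          · exact Or.inr (Or.inr (Or.inr (Or.inl h3)))
          · exact absurd h4 (fst_ne h2 h3)
      · refine Or.inr (Or.inr (Or.inr (Or.inr ?_)))
        rw [hh]
        unfold til
        simp only [if_neg h1, if_neg h4]
        simp
  have hval : ∀ i, (i = q ∧ til h i = 5) ∨ (i = p ∧ til h i = 2) ∨ (i = bar q ∧ til h i = -5) ∨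
      (i = bar p ∧ til h i = -2) ∨ til h i = 0 := by
    intro i
    rcases hall i with h1 | h1 | h1 | h1 | h1
    · exact Or.inl ⟨h1, h1 ▸ hq⟩
    · exact Or.inr (Or.inl ⟨h1, h1 ▸ hp⟩)
    · exact Or.inr (Or.inr (Or.inl ⟨h1, by rw [h1, til_bar, hq]⟩))
    · exact Or.inr (Or.inr (Or.inr (Or.inl ⟨h1, by rw [h1, til_bar, hp]⟩)))
    · exact Or.inr (Or.inr (Or.inr (Or.inr h1)))
  obtain ⟨x, hx, hx0, hxz⟩ := hI.top_two (nrm_of_dg hI.br (hd h hsupp)) (i0 := q) (i1 := p)
    hq' hp' (by rw [hp, hq]; norm_num) (by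
      intro j _ h1 h2
      rw [hp]
      rcases hval j with h3 | h3 | h3 | h3 | h3
      · exact absurd h3.1 h1
      · exact absurd h3.1 h2
      · rw [h3.2]; norm_num
      · rw [h3.2]; norm_num
      · rw [h3]; norm_num)
  rw [hp, hq] at hxz
  have hpqb : p ≠ bar q := fun e => hpq (by rw [e]; rfl)
  have hxe : x = x p q • GG (-1) p q := by
    ext i j
    rw [Matrix.smul_apply, GG, Matrix.sub_apply, Matrix.smul_apply, smul_eq_mul, smul_eq_mul]
    by_cases h1 : p = i ∧ q = j
    · obtain ⟨rfl, rfl⟩ := h1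
      rw [Matrix.single_apply_same, Matrix.single_apply_of_ne, mul_zero, sub_zero, mul_one]
      rintro ⟨e, -⟩
      exact hpqb e.symm
    · by_cases h2 : bar q = i ∧ bar p = j
      · obtain ⟨rfl, rfl⟩ := h2
        rw [Matrix.single_apply_same, Matrix.single_apply_of_ne _ _ _ _ _ h1, Sk_bar hε (hS hx)]
        ring
      · rw [Matrix.single_apply_of_ne _ _ _ _ _ h1, Matrix.single_apply_of_ne _ _ _ _ _ h2,
          mul_zero, sub_zero, mul_zero]
        refine hxz i j fun h3 => ?_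
        rcases hval i with h4 | h4 | h4 | h4 | h4 <;> rcases hval j with h5 | h5 | h5 | h5 | h5 <;>
          first
          | (exact h1 ⟨h4.1.symm, h5.1.symm⟩)
          | (exact h2 ⟨h4.1.symm, h5.1.symm⟩)
          | (rw [h4.2, h5.2] at h3; norm_num at h3; done)
          | (rw [h4.2, h5] at h3; norm_num at h3; done)
          | (rw [h4, h5.2] at h3; norm_num at h3; done)
          | (rw [h4, h5] at h3; norm_num at h3; done)
  have h1 := M.smul_mem (x p q)⁻¹ hx
  rw [hxe, smul_smul, ← hxe, inv_mul_cancel₀ hx0, one_smul] at h1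
  exact h1

theorem bGG_diag {p : Fin k × Bool} (hp' : p.1 ∈ s) : GG (-1) p p ∈ M := by
  classical
  have hε : (-1 : ℂ) * -1 = 1 := by norm_num
  have h1 : GG (-1) p p = dg (fun i => if i = p.1 then (if p.2 then 1 else -1) else 0) := by
    ext i j
    rw [GG, sg_sq hε, one_smul, Matrix.sub_apply, dg, Matrix.diagonal_apply]
    obtain ⟨a, b⟩ := p
    obtain ⟨c, d⟩ := i
    obtain ⟨e, f⟩ := j
    unfold til bar
    simp only [Matrix.single_apply, Prod.mk.injEq]
    by_cases h1 : a = c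
    · subst h1
      by_cases h2 : a = e
      · subst h2
        cases b <;> cases d <;> cases f <;> simp
      · simp [h2]
    · simp [h1, Ne.symm h1]
  rw [h1]
  refine hd _ fun i hi => ?_
  have h2 : i ≠ p.1 := fun e => hi (e ▸ hp')
  simp only [if_neg h2]

theorem bGG_opp (h2 : ∀ i ∈ s, ∃ j ∈ s, j ≠ i) {p : Fin k × Bool} (hp' : p.1 ∈ s) :
    GG (-1) p (bar p) ∈ M := by
  classical
  have hε : (-1 : ℂ) * -1 = 1 := by norm_num
  have h0 : GG (-1) p (bar p) = ((1 : ℂ) - -1) • Matrix.single p (bar p) (1 : ℂ) := by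
    rw [GG, bar_bar, sg_bar hε, sub_smul, one_smul]
    congr 2
    linear_combination (-1 : ℂ) * sg_sq hε p
  rw [h0]
  refine M.smul_mem _ ?_
  have hpb : p ≠ bar p := by
    intro e
    have := congrArg Prod.snd e
    simp [bar] at this
  obtain ⟨q, hq', hq⟩ : ∃ q : Fin k × Bool, q.1 ∈ s ∧ p.1 ≠ q.1 := by
    obtain ⟨j, hj, hjp⟩ := h2 p.1 hp'
    exact ⟨(j, true), hj, Ne.symm hjp⟩
  have hpq : p ≠ q := fun e => hq (by rw [e])
  have hpqb : p ≠ bar q := fun e => hq (by rw [e]; rfl)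
  have hqpb : q ≠ bar p := fun e => hpqb (by rw [e, bar_bar])
  have hbb : bar p ≠ bar q := fun e => hpq (by rw [← bar_bar p, e, bar_bar])
  have h1 := bGG_mem hS hI hd hp' hq' hq
  have h2 := bGG_mem hS hI hd (p := q) (q := bar p) hq' hp' (Ne.symm hq)
  have h3 := hI.br _ h1 _ h2
  have h4 : GG (-1) p q * GG (-1) q (bar p) - GG (-1) q (bar p) * GG (-1) p q =
      (2 : ℂ) • Matrix.single p (bar p) (1 : ℂ) := by
    unfold GG
    rw [bar_bar]
    simp only [mul_sub, sub_mul, smul_mul_assoc, mul_smul_comm,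
      Matrix.single_mul_single_same, one_mul,
      Matrix.single_mul_single_of_ne _ _ _ _ hqpb.symm,
      Matrix.single_mul_single_of_ne _ _ _ _ hpb,
      Matrix.single_mul_single_of_ne _ _ _ _ hpb.symm,
      Matrix.single_mul_single_of_ne _ _ _ _ hbb,
      Matrix.single_mul_single_of_ne _ _ _ _ hpqb.symm,
      Matrix.single_mul_single_of_ne _ _ _ _ hpqb,
      Matrix.single_mul_single_of_ne _ _ _ _ hpq.symm,
      smul_zero, sub_zero, zero_sub, smul_neg, sub_neg_eq_add]
    have e1 := sg_sq (ε := -1) (by norm_num) p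
    have e2 := sg_sq (ε := -1) (by norm_num) q
    have e3 := sg_bar (ε := -1) (by norm_num) p
    rw [e3]
    simp only [smul_smul]
    rw [← sub_eq_zero]
    ext i j
    simp only [Matrix.sub_apply, Matrix.add_apply, Matrix.smul_apply, smul_eq_mul,
      Matrix.zero_apply, Matrix.neg_apply]
    linear_combination (Matrix.single p (bar p) (1 : ℂ) i j) * (sg (-1) p * sg (-1) p * e2 + e1)
  rw [h4] at h3
  have h5 := M.smul_mem (2 : ℂ)⁻¹ h3
  rwa [smul_smul, inv_mul_cancel₀ (by norm_num), one_smul] at h5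

theorem bGG_all (h2 : ∀ i ∈ s, ∃ j ∈ s, j ≠ i) {p q : Fin k × Bool} (hp' : p.1 ∈ s)
    (hq' : q.1 ∈ s) : GG (-1) p q ∈ M := by
  by_cases h1 : q = p
  · rw [h1]; exact bGG_diag hS hI hd hp'
  · by_cases h3 : q = bar p
    · rw [h3]; exact bGG_opp hS hI hd h2 hp'
    · exact bGG_mem hS hI hd hp' hq' (fst_ne h1 h3).symm

/-- **Generation.** -/
theorem bSk_le (h2 : ∀ i ∈ s, ∃ j ∈ s, j ≠ i) {x : Matrix (Fin k × Bool) (Fin k × Bool) ℂ}
    (hx : x ∈ Sk (-1) k) (hxs : ∀ p q : Fin k × Bool, ¬ (p.1 ∈ s ∧ q.1 ∈ s) → x p q = 0) :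
    x ∈ M := by
  classical
  have hε : (-1 : ℂ) * -1 = 1 := by norm_num
  have h1 : x = (2⁻¹ : ℂ) • ∑ p, ∑ q, x p q • GG (-1) p q := by
    have h2 : ∑ p, ∑ q, x p q • Matrix.single p q (1 : ℂ) = x := by
      conv_rhs => rw [Matrix.matrix_eq_sum_single x]
      refine Finset.sum_congr rfl fun p _ => Finset.sum_congr rfl fun q _ => ?_
      rw [Matrix.smul_single, smul_eq_mul, mul_one]
    have h3 : ∑ p, ∑ q, x p q • ((sg (-1) p * sg (-1) q) •
        Matrix.single (bar q) (bar p) (1 : ℂ)) = -x := by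
      rw [Finset.sum_comm]
      conv_rhs => rw [← h2]
      rw [← Finset.sum_neg_distrib]
      refine Fintype.sum_equiv (Function.Involutive.toPerm bar bar_bar) _ _ fun q => ?_
      rw [← Finset.sum_neg_distrib]
      refine Fintype.sum_equiv (Function.Involutive.toPerm bar bar_bar) _ _ fun p => ?_
      have e1 : (Function.Involutive.toPerm bar bar_bar) q = bar q := rfl
      have e2 : (Function.Involutive.toPerm bar bar_bar) p = bar p := rfl
      rw [e1, e2, Sk_bar hε hx q p, smul_smul, ← neg_smul]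
      congr 1
      ring
    have h4 : ∑ p, ∑ q, x p q • GG (-1) p q = x - -x := by
      rw [← h3]
      conv_rhs => rw [← h2]
      rw [← Finset.sum_sub_distrib]
      refine Finset.sum_congr rfl fun p _ => ?_
      rw [← Finset.sum_sub_distrib]
      refine Finset.sum_congr rfl fun q _ => ?_
      rw [h2, GG, smul_sub]
    rw [h4, sub_neg_eq_add, ← two_smul ℂ x, smul_smul, inv_mul_cancel₀ (by norm_num), one_smul]
  rw [h1]
  refine M.smul_mem _ (Submodule.sum_mem _ fun p _ => Submodule.sum_mem _ fun q _ => ?_)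
  by_cases hpq : p.1 ∈ s ∧ q.1 ∈ s
  · exact M.smul_mem _ (bGG_all hS hI hd h2 hpq.1 hpq.2)
  · rw [hxs p q hpq, zero_smul]
    exact M.zero_mem

end Gen

end Pool.Agent.R912.Q
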