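import Pool.Agent.R912.Q.Reg31b

set_option autoImplicit false
set_option linter.unusedSectionVars false
set_option linter.unusedSimpArgs false
set_option linter.unusedVariables false

/-!
# Contractions of an invariant form
-/

open Module Matrix

namespace Pool.Agent.R912

open Pool.Agent.Y102.SP Q

attribute [local instance 100] LieRing.ofAssociativeRing

variable {U : Type} [AddCommGroup U] [Module ℂ U] [FiniteDimensional ℂ U]
  {T : Type} [AddCommGroup T] [Module ℂ T] {L : Submodule ℂ (Module.End ℂ U)}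

/-- the contraction in the second and third variables over some indices -/
noncomputable def ctr {k : ℕ} (ψ : Q4 U) (e : Fin k × Bool → U) (s : Finset (Fin k × Bool)) :
    U →ₗ[ℂ] U →ₗ[ℂ] ℂ :=
  ∑ p ∈ s, sg (-1) p • (((ψ.flip (e p)).flip (e (bar p))))

theorem ctr_apply {k : ℕ} (ψ : Q4 U) (e : Fin k × Bool → U) (s : Finset (Fin k × Bool))
    (u v : U) : ctr ψ e s u v = ∑ p ∈ s, sg (-1) p * ψ u (e p) (e (bar p)) v := by
  unfold ctr
  rw [LinearMap.sum_apply, LinearMap.sum_apply]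
  rfl

namespace GB

variable {S : RS L T} {B : U →ₗ[ℂ] U →ₗ[ℂ] ℂ} {k : ℕ} {blk : Fin k → ℕ}
  {e : Fin k × Bool → U} {w : Fin k × Bool → Module.Dual ℂ T}
  (h : GB S ⊤ B k blk e w) {ψ : Q4 U} (F : Frm L ⊤ B (-1)) (hψ : ∀ x ∈ L, Kill4 ⊤ ψ x)
include h F hψ

theorem ctr_inv {s : Finset (Fin k × Bool)} (hs : ∀ p ∈ s, bar p ∈ s)
    (hb : ∀ p ∈ s, ∀ q ∉ s, blk p.1 ≠ blk q.1) {x : Module.End ℂ U} (hx : x ∈ L) (u v : U) :
    ctr ψ e s (x u) v + ctr ψ e s u (x v) = 0 := by
  classical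
  have hε := neg1
  obtain ⟨X, hX⟩ : ∃ X, X = MX B (-1) e x := ⟨_, rfl⟩
  have hXs : X ∈ Sk (-1) k := by
    rw [hX]
    exact h.cb.MX_Sk hε (fun _ _ => trivial) (F.skew x hx) F.sym
  have hXb : X ∈ BK blk := by
    rw [hX]
    exact h.MX_BK (fun i => (h.irr i).stab x hx)
  have hXe : ∀ j, x (e j) = ∑ i, X i j • e i := by
    intro j
    rw [hX]
    exact h.cb.ap hε (fun _ _ => trivial) j
  have hXe' : ∀ j ∈ s, x (e j) = ∑ i ∈ s, X i j • e i := by
    intro j hj
    rw [hXe j]
    symm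
    refine Finset.sum_subset (Finset.subset_univ _) fun i _ hi => ?_
    rw [hXb i j (Ne.symm (hb j hj i hi)), zero_smul]
  -- the sum over the two middle variables vanishes
  have key : ∑ p ∈ s, sg (-1) p * (ψ u (x (e p)) (e (bar p)) v + ψ u (e p) (x (e (bar p))) v) = 0 := by
    have e1 : ∑ p ∈ s, sg (-1) p * ψ u (x (e p)) (e (bar p)) v =
        ∑ p ∈ s, ∑ q ∈ s, sg (-1) p * (X q p * ψ u (e q) (e (bar p)) v) := by
      refine Finset.sum_congr rfl fun p hp => ?_
      rw [hXe' p hp, map_sum, LinearMap.sum_apply, LinearMap.sum_apply, Finset.mul_sum]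
      refine Finset.sum_congr rfl fun q _ => ?_
      rw [map_smul]
      rfl
    have e2 : ∑ p ∈ s, sg (-1) p * ψ u (e p) (x (e (bar p))) v =
        ∑ p ∈ s, ∑ q ∈ s, sg (-1) p * (X q (bar p) * ψ u (e p) (e q) v) := by
      refine Finset.sum_congr rfl fun p hp => ?_
      rw [hXe' (bar p) (hs p hp), map_sum, LinearMap.sum_apply, Finset.mul_sum]
      refine Finset.sum_congr rfl fun q _ => ?_
      rw [map_smul]
      rfl
    have e3 : ∑ p ∈ s, ∑ q ∈ s, sg (-1) p * (X q (bar p) * ψ u (e p) (e q) v) =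
        -∑ p ∈ s, ∑ q ∈ s, sg (-1) p * (X q p * ψ u (e q) (e (bar p)) v) := by
      rw [Finset.sum_comm, ← Finset.sum_neg_distrib]
      refine Finset.sum_bij' (fun q _ => bar q) (fun q _ => bar q) (fun q hq => hs q hq)
        (fun q hq => hs q hq) (fun q _ => bar_bar q) (fun q _ => bar_bar q) ?_
      intro q hq
      rw [← Finset.sum_neg_distrib]
      refine Finset.sum_congr rfl fun p hp => ?_
      rw [bar_bar, sg_bar hε]
      have h1 := Sk_bar hε hXs (bar q) p
      rw [bar_bar, sg_bar hε] at h1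
      rw [h1]
      linear_combination (sg (-1) q * X p (bar q) * ψ u (e p) (e q) v) * sg_sq hε p
    simp only [mul_add, Finset.sum_add_distrib]
    rw [e1, e2, e3]
    ring
  rw [ctr_apply, ctr_apply, ← Finset.sum_add_distrib]
  have h2 : ∑ p ∈ s, (sg (-1) p * ψ (x u) (e p) (e (bar p)) v +
      sg (-1) p * ψ u (e p) (e (bar p)) (x v)) + ∑ p ∈ s, sg (-1) p *
      (ψ u (x (e p)) (e (bar p)) v + ψ u (e p) (x (e (bar p))) v) = 0 := by
    rw [← Finset.sum_add_distrib]
    refine Finset.sum_eq_zero fun p _ => ?_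
    have h3 := hψ x hx u trivial (e p) trivial (e (bar p)) trivial v trivial
    linear_combination (sg (-1) p) * h3
  rw [key, add_zero] at h2
  exact h2

end GB

end Pool.Agent.R912
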