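import Pool.Agent.R912.Q.TM

set_option autoImplicit false
set_option linter.unusedSectionVars false
set_option linter.unusedSimpArgs false

/-!
# Blocks of size three and one
-/

open Matrix

namespace Pool.Agent.R912.Q

/-- the blocks -/
def b31 : Fin 4 → ℕ := ![0, 0, 0, 1]

namespace BD

variable {F : Ten (Fin 4 × Bool)} {M : Submodule ℂ (Matrix (Fin 4 × Bool) (Fin 4 × Bool) ℂ)}
  (H : BD b31 F M)
include H

theorem t1a (m : dg ![1, 10, 100, 111] ∈ M) : F (0, true) (1, true) (2, true) (3, false) = 0 := by
  obtain ⟨x, hx, hx0, hxz⟩ := H.top m (i0 := (3, true)) (i1 := (3, false)) (by decide)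
    (by decide) (by decide)
  have hc : til ![1, 10, 100, 111] (3, false) - til ![1, 10, 100, 111] (3, true) = -222 := by
    decide
  rw [hc] at hxz
  have hν := H.shape hx hxz (ν := tab (0, true) (0, false) (1, true) (1, false) (2, true)
    (2, false) (3, false) (3, false)) (by decide)
  have h1 := H.kf hx (0, true) (1, true) (2, true) (3, true)
  rw [DD_nu hν] at h1
  have n0 : x (0, true) (0, true) = 0 := hxz _ _ (by decide)
  have n1 : x (1, true) (1, true) = 0 := hxz _ _ (by decide)
  have n2 : x (2, true) (2, true) = 0 := hxz _ _ (by decide)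
  change x (0, true) (0, true) * F (0, true) (1, true) (2, true) (3, true) +
    x (1, true) (1, true) * F (0, true) (1, true) (2, true) (3, true) +
    x (2, true) (2, true) * F (0, true) (1, true) (2, true) (3, true) +
    x (3, false) (3, true) * F (0, true) (1, true) (2, true) (3, false) = 0 at h1
  rw [n0, n1, n2, zero_mul, zero_add, zero_add, zero_add] at h1
  exact (mul_eq_zero.1 h1).resolve_left hx0

theorem t1b (m : dg ![100, 10, 1, 100] ∈ M) : F (1, true) (1, false) (0, false) (3, true) = 0 := by
  obtain ⟨x, hx, hx0, hxz⟩ := H.top m (i0 := (0, true)) (i1 := (1, true)) (by decide)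
    (by decide) (by decide)
  have hc : til ![100, 10, 1, 100] (1, true) - til ![100, 10, 1, 100] (0, true) = -90 := by
    decide
  rw [hc] at hxz
  have hν := H.shape hx hxz (ν := tab (1, true) (0, false) (1, true) (0, false) (2, true)
    (2, false) (3, true) (3, false)) (by decide)
  have h1 := H.kf hx (0, true) (1, false) (0, false) (3, true)
  rw [DD_nu hν] at h1
  have n1 : x (0, false) (0, false) = 0 := hxz _ _ (by decide)
  have n2 : x (3, true) (3, true) = 0 := hxz _ _ (by decide)
  change x (1, true) (0, true) * F (1, true) (1, false) (0, false) (3, true) +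
    x (0, false) (1, false) * F (0, true) (0, false) (0, false) (3, true) +
    x (0, false) (0, false) * F (0, true) (1, false) (0, false) (3, true) +
    x (3, true) (3, true) * F (0, true) (1, false) (0, false) (3, true) = 0 at h1
  rw [n1, n2, H.alt.z2, zero_mul, mul_zero, add_zero, add_zero, add_zero] at h1
  exact (mul_eq_zero.1 h1).resolve_left hx0

omit H in
/-- a combination with two nonzero entries -/
theorem combo {p : Matrix (Fin 4 × Bool) (Fin 4 × Bool) ℂ → Prop}
    (hp : ∀ x y, p x → p y → p (x + y)) {i j i' j' : Fin 4 × Bool} {x y : Matrix _ _ ℂ}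
    (hx : p x) (hy : p y) (hx0 : x i j ≠ 0) (hy0 : y i' j' ≠ 0) :
    ∃ z, p z ∧ z i j ≠ 0 ∧ z i' j' ≠ 0 := by
  by_cases h1 : x i' j' = 0
  · by_cases h2 : y i j = 0
    · refine ⟨x + y, hp _ _ hx hy, ?_, ?_⟩
      · rw [Matrix.add_apply, h2, add_zero]; exact hx0
      · rw [Matrix.add_apply, h1, zero_add]; exact hy0
    · exact ⟨y, hy, h2, hy0⟩
  · exact ⟨x, hx, hx0, h1⟩

omit H in
theorem t1c_alg {s t u v w al g1 g a1 b1 : ℂ} (hs : s ≠ 0) (ht : t ≠ 0) (hv : v ≠ 0)
    (e1 : s * g1 - t * al = 0) (e2 : t * g + s * a1 = 0)
    (e3 : s * b1 - t * g = 0) (e4 : u * al - v * g1 + w * a1 = 0)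
    (e5 : 2 * v * al + w * g = 0) (e6 : u * g - v * b1 + v * a1 = 0) : al = 0 ∧ g1 = 0 := by
  have hb : b1 = -a1 := by
    have : s * (b1 + a1) = 0 := by linear_combination e2 + e3
    exact eq_neg_of_add_eq_zero_left ((mul_eq_zero.1 this).resolve_left hs)
  -- `al = s g1 / t`, `g = - s a1 / t`
  have h1 : w * a1 = 2 * v * g1 := by
    have : s * (w * a1 - 2 * v * g1) = 0 := by
      linear_combination w * e2 - t * e5 - 2 * v * e1
    linear_combination (mul_eq_zero.1 this).resolve_left hs
  have h2 : (u * s + v * t) * g1 = 0 := by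
    linear_combination t * e4 + u * e1 - t * h1
  have h3 : (2 * v * t - u * s) * a1 = 0 := by
    rw [hb] at e6
    linear_combination t * e6 - u * e2
  by_cases hg : g1 = 0
  · refine ⟨?_, hg⟩
    rw [hg, mul_zero, zero_sub, neg_eq_zero] at e1
    exact (mul_eq_zero.1 e1).resolve_left ht
  · exfalso
    have h4 := (mul_eq_zero.1 h2).resolve_right hg
    have h5 : a1 ≠ 0 := by
      rintro rfl
      rw [mul_zero] at h1
      exact mul_ne_zero (mul_ne_zero two_ne_zero hv) hg h1.symm
    have h6 := (mul_eq_zero.1 h3).resolve_right h5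
    have h7 : 3 * (v * t) = 0 := by linear_combination h4 + h6
    exact mul_ne_zero three_ne_zero (mul_ne_zero hv ht) h7

theorem t1c (m : ∀ P Z : ℤ, dg ![P, P + Z, P - Z, P] ∈ M) :
    F (1, true) (1, false) (0, false) (3, true) = 0 ∧
      F (0, true) (1, false) (2, false) (3, true) = 0 := by
  have hε : (-1 : ℂ) * -1 = 1 := by norm_num
  -- the first matrix
  have m1 : dg ![100, 101, 99, 100] ∈ M := by
    have := m 100 1
    norm_num at this
    exact this
  have m2 : dg ![-100, -99, -101, -100] ∈ M := by
    have := m (-100) 1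
    norm_num at this
    exact this
  have m3 : dg ![1, 11, -9, 1] ∈ M := by
    have := m 1 10
    norm_num at this
    exact this
  obtain ⟨x1, hx1, hx10, hx1z⟩ := H.top m1 (i0 := (1, true)) (i1 := (0, true)) (by decide)
    (by decide) (by decide)
  obtain ⟨x2, hx2, hx20, hx2z⟩ := H.top m2 (i0 := (2, false)) (i1 := (0, false)) (by decide)
    (by decide) (by decide)
  have c1 : til ![100, 101, 99, 100] (0, true) - til ![100, 101, 99, 100] (1, true) = -1 := by
    decide
  have c2 : til ![-100, -99, -101, -100] (0, false) -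
    til ![-100, -99, -101, -100] (2, false) = -1 := by decide
  rw [c1] at hx1z
  rw [c2] at hx2z
  obtain ⟨S, hS⟩ : ∃ S : Finset ((Fin 4 × Bool) × (Fin 4 × Bool)), S =
    {((0, true), (1, true)), ((2, true), (0, true)), ((1, false), (0, false)),
      ((0, false), (2, false))} := ⟨_, rfl⟩
  have hsh : ∀ (h : Fin 4 → ℤ), (∀ i j : Fin 4 × Bool, b31 i.1 = b31 j.1 →
      til h i - til h j = -1 → (i, j) ∈ S) → ∀ x ∈ M, (∀ i j, til h i - til h j ≠ -1 →
      x i j = 0) → ∀ i j, (i, j) ∉ S → x i j = 0 := by
    intro h h1 x hx h2 i j hij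
    by_cases h3 : b31 i.1 = b31 j.1
    · exact h2 i j fun h4 => hij (h1 i j h3 h4)
    · exact H.bk x hx i j h3
  have hν1 := hsh _ (by rw [hS]; decide) x1 hx1 hx1z
  have hν2 := hsh _ (by rw [hS]; decide) x2 hx2 hx2z
  obtain ⟨x, ⟨hx, hxν⟩, hxs, hxt'⟩ := combo
    (p := fun x => x ∈ M ∧ ∀ i j, (i, j) ∉ S → x i j = 0) (fun x y hx hy =>
      ⟨M.add_mem hx.1 hy.1, fun i j hij => by
        rw [Matrix.add_apply, hx.2 i j hij, hy.2 i j hij, add_zero]⟩)
    ⟨hx1, hν1⟩ ⟨hx2, hν2⟩ hx10 hx20
  have hxt : x (2, true) (0, true) ≠ 0 := by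
    have h3 := Sk_bar hε (H.sk hx) ((0 : Fin 4), true) ((2 : Fin 4), true)
    simp only [bar, sg, Bool.not_true, if_true, mul_one, one_mul] at h3
    intro h4
    rw [h4, neg_zero] at h3
    exact hxt' h3
  have hx1f : x (1, false) (0, false) = -x (0, true) (1, true) := by
    have h3 := Sk_bar hε (H.sk hx) ((1 : Fin 4), true) ((0 : Fin 4), true)
    simp only [bar, sg, Bool.not_true, if_true, mul_one, one_mul] at h3
    exact h3
  have hx0f : x (0, false) (2, false) = -x (2, true) (0, true) := by
    have h3 := Sk_bar hε (H.sk hx) ((0 : Fin 4), true) ((2 : Fin 4), true)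
    simp only [bar, sg, Bool.not_true, if_true, mul_one, one_mul] at h3
    exact h3
  -- the second matrix
  obtain ⟨y, hy, hy0, hyz⟩ := H.top m3 (i0 := (1, true)) (i1 := (2, false)) (by decide)
    (by decide) (by decide)
  have c3 : til ![1, 11, -9, 1] (2, false) - til ![1, 11, -9, 1] (1, true) = -2 := by
    decide
  rw [c3] at hyz
  have hy2 : y (1, false) (2, true) = y (2, false) (1, true) := by
    have h3 := Sk_bar hε (H.sk hy) ((1 : Fin 4), true) ((2 : Fin 4), false)
    simp only [bar, sg, Bool.not_true, Bool.not_false, if_true, Bool.false_eq_true, if_false,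
      mul_one, one_mul] at h3
    rw [h3]
    ring
  -- evaluation
  obtain ⟨νx, hνx⟩ : ∃ ν, ν = tab (2, true) (1, false) (0, true) (1, true) (3, true)
    (0, false) (2, true) (2, true) := ⟨_, rfl⟩
  have zx : ∀ i j, i ≠ νx j → x i j = 0 := fun i j hij => hxν i j fun h => hij (by
    have : ∀ i j, (i, j) ∈ S → i = νx j := by rw [hS, hνx]; decide
    exact this i j h)
  obtain ⟨νy, hνy⟩ : ∃ ν, ν = tab (0, false) (0, true) (2, false) (0, true) (1, false)
    (0, true) (3, false) (0, true) := ⟨_, rfl⟩
  have zy := H.shape hy hyz (ν := νy) (by rw [hνy]; decide)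
  have A := H.alt
  have cyc : ∀ a b c d, F c a b d = F a b c d := by
    intro a b c d
    rw [A.s1, A.s2, neg_neg]
  -- zero columns
  have x1 : x (1, true) (1, false) = 0 := hxν _ _ (by rw [hS]; decide)
  have x2 : x (2, true) (3, true) = 0 := hxν _ _ (by rw [hS]; decide)
  have x3 : x (2, true) (3, false) = 0 := hxν _ _ (by rw [hS]; decide)
  have x4 : x (3, true) (2, true) = 0 := hxν _ _ (by rw [hS]; decide)
  have y1 : y (0, true) (1, false) = 0 := hyz _ _ (by decide)
  have y2 : y (0, true) (0, false) = 0 := hyz _ _ (by decide)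
  have y3 : y (0, true) (3, false) = 0 := hyz _ _ (by decide)
  have k1 := H.kf hx (1, true) (1, false) (2, false) (3, true)
  have k1' := H.kf hx (0, true) (0, false) (2, false) (3, true)
  have k2 := H.kf hx (1, true) (0, true) (0, false) (3, false)
  have k3 := H.kf hx (1, true) (2, true) (2, false) (3, false)
  rw [DD_nu zx, hνx] at k1 k1' k2 k3
  have k4 := H.kf hy (0, true) (1, true) (1, false) (3, true)
  have k5 := H.kf hy (1, true) (2, true) (0, false) (3, true)
  have k6 := H.kf hy (0, true) (1, true) (2, true) (3, false)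
  rw [DD_nu zy, hνy] at k4 k5 k6
  change x (0, true) (1, true) * F (0, true) (1, false) (2, false) (3, true) +
    x (1, true) (1, false) * F (1, true) (1, true) (2, false) (3, true) +
    x (0, false) (2, false) * F (1, true) (1, false) (0, false) (3, true) +
    x (2, true) (3, true) * F (1, true) (1, false) (2, false) (2, true) = 0 at k1
  change x (2, true) (0, true) * F (2, true) (0, false) (2, false) (3, true) +
    x (1, false) (0, false) * F (0, true) (1, false) (2, false) (3, true) +
    x (0, false) (2, false) * F (0, true) (0, false) (0, false) (3, true) +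
    x (2, true) (3, true) * F (0, true) (0, false) (2, false) (2, true) = 0 at k1'
  change x (0, true) (1, true) * F (0, true) (0, true) (0, false) (3, false) +
    x (2, true) (0, true) * F (1, true) (2, true) (0, false) (3, false) +
    x (1, false) (0, false) * F (1, true) (0, true) (1, false) (3, false) +
    x (2, true) (3, false) * F (1, true) (0, true) (0, false) (2, true) = 0 at k2
  change x (0, true) (1, true) * F (0, true) (2, true) (2, false) (3, false) +
    x (3, true) (2, true) * F (1, true) (3, true) (2, false) (3, false) +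
    x (0, false) (2, false) * F (1, true) (2, true) (0, false) (3, false) +
    x (2, true) (3, false) * F (1, true) (2, true) (2, false) (2, true) = 0 at k3
  change y (0, false) (0, true) * F (0, false) (1, true) (1, false) (3, true) +
    y (2, false) (1, true) * F (0, true) (2, false) (1, false) (3, true) +
    y (0, true) (1, false) * F (0, true) (1, true) (0, true) (3, true) +
    y (3, false) (3, true) * F (0, true) (1, true) (1, false) (3, false) = 0 at k4
  change y (2, false) (1, true) * F (2, false) (2, true) (0, false) (3, true) +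
    y (1, false) (2, true) * F (1, true) (1, false) (0, false) (3, true) +
    y (0, true) (0, false) * F (1, true) (2, true) (0, true) (3, true) +
    y (3, false) (3, true) * F (1, true) (2, true) (0, false) (3, false) = 0 at k5
  change y (0, false) (0, true) * F (0, false) (1, true) (2, true) (3, false) +
    y (2, false) (1, true) * F (0, true) (2, false) (2, true) (3, false) +
    y (1, false) (2, true) * F (0, true) (1, true) (1, false) (3, false) +
    y (0, true) (3, false) * F (0, true) (1, true) (2, true) (0, true) = 0 at k6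
  rw [x1, x2, hx0f] at k1
  rw [x2, hx0f, hx1f, A.z2] at k1'
  rw [x3, hx1f, A.z1, A.s1 (0, true) (1, true) (1, false) (3, false)] at k2
  rw [x3, x4, hx0f] at k3
  rw [y1, cyc (1, true) (1, false) (0, false) (3, true),
    A.s2 (0, true) (1, false) (2, false) (3, true)] at k4
  rw [y2, hy2] at k5
  rw [y3, hy2, cyc (1, true) (2, true) (0, false) (3, false),
    A.s2 (0, true) (2, true) (2, false) (3, false)] at k6
  have k7 : F (2, false) (2, true) (0, false) (3, true) =
      F (1, true) (1, false) (0, false) (3, true) := by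
    have h1 := cyc (2, true) (0, false) (2, false) (3, true)
    rw [h1]
    have h2 : x (2, true) (0, true) * (F (2, true) (0, false) (2, false) (3, true) -
        F (1, true) (1, false) (0, false) (3, true)) = 0 := by
      linear_combination k1 + k1'
    exact sub_eq_zero.1 ((mul_eq_zero.1 h2).resolve_left hxt)
  rw [k7] at k5
  refine t1c_alg (s := x (0, true) (1, true)) (t := x (2, true) (0, true))
    (u := y (0, false) (0, true)) (v := y (2, false) (1, true)) (w := y (3, false) (3, true))
    (g := F (1, true) (2, true) (0, false) (3, false))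
    (a1 := F (0, true) (1, true) (1, false) (3, false))
    (b1 := F (0, true) (2, true) (2, false) (3, false)) hxs hxt hy0 ?_ ?_ ?_ ?_ ?_ ?_
  · linear_combination k1
  · linear_combination k2
  · linear_combination k3
  · linear_combination k4
  · linear_combination k5
  · linear_combination k6

end BD

end Pool.Agent.R912.Q
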