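import Pool.Agent.R912.Q.Two3

set_option autoImplicit false
set_option linter.unusedSectionVars false
set_option linter.unusedSimpArgs false
set_option linter.unusedVariables false

/-!
# Irreducible subspaces with the same highest weight
-/

open Module Matrix

namespace Pool.Agent.R912

open Pool.Agent.Y102.SP Q

attribute [local instance 100] LieRing.ofAssociativeRing

variable {U : Type} [AddCommGroup U] [Module ℂ U] [FiniteDimensional ℂ U]
  {T : Type} [AddCommGroup T] [Module ℂ T] {L : Submodule ℂ (Module.End ℂ U)}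

theorem exists_irrSub_le {P : Submodule ℂ U} (hP : ∀ x ∈ L, ∀ u ∈ P, x u ∈ P) (h0 : P ≠ ⊥) :
    ∃ N, IrrSub L N ∧ N ≤ P := by
  obtain ⟨N, ⟨hN0, hN1, hN2⟩, hmin⟩ := WellFounded.has_min
    (wellFounded_lt : WellFounded ((· < ·) : Submodule ℂ U → Submodule ℂ U → Prop))
    {Q | Q ≤ P ∧ Q ≠ ⊥ ∧ ∀ x ∈ L, ∀ u ∈ Q, x u ∈ Q} ⟨P, le_rfl, h0, hP⟩
  refine ⟨N, ⟨hN1, hN2, fun Q hQ hst hne => ?_⟩, hN0⟩
  by_contra hcon
  exact hmin Q ⟨hQ.trans hN0, hne, hst⟩ (lt_of_le_of_ne hQ hcon)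

namespace RS

variable (S : RS L T)

theorem D_top {φ : Module.Dual ℂ T →ₗ[ℚ] ℚ} {μ : Module.Dual ℂ T} {v : U} (hv : v ∈ usp S.ι μ)
    {u : U} (hu : u ∈ S.D φ v) (hμ : u ∈ usp S.ι μ) : ∃ c : ℂ, u = c • v := by
  have h2 : S.D φ v ≤ Submodule.span ℂ {v} ⊔ ⨆ ψ, ⨆ (_ : ψ ≠ μ), usp S.ι ψ := by
    unfold D
    rw [Submodule.span_le]
    rintro _ ⟨l, hl, rfl⟩
    cases l with
    | nil =>
      rw [gen_nil]
      exact Submodule.mem_sup_left (Submodule.mem_span_singleton_self _)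
    | cons γ l =>
      have h4 : φ (γ :: l).sum < 0 := by
        have key : ∀ l : List (Module.Dual ℂ T), (∀ γ ∈ l, γ ∈ S.R.Φ ∧ φ γ < 0) → φ l.sum ≤ 0 := by
          intro l
          induction l with
          | nil => intro _; rw [List.sum_nil, map_zero]
          | cons β l ih =>
            intro hl
            rw [List.sum_cons, map_add]
            have := (hl β List.mem_cons_self).2
            have := ih fun γ hγ => hl γ (List.mem_cons_of_mem _ hγ)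
            linarith
        rw [List.sum_cons, map_add]
        have := (hl γ List.mem_cons_self).2
        have := key l fun γ hγ => hl γ (List.mem_cons_of_mem _ hγ)
        linarith
      have hne : (γ :: l).sum + μ ≠ μ := by
        intro h5
        rw [add_eq_right] at h5
        rw [h5, map_zero] at h4
        exact lt_irrefl _ h4
      refine Submodule.mem_sup_right ?_
      have h6 : usp S.ι ((γ :: l).sum + μ) ≤ ⨆ ψ, ⨆ (_ : ψ ≠ μ), usp S.ι ψ :=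
        le_iSup₂_of_le _ hne le_rfl
      exact h6 (S.gen_weight hv _ fun γ hγ => (hl γ hγ).1)
  obtain ⟨a, ha, r, hr, hsum⟩ := Submodule.mem_sup.1 (h2 hu)
  obtain ⟨c, rfl⟩ := Submodule.mem_span_singleton.1 ha
  refine ⟨c, ?_⟩
  have h5 : r ∈ usp S.ι μ := by
    have h6 : r = u - c • v := by rw [← hsum]; abel
    rw [h6]
    exact Submodule.sub_mem _ hμ (Submodule.smul_mem _ _ hv)
  have h7 := (S.usp_indep μ).le_bot ⟨h5, hr⟩
  rw [← hsum, (Submodule.mem_bot ℂ).1 h7, add_zero]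

theorem hw_unique {φ : Module.Dual ℂ T →ₗ[ℚ] ℚ} (hφ : ∀ α ∈ S.R.Φ, φ α ≠ 0)
    {N1 N2 : Submodule ℂ U} (h1 : IrrSub L N1) (h2 : IrrSub L N2) {v1 v2 : U} (hv1 : v1 ∈ N1)
    (hv2 : v2 ∈ N2) (n1 : v1 ≠ 0) (n2 : v2 ≠ 0) {μ : Module.Dual ℂ T} (w1 : v1 ∈ usp S.ι μ)
    (w2 : v2 ∈ usp S.ι μ) (k1 : ∀ α ∈ S.R.Φ, 0 < φ α → S.e α v1 = 0)
    (k2 : ∀ α ∈ S.R.Φ, 0 < φ α → S.e α v2 = 0) (hd : N1 ⊓ N2 = ⊥) :
    ∃ D, IrrSub L D ∧ ¬ D ≤ N1 ∧ ¬ D ≤ N2 := by
  have w12 : v1 + v2 ∈ usp S.ι μ := Submodule.add_mem _ w1 w2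
  have hk : ∀ α ∈ S.R.Φ, 0 < φ α → S.e α (v1 + v2) = 0 := by
    intro α hα hp
    rw [map_add, k1 α hα hp, k2 α hα hp, add_zero]
  have hmem : v1 + v2 ∈ S.D φ (v1 + v2) := Submodule.subset_span ⟨[], by simp, (S.gen_nil _).symm⟩
  have hst : ∀ x ∈ L, ∀ u ∈ S.D φ (v1 + v2), x u ∈ S.D φ (v1 + v2) := by
    intro x hx u hu
    have h3 : S.D φ (v1 + v2) ≤ (S.D φ (v1 + v2)).comap x := by
      conv_lhs => unfold D
      rw [Submodule.span_le]
      rintro _ ⟨l, hl, rfl⟩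
      exact S.D_stable hφ w12 hk l hl x hx
    exact h3 hu
  have dj : ∀ u, u ∈ N1 → u ∈ N2 → u = 0 := by
    intro u hu hu'
    have : u ∈ N1 ⊓ N2 := ⟨hu, hu'⟩
    rwa [hd, Submodule.mem_bot] at this
  have h0 : S.D φ (v1 + v2) ≠ ⊥ := by
    intro hb
    rw [hb, Submodule.mem_bot] at hmem
    apply n1
    refine dj v1 hv1 ?_
    rw [eq_neg_of_add_eq_zero_left hmem]
    exact N2.neg_mem hv2
  obtain ⟨D, hD, hDle⟩ := exists_irrSub_le hst h0
  refine ⟨D, hD, fun hle => ?_, fun hle => ?_⟩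
  · have h3 := h1.irr D hle hD.stab hD.ne
    have h4 : v1 ∈ S.D φ (v1 + v2) := hDle (h3 ▸ hv1)
    obtain ⟨c, hc⟩ := S.D_top w12 h4 w1
    have h5 : c • v2 = (1 - c) • v1 := by
      rw [sub_smul, one_smul]
      nth_rewrite 1 [hc]
      rw [smul_add]
      abel
    have h6 : c • v2 = 0 := dj _ (by rw [h5]; exact N1.smul_mem _ hv1) (N2.smul_mem _ hv2)
    have h7 : c = 0 := (smul_eq_zero.1 h6).resolve_right n2
    rw [h7, zero_smul] at hc
    exact n1 hc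
  · have h3 := h2.irr D hle hD.stab hD.ne
    have h4 : v2 ∈ S.D φ (v1 + v2) := hDle (h3 ▸ hv2)
    obtain ⟨c, hc⟩ := S.D_top w12 h4 w2
    have h5 : c • v1 = (1 - c) • v2 := by
      rw [sub_smul, one_smul]
      nth_rewrite 1 [hc]
      rw [smul_add]
      abel
    have h6 : c • v1 = 0 := dj _ (N1.smul_mem _ hv1) (by rw [h5]; exact N2.smul_mem _ hv2)
    have h7 : c = 0 := (smul_eq_zero.1 h6).resolve_right n1
    rw [h7, zero_smul] at hc
    exact n2 hc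

end RS

namespace GB

variable {S : RS L T} {N : Submodule ℂ U} {ω : U →ₗ[ℂ] U →ₗ[ℂ] ℂ} {k : ℕ}
  {blk : Fin k → ℕ} {e : Fin k × Bool → U} {w : Fin k × Bool → Module.Dual ℂ T}
  (h : GB S N ω k blk e w)
include h

/-- the weights of a block -/
theorem wt_of_BSp (sk : ∀ x ∈ L, ∀ u v, ω (x u) v + ω u (x v) = 0) {i : Fin k} {u : U}
    {χ : Module.Dual ℂ T} (hu : u ∈ BSp e blk i) (hχ : u ∈ usp S.ι χ) (h0 : u ≠ 0) :
    ∃ q : Fin k × Bool, blk q.1 = blk i ∧ χ = w q := by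
  have hN : BSp e blk i ≤ N := by
    unfold BSp
    rw [Submodule.span_le]
    rintro _ ⟨p, -, rfl⟩
    exact h.mem p
  by_contra hcon
  push Not at hcon
  apply h0
  rw [h.cb.coord neg1 (hN hu)]
  refine Finset.sum_eq_zero fun p _ => ?_
  by_cases hp : blk p.1 = blk i
  · have h1 : ω u (e (bar p)) = 0 := by
      by_contra hne
      have h2 := h.pairw sk hχ (h.wt (bar p)) hne
      rw [h.wbar, ← sub_eq_add_neg, sub_eq_zero] at h2
      exact hcon p hp h2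
    rw [h1, mul_zero, zero_smul]
  · have h1 : ω u (e (bar p)) = 0 := h.orth hu (q := bar p) hp
    rw [h1, mul_zero, zero_smul]

theorem kill_top (sk : ∀ x ∈ L, ∀ u v, ω (x u) v + ω u (x v) = 0)
    {φ : Module.Dual ℂ T →ₗ[ℚ] ℚ} {p : Fin k × Bool}
    (hmax : ∀ q : Fin k × Bool, blk q.1 = blk p.1 → φ (w q) ≤ φ (w p)) {α : Module.Dual ℂ T}
    (hα : α ∈ S.R.Φ) (hp : 0 < φ α) : S.e α (e p) = 0 := by
  by_contra hne
  obtain ⟨q, hq, hq'⟩ := h.wt_of_BSp sk ((h.irr p.1).stab _ (S.emem α hα) _ (h.memBSp p))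
    (S.usp_mul (fun t => S.wt α hα t) (h.wt p)) hne
  have h1 := congrArg φ hq'
  rw [map_add] at h1
  have h2 := hmax q hq
  linarith

/-- Two blocks with the same weights. -/
theorem same_wt (sk : ∀ x ∈ L, ∀ u v, ω (x u) v + ω u (x v) = 0)
    {φ : Module.Dual ℂ T →ₗ[ℚ] ℚ} (g : Gen S φ w) {i j : Fin k} (hij : blk i ≠ blk j)
    (h1 : ∀ p : Fin k × Bool, blk p.1 = blk i → ∃ q : Fin k × Bool, blk q.1 = blk j ∧
      φ (w p) = φ (w q))
    (h2 : ∀ p : Fin k × Bool, blk p.1 = blk j → ∃ q : Fin k × Bool, blk q.1 = blk i ∧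
      φ (w p) = φ (w q)) :
    ∃ D, IrrSub L D ∧ ¬ D ≤ BSp e blk i ∧ ¬ D ≤ BSp e blk j := by
  classical
  obtain ⟨p, hp1, hp2⟩ := Finset.exists_max_image
    (Finset.univ.filter fun p : Fin k × Bool => blk p.1 = blk i) (fun p => φ (w p))
    ⟨(i, true), by simp⟩
  obtain ⟨q, hq1, hq2⟩ := Finset.exists_max_image
    (Finset.univ.filter fun p : Fin k × Bool => blk p.1 = blk j) (fun p => φ (w p))
    ⟨(j, true), by simp⟩
  have hpi : blk p.1 = blk i := (Finset.mem_filter.1 hp1).2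
  have hqj : blk q.1 = blk j := (Finset.mem_filter.1 hq1).2
  have hp3 : ∀ r : Fin k × Bool, blk r.1 = blk p.1 → φ (w r) ≤ φ (w p) := fun r hr =>
    hp2 r (by simp [hr, hpi])
  have hq3 : ∀ r : Fin k × Bool, blk r.1 = blk q.1 → φ (w r) ≤ φ (w q) := fun r hr =>
    hq2 r (by simp [hr, hqj])
  have hpq : w p = w q := by
    apply g.inj
    apply le_antisymm
    · obtain ⟨r, hr1, hr2⟩ := h1 p hpi
      rw [hr2]
      exact hq3 r (by rw [hr1, hqj])
    · obtain ⟨r, hr1, hr2⟩ := h2 q hqj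
      rw [hr2]
      exact hp3 r (by rw [hr1, hpi])
  have hB : ∀ (r : Fin k × Bool) (l : Fin k), blk r.1 = blk l → e r ∈ BSp e blk l := fun r l hr =>
    Submodule.subset_span ⟨r, hr, rfl⟩
  refine S.hw_unique g.root (h.irr i) (h.irr j) (hB p i hpi) (hB q j hqj)
    ((h.cb.li neg1).ne_zero p) ((h.cb.li neg1).ne_zero q) (h.wt p) (by rw [hpq]; exact h.wt q)
    (fun α hα hpos => h.kill_top sk hp3 hα hpos) (fun α hα hpos => h.kill_top sk hq3 hα hpos) ?_
  rw [eq_bot_iff]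
  rintro u ⟨hu1, hu2⟩
  rw [Submodule.mem_bot]
  have hN : BSp e blk i ≤ N := by
    unfold BSp
    rw [Submodule.span_le]
    rintro _ ⟨p, -, rfl⟩
    exact h.mem p
  rw [h.cb.coord neg1 (hN hu1)]
  refine Finset.sum_eq_zero fun r _ => ?_
  have h3 : ω u (e (bar r)) = 0 := by
    by_cases hr : blk r.1 = blk i
    · exact h.orth hu2 (q := bar r) (fun h4 => hij (hr.symm.trans h4))
    · exact h.orth hu1 (q := bar r) hr
  rw [h3, mul_zero, zero_smul]

end GB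

end Pool.Agent.R912
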