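import Pool.Agent.R912.Q.Core
import Pool.Agent.R912.U11

set_option autoImplicit false
set_option linter.unusedSectionVars false

/-!
# Isotypic representations
-/

open Module Matrix

namespace Pool.Agent.R912

open Pool.Agent.Y102.SP Q

attribute [local instance 100] LieRing.ofAssociativeRing

variable {U : Type} [AddCommGroup U] [Module ℂ U] [FiniteDimensional ℂ U]
  {L K : Submodule ℂ (Module.End ℂ U)} {ω : U →ₗ[ℂ] U →ₗ[ℂ] ℂ}

/-- A Lie algebra `L` and endomorphisms `K` commuting with `L` such that `U` is irreducible under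
both. -/
structure QHyp (L K : Submodule ℂ (Module.End ℂ U)) (ω : U →ₗ[ℂ] U →ₗ[ℂ] ℂ) : Prop where
  br : ∀ x ∈ L, ∀ y ∈ L, x * y - y * x ∈ L
  skew : ∀ x ∈ L, ∀ u v, ω (x u) v + ω u (x v) = 0
  alt : ∀ u v, ω u v = -ω v u
  nd : ∀ u, (∀ v, ω v u = 0) → u = 0
  comm : ∀ x ∈ L, ∀ k ∈ K, x * k = k * x
  Kmul : ∀ k ∈ K, ∀ l ∈ K, k * l ∈ K
  Kone : (1 : Module.End ℂ U) ∈ K
  full : ∀ P : Submodule ℂ U, (∀ x ∈ L, ∀ u ∈ P, x u ∈ P) → (∀ x ∈ K, ∀ u ∈ P, x u ∈ P) →
    P = ⊥ ∨ P = ⊤

theorem exists_irrSub [Nontrivial U] (L : Submodule ℂ (Module.End ℂ U)) :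
    ∃ N, IrrSub L N := by
  obtain ⟨N, ⟨hN1, hN2⟩, hmin⟩ := WellFounded.has_min
    (wellFounded_lt : WellFounded ((· < ·) : Submodule ℂ U → Submodule ℂ U → Prop))
    {P | P ≠ ⊥ ∧ ∀ x ∈ L, ∀ u ∈ P, x u ∈ P} ⟨⊤, top_ne_bot, fun _ _ _ _ => trivial⟩
  refine ⟨N, hN1, hN2, fun P hP hst hne => ?_⟩
  by_contra hcon
  exact hmin P ⟨hne, hst⟩ (lt_of_le_of_ne hP hcon)

namespace QHyp

variable (H : QHyp L K ω) {N : Submodule ℂ U} (hN : IrrSub L N)
include H hN

/-- The translates of `N` span. -/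
theorem spanK : Submodule.span ℂ {w | ∃ k ∈ K, ∃ u ∈ N, w = k u} = ⊤ := by
  obtain ⟨P, hP⟩ : ∃ P, P = Submodule.span ℂ {w | ∃ k ∈ K, ∃ u ∈ N, w = k u} := ⟨_, rfl⟩
  rw [← hP]
  refine (H.full P ?_ ?_).resolve_left ?_
  · intro x hx u hu
    rw [hP] at hu ⊢
    induction hu using Submodule.span_induction with
    | mem u hu =>
      obtain ⟨k, hk, n, hn, rfl⟩ := hu
      refine Submodule.subset_span ⟨k, hk, x n, hN.stab x hx n hn, ?_⟩
      exact LinearMap.congr_fun (H.comm x hx k hk) n
    | zero => rw [map_zero]; exact Submodule.zero_mem _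
    | add u v _ _ hu hv => rw [map_add]; exact Submodule.add_mem _ hu hv
    | smul c u _ hu => rw [map_smul]; exact Submodule.smul_mem _ c hu
  · intro x hx u hu
    rw [hP] at hu ⊢
    induction hu using Submodule.span_induction with
    | mem u hu =>
      obtain ⟨k, hk, n, hn, rfl⟩ := hu
      exact Submodule.subset_span ⟨x * k, H.Kmul x hx k hk, n, hn, rfl⟩
    | zero => rw [map_zero]; exact Submodule.zero_mem _
    | add u v _ _ hu hv => rw [map_add]; exact Submodule.add_mem _ hu hv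
    | smul c u _ hu => rw [map_smul]; exact Submodule.smul_mem _ c hu
  · intro h0
    obtain ⟨n, hn, hn0⟩ := (Submodule.ne_bot_iff N).1 hN.ne
    have h1 : n ∈ P := by
      rw [hP]
      exact Submodule.subset_span ⟨1, H.Kone, n, hn, rfl⟩
    rw [h0, Submodule.mem_bot] at h1
    exact hn0 h1

/-- The invariant form. -/
theorem exists_frm : ∃ k ∈ K, ∃ ε : ℂ, (ε = 1 ∨ ε = -1) ∧ Frm L N (ω.compl₂ k) ε := by
  -- a nonzero form
  obtain ⟨n0, hn0, hn00⟩ := (Submodule.ne_bot_iff N).1 hN.ne
  obtain ⟨k, hk, v0, hv0, hB0⟩ : ∃ k ∈ K, ∃ v ∈ N, ω n0 (k v) ≠ 0 := by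
    by_contra hcon
    push Not at hcon
    refine hn00 (H.nd _ fun v => ?_)
    rw [H.alt, neg_eq_zero]
    have hv : v ∈ Submodule.span ℂ {w | ∃ k ∈ K, ∃ u ∈ N, w = k u} := by
      rw [H.spanK hN]; trivial
    induction hv using Submodule.span_induction with
    | mem v hv =>
      obtain ⟨k, hk, u, hu, rfl⟩ := hv
      exact hcon k hk u hu
    | zero => exact map_zero _
    | add u v _ _ hu hv => rw [map_add, hu, hv, add_zero]
    | smul c u _ hu => rw [map_smul, hu, smul_zero]
  obtain ⟨B, hBdef⟩ : ∃ B, B = ω.compl₂ k := ⟨_, rfl⟩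
  have hB : ∀ u v, B u v = ω u (k v) := fun u v => by rw [hBdef, LinearMap.compl₂_apply]
  rw [← hB] at hB0
  have hinv : ∀ x ∈ L, ∀ u v, B (x u) v + B u (x v) = 0 := by
    intro x hx u v
    rw [hB, hB]
    have h1 : k (x v) = x (k v) := (LinearMap.congr_fun (H.comm x hx k hk) v).symm
    rw [h1]
    exact H.skew x hx u (k v)
  -- the radicals
  have rad1 : ∀ u ∈ N, (∀ v ∈ N, B v u = 0) → u = 0 := by
    let R : Submodule ℂ U :=
      { carrier := {u | u ∈ N ∧ ∀ v ∈ N, B v u = 0}
        zero_mem' := ⟨N.zero_mem, fun v _ => map_zero _⟩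
        add_mem' := fun {a b} ha hb => ⟨N.add_mem ha.1 hb.1, fun v hv => by
          rw [map_add, ha.2 v hv, hb.2 v hv, add_zero]⟩
        smul_mem' := fun c a ha => ⟨N.smul_mem c ha.1, fun v hv => by
          rw [map_smul, ha.2 v hv, smul_zero]⟩ }
    by_cases hR : R = ⊥
    · intro u hu h1
      have : u ∈ R := ⟨hu, h1⟩
      rw [hR] at this
      exact this
    · exfalso
      have h1 := hN.irr R (fun u hu => hu.1) (fun x hx u hu => ⟨hN.stab x hx u hu.1,
        fun v hv => by
          have h2 := hinv x hx v u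
          rw [hu.2 _ (hN.stab x hx v hv), zero_add] at h2
          exact h2⟩) hR
      have h2 : v0 ∈ R := by rw [h1]; exact hv0
      exact hB0 (h2.2 n0 hn0)
  have rad2 : ∀ u ∈ N, (∀ v ∈ N, B u v = 0) → u = 0 := by
    let R : Submodule ℂ U :=
      { carrier := {u | u ∈ N ∧ ∀ v ∈ N, B u v = 0}
        zero_mem' := ⟨N.zero_mem, fun v _ => by rw [map_zero, LinearMap.zero_apply]⟩
        add_mem' := fun {a b} ha hb => ⟨N.add_mem ha.1 hb.1, fun v hv => by
          rw [map_add, LinearMap.add_apply, ha.2 v hv, hb.2 v hv, add_zero]⟩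
        smul_mem' := fun c a ha => ⟨N.smul_mem c ha.1, fun v hv => by
          rw [map_smul, LinearMap.smul_apply, ha.2 v hv, smul_zero]⟩ }
    by_cases hR : R = ⊥
    · intro u hu h1
      have : u ∈ R := ⟨hu, h1⟩
      rw [hR] at this
      exact this
    · exfalso
      have h1 := hN.irr R (fun u hu => hu.1) (fun x hx u hu => ⟨hN.stab x hx u hu.1,
        fun v hv => by
          have h2 := hinv x hx u v
          rw [hu.2 _ (hN.stab x hx v hv), add_zero] at h2
          exact h2⟩) hR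
      have h2 : n0 ∈ R := by rw [h1]; exact hn0
      exact hB0 (h2.2 v0 hv0)
  -- the eigenvalue
  let BN : N →ₗ[ℂ] Module.Dual ℂ N := (LinearMap.lcomp ℂ ℂ N.subtype) ∘ₗ B ∘ₗ N.subtype
  have hBN : ∀ u v : N, BN u v = B u.1 v.1 := fun u v => rfl
  let f : N →ₗ[ℂ] Module.Dual ℂ N := BN.flip
  have hf : ∀ u v : N, f v u = B u.1 v.1 := fun u v => rfl
  have hinjB : Function.Injective BN := by
    rw [injective_iff_map_eq_zero]
    intro u hu
    refine Subtype.ext (rad2 u.1 u.2 fun v hv => ?_)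
    exact LinearMap.congr_fun hu (⟨v, hv⟩ : N)
  have : Nontrivial N := Submodule.nontrivial_iff_ne_bot.2 hN.ne
  let E : N ≃ₗ[ℂ] Module.Dual ℂ N := LinearMap.linearEquivOfInjective BN hinjB
    (Subspace.dual_finrank_eq).symm
  have hE : ∀ u, E u = BN u := fun u => rfl
  obtain ⟨lam, hlam⟩ := Module.End.exists_eigenvalue (E.symm.toLinearMap ∘ₗ f : Module.End ℂ N)
  obtain ⟨v, hv⟩ := hlam.exists_hasEigenvector
  have h1 : f v = lam • BN v := by
    have h2 := hv.apply_eq_smul
    rw [LinearMap.comp_apply, LinearEquiv.coe_coe, LinearEquiv.symm_apply_eq, map_smul, hE] at h2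
    exact h2
  let Q : Submodule ℂ U :=
    { carrier := {v | v ∈ N ∧ ∀ u ∈ N, B u v = lam * B v u}
      zero_mem' := ⟨N.zero_mem, fun u _ => by rw [map_zero, map_zero, LinearMap.zero_apply,
        mul_zero]⟩
      add_mem' := fun {a b} ha hb => ⟨N.add_mem ha.1 hb.1, fun u hu => by
        rw [map_add, map_add, LinearMap.add_apply, ha.2 u hu, hb.2 u hu, mul_add]⟩
      smul_mem' := fun c a ha => ⟨N.smul_mem c ha.1, fun u hu => by
        rw [map_smul, map_smul, LinearMap.smul_apply, ha.2 u hu, smul_eq_mul, smul_eq_mul]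
        ring⟩ }
  have hQ : Q = N := by
    refine hN.irr Q (fun u hu => hu.1) (fun x hx u hu => ⟨hN.stab x hx u hu.1,
      fun y hy => ?_⟩) ?_
    · have h3 := hinv x hx y u
      have h4 := hinv x hx u y
      have h5 := hu.2 _ (hN.stab x hx y hy)
      linear_combination h3 - h5 - lam * h4
    · intro hb
      have h3 : v.1 ∈ Q := ⟨v.2, fun u hu => by
        have h4 := LinearMap.congr_fun h1 (⟨u, hu⟩ : N)
        exact h4⟩
      rw [hb, Submodule.mem_bot] at h3
      exact hv.2 (Subtype.ext h3)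
  have hsym : ∀ u ∈ N, ∀ v ∈ N, B u v = lam * B v u := by
    intro u hu v hv
    rw [← hQ] at hv
    exact hv.2 u hu
  refine ⟨k, hk, lam, ?_, hBdef ▸ ⟨fun x hx u _ v _ => hinv x hx u v, rad1, hsym⟩⟩
  have h3 := hsym _ hn0 _ hv0
  rw [hsym _ hv0 _ hn0, ← mul_assoc] at h3
  have h4 : (lam * lam - 1) * B n0 v0 = 0 := by linear_combination -h3
  have h5 := (mul_eq_zero.1 h4).resolve_right hB0
  have h6 : (lam - 1) * (lam + 1) = 0 := by linear_combination h5
  rcases mul_eq_zero.1 h6 with h7 | h7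
  · exact Or.inl (sub_eq_zero.1 h7)
  · exact Or.inr (eq_neg_of_add_eq_zero_left h7)

end QHyp

/-- the sum of the translates -/
def PS (N : Submodule ℂ U) : List (Module.End ℂ U) → Submodule ℂ U
  | [] => ⊥
  | k :: l => N.map k ⊔ PS N l

theorem PS_stab {N : Submodule ℂ U} (hN : IrrSub L N) (hc : ∀ x ∈ L, ∀ k ∈ K, x * k = k * x)
    (l : List (Module.End ℂ U)) : (∀ k ∈ l, k ∈ K) → ∀ x ∈ L, ∀ u ∈ PS N l, x u ∈ PS N l := by
  induction l with
  | nil =>
    intro _ x _ u hu
    have h1 : u = 0 := hu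
    rw [h1, map_zero]
    exact Submodule.zero_mem _
  | cons k l ih =>
    intro hl x hx u hu
    obtain ⟨_, ⟨n, hn, rfl⟩, v, hv, rfl⟩ := Submodule.mem_sup.1 hu
    rw [map_add]
    refine Submodule.add_mem _ (Submodule.mem_sup_left ⟨x n, hN.stab x hx n hn, ?_⟩)
      (Submodule.mem_sup_right (ih (fun k hk => hl k (List.mem_cons_of_mem _ hk)) x hx v hv))
    exact (LinearMap.congr_fun (hc x hx k (hl k List.mem_cons_self)) n).symm

theorem QHyp.exists_list (H : QHyp L K ω) {N : Submodule ℂ U} (hN : IrrSub L N) :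
    ∃ l : List (Module.End ℂ U), (∀ k ∈ l, k ∈ K) ∧ PS N l = ⊤ ∧
      finrank ℂ U = l.length * finrank ℂ N := by
  have key : ∀ (n : ℕ) (l : List (Module.End ℂ U)), (∀ k ∈ l, k ∈ K) →
      finrank ℂ (PS N l) = l.length * finrank ℂ N → finrank ℂ U ≤ finrank ℂ (PS N l) + n →
      ∃ l : List (Module.End ℂ U), (∀ k ∈ l, k ∈ K) ∧ PS N l = ⊤ ∧
      finrank ℂ U = l.length * finrank ℂ N := by
    intro n
    induction n with
    | zero =>
      intro l hl h1 h2
      have h3 : PS N l = ⊤ := Submodule.eq_top_of_finrank_eq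
        (le_antisymm (Submodule.finrank_le _) h2)
      refine ⟨l, hl, h3, ?_⟩
      rw [← h1, h3, finrank_top]
    | succ n ih =>
      intro l hl h1 h2
      by_cases h3 : PS N l = ⊤
      · refine ⟨l, hl, h3, ?_⟩
        rw [← h1, h3, finrank_top]
      · obtain ⟨k, hk, n0, hn0, hkn⟩ : ∃ k ∈ K, ∃ n ∈ N, k n ∉ PS N l := by
          by_contra hcon
          push Not at hcon
          apply h3
          rw [eq_top_iff, ← H.spanK hN, Submodule.span_le]
          rintro _ ⟨k, hk, n, hn, rfl⟩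
          exact hcon k hk n hn
        let Q : Submodule ℂ U := N ⊓ (PS N l).comap k
        have hQ : Q = ⊥ := by
          by_contra hne
          have h4 := hN.irr Q inf_le_left (fun x hx u hu => ⟨hN.stab x hx u hu.1, by
            have h5 := PS_stab hN H.comm l hl x hx _ hu.2
            have h6 : x (k u) = k (x u) := LinearMap.congr_fun (H.comm x hx k hk) u
            rw [h6] at h5
            exact h5⟩) hne
          have h5 : n0 ∈ Q := by rw [h4]; exact hn0
          exact hkn h5.2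
        have hdisj : N.map k ⊓ PS N l = ⊥ := by
          rw [eq_bot_iff]
          rintro _ ⟨⟨u, hu, rfl⟩, hu2⟩
          have h5 : u ∈ Q := ⟨hu, hu2⟩
          rw [hQ, Submodule.mem_bot] at h5
          rw [h5, map_zero]
          exact Submodule.zero_mem _
        have hinj : finrank ℂ (N.map k) = finrank ℂ N := by
          have h5 : LinearMap.ker (k.domRestrict N) = ⊥ := by
            rw [LinearMap.ker_eq_bot']
            intro u hu
            have h6 : u.1 ∈ Q := ⟨u.2, by
              have h7 : k u.1 = 0 := hu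
              rw [SetLike.mem_coe, Submodule.mem_comap, h7]
              exact Submodule.zero_mem _⟩
            rw [hQ, Submodule.mem_bot] at h6
            exact Subtype.ext h6
          have h6 := LinearMap.finrank_range_of_inj (LinearMap.ker_eq_bot.1 h5)
          rw [← h6, LinearMap.range_domRestrict]
        have hsum := Submodule.finrank_sup_add_finrank_inf_eq (N.map k) (PS N l)
        rw [hdisj, finrank_bot, add_zero, hinj] at hsum
        have hPS : PS N (k :: l) = N.map k ⊔ PS N l := rfl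
        have hNpos : 0 < finrank ℂ N := by
          have : Nontrivial N := Submodule.nontrivial_iff_ne_bot.2 hN.ne
          exact finrank_pos
        refine ih (k :: l) (fun k' hk' => ?_) ?_ ?_
        · rcases List.mem_cons.1 hk' with rfl | h
          · exact hk
          · exact hl k' h
        · rw [hPS, hsum, h1, List.length_cons]
          ring
        · rw [hPS, hsum]
          omega
  refine key (finrank ℂ U) [] (fun k hk => absurd hk List.not_mem_nil) ?_ ?_
  · change finrank ℂ (⊥ : Submodule ℂ U) = 0 * _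
    rw [finrank_bot, zero_mul]
  · omega

end Pool.Agent.R912
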