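import Pool.Agent.R912.Q.Iso
import Pool.Agent.R912.U12

set_option autoImplicit false
set_option linter.unusedSectionVars false

/-!
# The root decomposition, and the abstract theorem
-/

open Module Matrix

namespace Pool.Agent.R912

open Pool.Agent.Y102.SP Q

attribute [local instance 100] LieRing.ofAssociativeRing

variable {U : Type} [AddCommGroup U] [Module ℂ U] [FiniteDimensional ℂ U] [Nontrivial U]
  {L K : Submodule ℂ (Module.End ℂ U)} {ω : U →ₗ[ℂ] U →ₗ[ℂ] ℂ}

open LieAlgebra LieModule in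
/-- The Lie algebra is semisimple. -/
theorem QHyp.isKilling (H : QHyp L K ω) (𝔩 : LieSubalgebra ℂ (Module.End ℂ U))
    (hL : ∀ y, y ∈ 𝔩 ↔ y ∈ L) : LieAlgebra.IsKilling ℂ 𝔩 := by
  obtain ⟨N, hN⟩ := exists_irrSub L
  obtain ⟨k, hk, ε, hε, F⟩ := H.exists_frm hN
  have key : ∀ y ∈ radical ℂ 𝔩, ∀ w ∈ N, y.1 w = 0 := by
    intro y hy
    let M : LieSubmodule ℂ 𝔩 U := { N with
      lie_mem := fun {y u} hu => hN.stab y.1 ((hL _).1 y.2) u hu }
    have : Nontrivial M := by
      obtain ⟨u, hu, hu0⟩ := (Submodule.ne_bot_iff _).1 hN.ne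
      exact nontrivial_of_ne (⟨u, hu⟩ : M) 0 (fun h => hu0 (congrArg Subtype.val h))
    obtain ⟨χ, hχ⟩ := exists_nontrivial_weightSpace_of_isSolvable ℂ (radical ℂ 𝔩) M
    let P' : LieSubmodule ℂ 𝔩 M := weightSpaceOfIsLieTower ℂ M χ
    have hP' : ∀ v : M, v ∈ P' ↔ ∀ y : radical ℂ 𝔩, ⁅y, v⁆ = χ y • v := fun v =>
      mem_weightSpace _ v
    let P : Submodule ℂ U := P'.toSubmodule.map (M.incl : M →ₗ[ℂ] U)
    have hPN : P ≤ N := by
      rintro _ ⟨v, _, rfl⟩
      exact v.2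
    have hPL : ∀ z ∈ L, ∀ u ∈ P, z u ∈ P := by
      rintro z hz _ ⟨v, hv, rfl⟩
      exact ⟨⁅(⟨z, (hL z).2 hz⟩ : 𝔩), v⁆, P'.lie_mem hv, rfl⟩
    have hP0 : P ≠ ⊥ := by
      obtain ⟨v, hv⟩ := exists_ne (0 : weightSpace M χ)
      intro hb
      have h1 : v.1.1 ∈ P := ⟨v.1, v.2, rfl⟩
      rw [hb, Submodule.mem_bot] at h1
      exact hv (Subtype.ext (Subtype.ext h1))
    have hPeq := hN.irr P hPN hPL hP0
    have hact : ∀ w ∈ N, y.1 w = χ ⟨y, hy⟩ • w := by
      intro w hw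
      rw [← hPeq] at hw
      obtain ⟨v, hv, rfl⟩ := hw
      exact congrArg Subtype.val ((hP' v).1 hv ⟨y, hy⟩)
    have hyL : y.1 ∈ L := (hL _).1 y.2
    by_contra hcon
    push Not at hcon
    obtain ⟨w, hw, hw0⟩ := hcon
    have hχ0 : χ ⟨y, hy⟩ ≠ 0 := by
      intro h0
      rw [hact w hw, h0, zero_smul] at hw0
      exact hw0 rfl
    have hw1 : w ≠ 0 := by
      rintro rfl
      exact hw0 (map_zero _)
    apply hw1
    refine F.nd w hw fun v hv => ?_
    have h1 := F.skew y.1 hyL v hv w hw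
    rw [hact v hv, hact w hw, map_smul, map_smul, LinearMap.smul_apply, smul_eq_mul] at h1
    have h2 : χ ⟨y, hy⟩ * (ω.compl₂ k) v w = 0 := by linear_combination (1 / 2) * h1
    exact (mul_eq_zero.1 h2).resolve_left hχ0
  have : HasTrivialRadical ℂ 𝔩 := by
    constructor
    rw [eq_bot_iff]
    intro y hy
    have hyL : y.1 ∈ L := (hL _).1 y.2
    have h1 : y.1 = 0 := by
      refine LinearMap.ext fun u => ?_
      have hu : u ∈ Submodule.span ℂ {w | ∃ k ∈ K, ∃ u ∈ N, w = k u} := by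
        rw [H.spanK hN]; trivial
      rw [LinearMap.zero_apply]
      induction hu using Submodule.span_induction with
      | mem u hu =>
        obtain ⟨k, hk, n, hn, rfl⟩ := hu
        have h2 : y.1 (k n) = k (y.1 n) := LinearMap.congr_fun (H.comm _ hyL k hk) n
        rw [h2, key y hy n hn, map_zero]
      | zero => exact map_zero _
      | add u v _ _ hu hv => rw [map_add, hu, hv, add_zero]
      | smul c u _ hu => rw [map_smul, hu, smul_zero]
    rw [LieSubmodule.mem_bot]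
    exact Subtype.ext h1
  infer_instance

/-- The root decomposition of a semisimple Lie algebra. -/
theorem exists_rs_of_killing (hbr : ∀ x ∈ L, ∀ y ∈ L, x * y - y * x ∈ L)
    (hK : ∀ 𝔩 : LieSubalgebra ℂ (Module.End ℂ U), (∀ y, y ∈ 𝔩 ↔ y ∈ L) →
      LieAlgebra.IsKilling ℂ 𝔩) :
    ∃ (T : Type) (_ : AddCommGroup T) (_ : Module ℂ T), Nonempty (RS L T) := by
  let 𝔩 : LieSubalgebra ℂ (Module.End ℂ U) :=
    { L with lie_mem' := fun {x y} hx hy => hbr x hx y hy }
  have hL : ∀ y, y ∈ 𝔩 ↔ y ∈ L := fun y => Iff.rfl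
  have : LieAlgebra.IsKilling ℂ 𝔩 := hK 𝔩 hL
  obtain ⟨T, i1, i2, A, hA⟩ := exists_absRoot' 𝔩
  let ι : T →ₗ[ℂ] Module.End ℂ U := 𝔩.toSubmodule.subtype ∘ₗ A.ι
  let e : Module.Dual ℂ T → Module.End ℂ U := fun α => (A.e α).1
  have hlie : ∀ x y : 𝔩, (⁅x, y⁆ : 𝔩).1 = x.1 * y.1 - y.1 * x.1 := fun x y => rfl
  have hspan : L ≤ LinearMap.range ι ⊔ Submodule.span ℂ (e '' A.R.Φ) := by
    intro x hx
    have h1 : (⟨x, hx⟩ : 𝔩) ∈ LinearMap.range A.ι ⊔ Submodule.span ℂ (A.e '' A.R.Φ) :=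
      A.span trivial
    have h2 : x ∈ (LinearMap.range A.ι ⊔ Submodule.span ℂ (A.e '' A.R.Φ)).map
        𝔩.toSubmodule.subtype := ⟨_, h1, rfl⟩
    rw [Submodule.map_sup, Submodule.map_span, ← Set.image_comp, ← LinearMap.range_comp] at h2
    exact h2
  refine ⟨T, i1, i2, ⟨?_⟩⟩
  exact
    { R := A.R
      cor := hA
      ι := ι
      h := A.h
      e := e
      ιmem := fun t => (A.ι t).2
      emem := fun α _ => (A.e α).2
      ene := fun α hα h0 => A.ene α hα (Subtype.ext h0)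
      span := hspan
      comm := fun s t => by
        have h1 := congrArg Subtype.val (A.comm s t)
        rw [hlie] at h1
        exact sub_eq_zero.1 h1
      wt := fun α hα t => by
        have h1 := congrArg Subtype.val (A.wt α hα t)
        rw [hlie] at h1
        exact h1
      br := fun α hα => by
        have h1 := congrArg Subtype.val (A.br α hα)
        rw [hlie] at h1
        exact h1
      hneg := A.hneg
      prh := A.prh
      rat := A.rat
      add0 := fun α hα β hβ h0 h1 => by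
        have h2 := congrArg Subtype.val (A.add0 α hα β hβ h0 h1)
        rw [hlie] at h2
        exact sub_eq_zero.1 h2
      add1 := fun α hα β hβ h0 => by
        obtain ⟨c, hc⟩ := A.add1 α hα β hβ h0
        have h2 := congrArg Subtype.val hc
        rw [hlie] at h2
        exact ⟨c, h2⟩ }

/-- composition of a form with endomorphisms -/
def cp (ψ : Q4 U) (k1 k2 k3 k4 : Module.End ℂ U) : Q4 U :=
  { toFun := fun a =>
      { toFun := fun b =>
          { toFun := fun c => (ψ (k1 a) (k2 b) (k3 c)).comp k4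
            map_add' := fun x y => by ext; simp
            map_smul' := fun r x => by ext; simp }
        map_add' := fun x y => by ext; simp
        map_smul' := fun r x => by ext; simp }
    map_add' := fun x y => by ext; simp
    map_smul' := fun r x => by ext; simp }

theorem cp_apply (ψ : Q4 U) (k1 k2 k3 k4 : Module.End ℂ U) (a b c d : U) :
    cp ψ k1 k2 k3 k4 a b c d = ψ (k1 a) (k2 b) (k3 c) (k4 d) := rfl

theorem kill_cp {N : Submodule ℂ U} {ψ : Q4 U} {x k1 k2 k3 k4 : Module.End ℂ U}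
    (hψ : Kill4 ⊤ ψ x) (h1 : x * k1 = k1 * x) (h2 : x * k2 = k2 * x) (h3 : x * k3 = k3 * x)
    (h4 : x * k4 = k4 * x) : Kill4 N (cp ψ k1 k2 k3 k4) x := by
  intro a _ b _ c _ d _
  simp only [cp_apply]
  have e1 : k1 (x a) = x (k1 a) := (LinearMap.congr_fun h1 a).symm
  have e2 : k2 (x b) = x (k2 b) := (LinearMap.congr_fun h2 b).symm
  have e3 : k3 (x c) = x (k3 c) := (LinearMap.congr_fun h3 c).symm
  have e4 : k4 (x d) = x (k4 d) := (LinearMap.congr_fun h4 d).symm
  rw [e1, e2, e3, e4]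
  exact hψ _ trivial _ trivial _ trivial _ trivial

theorem PS_induction {N : Submodule ℂ U} {p : U → Prop} (l : List (Module.End ℂ U))
    (h0 : p 0) (hadd : ∀ u v, p u → p v → p (u + v)) (hmem : ∀ k ∈ l, ∀ n ∈ N, p (k n)) :
    ∀ u ∈ PS N l, p u := by
  induction l with
  | nil =>
    intro u hu
    have h1 : u = 0 := hu
    rw [h1]
    exact h0
  | cons k l ih =>
    intro u hu
    obtain ⟨_, ⟨n, hn, rfl⟩, v, hv, rfl⟩ := Submodule.mem_sup.1 hu
    exact hadd _ _ (hmem k List.mem_cons_self n hn)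
      (ih (fun k' hk' => hmem k' (List.mem_cons_of_mem _ hk')) v hv)

/-- It is enough to consider the forms on `N`. -/
theorem kill_of_cp {N : Submodule ℂ U} {ψ : Q4 U} {X : Module.End ℂ U}
    {l : List (Module.End ℂ U)} (hl : PS N l = ⊤) (hc : ∀ k ∈ l, X * k = k * X)
    (h : ∀ k1 ∈ l, ∀ k2 ∈ l, ∀ k3 ∈ l, ∀ k4 ∈ l, Kill4 N (cp ψ k1 k2 k3 k4) X) :
    Kill4 ⊤ ψ X := by
  have hall : ∀ u : U, u ∈ PS N l := fun u => by rw [hl]; trivial
  intro a _ b _ c _ d _
  refine PS_induction (p := fun a => ψ (X a) b c d + ψ a (X b) c d + ψ a b (X c) d +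
    ψ a b c (X d) = 0) l ?_ ?_ ?_ a (hall a)
  · simp
  · intro u v hu hv
    simp only [map_add, LinearMap.add_apply]
    linear_combination hu + hv
  intro k1 hk1 a ha
  refine PS_induction (p := fun b => ψ (X (k1 a)) b c d + ψ (k1 a) (X b) c d +
    ψ (k1 a) b (X c) d + ψ (k1 a) b c (X d) = 0) l ?_ ?_ ?_ b (hall b)
  · simp
  · intro u v hu hv
    simp only [map_add, LinearMap.add_apply]
    linear_combination hu + hv
  intro k2 hk2 b hb
  refine PS_induction (p := fun c => ψ (X (k1 a)) (k2 b) c d + ψ (k1 a) (X (k2 b)) c d +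
    ψ (k1 a) (k2 b) (X c) d + ψ (k1 a) (k2 b) c (X d) = 0) l ?_ ?_ ?_ c (hall c)
  · simp
  · intro u v hu hv
    simp only [map_add, LinearMap.add_apply]
    linear_combination hu + hv
  intro k3 hk3 c hc'
  refine PS_induction (p := fun d => ψ (X (k1 a)) (k2 b) (k3 c) d + ψ (k1 a) (X (k2 b)) (k3 c) d +
    ψ (k1 a) (k2 b) (X (k3 c)) d + ψ (k1 a) (k2 b) (k3 c) (X d) = 0) l ?_ ?_ ?_ d (hall d)
  · simp
  · intro u v hu hv
    simp only [map_add, LinearMap.add_apply]
    linear_combination hu + hv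
  intro k4 hk4 d hd
  have h1 := h k1 hk1 k2 hk2 k3 hk3 k4 hk4 a ha b hb c hc' d hd
  simp only [cp_apply] at h1
  have e1 : X (k1 a) = k1 (X a) := LinearMap.congr_fun (hc k1 hk1) a
  have e2 : X (k2 b) = k2 (X b) := LinearMap.congr_fun (hc k2 hk2) b
  have e3 : X (k3 c) = k3 (X c) := LinearMap.congr_fun (hc k3 hk3) c
  have e4 : X (k4 d) = k4 (X d) := LinearMap.congr_fun (hc k4 hk4) d
  rw [e1, e2, e3, e4]
  exact h1

/-- **The abstract theorem.** -/
theorem QHyp.main (H : QHyp L K ω) (hU : finrank ℂ U = 8) {ψ : Q4 U} (hA : Alt4 ψ)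
    (hψ : ∀ x ∈ L, Kill4 ⊤ ψ x) {X : Module.End ℂ U}
    (hX1 : ∀ P : Submodule ℂ U, (∀ x ∈ L, ∀ u ∈ P, x u ∈ P) → ∀ u ∈ P, X u ∈ P)
    (hX2 : ∀ k ∈ K, X * k = k * X) (hX3 : ∀ u v, ω (X u) v + ω u (X v) = 0) :
    Kill4 ⊤ ψ X := by
  obtain ⟨T, i1, i2, ⟨S⟩⟩ := exists_rs_of_killing H.br fun 𝔩 h𝔩 => H.isKilling 𝔩 h𝔩
  obtain ⟨N, hN⟩ := exists_irrSub L
  obtain ⟨l, hl, hPS, hfr⟩ := H.exists_list hN
  have hXN := hX1 N hN.stab
  by_cases hN8 : finrank ℂ N = 8
  · -- the irreducible case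
    have hNtop : N = ⊤ := Submodule.eq_top_of_finrank_eq (by rw [hN8, hU])
    subst hNtop
    have F : Frm L ⊤ ω (-1) :=
      { skew := fun x hx u _ v _ => H.skew x hx u v
        nd := fun u _ hu => H.nd u fun v => hu v trivial
        sym := fun u _ v _ => by rw [H.alt]; ring }
    exact kill_core S hN F (Or.inr rfl) hψ hXN (fun u _ v _ => hX3 u v)
      (Or.inl ⟨hN8, rfl, hA⟩)
  · obtain ⟨k, hk, ε, hε, F⟩ := H.exists_frm hN
    have hs : ∀ u ∈ N, ∀ v ∈ N, (ω.compl₂ k) (X u) v + (ω.compl₂ k) u (X v) = 0 := by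
      intro u _ v _
      rw [LinearMap.compl₂_apply, LinearMap.compl₂_apply]
      have h1 : k (X v) = X (k v) := (LinearMap.congr_fun (hX2 k hk) v).symm
      rw [h1]
      exact hX3 u (k v)
    refine kill_of_cp hPS (fun k hk => hX2 k (hl k hk)) fun k1 hk1 k2 hk2 k3 hk3 k4 hk4 => ?_
    refine kill_core S hN F hε (fun x hx => kill_cp (hψ x hx) (H.comm x hx _ (hl _ hk1))
      (H.comm x hx _ (hl _ hk2)) (H.comm x hx _ (hl _ hk3)) (H.comm x hx _ (hl _ hk4)))
      hXN hs ?_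
    rw [hU] at hfr
    have hdvd : finrank ℂ N ∣ 8 := ⟨l.length, by rw [hfr]; ring⟩
    have hle := Nat.le_of_dvd (by norm_num) hdvd
    have hcases : finrank ℂ N = 1 ∨ finrank ℂ N = 2 ∨ finrank ℂ N = 4 := by
      interval_cases h : finrank ℂ N <;> omega
    rcases hcases with h1 | h1 | h1
    · exact Or.inr (Or.inr (Or.inr h1))
    · exact Or.inr (Or.inr (Or.inl h1))
    · refine Or.inr (Or.inl ⟨h1, ?_⟩)
      have hl2 : l.length = 2 := by
        rw [h1] at hfr
        omega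
      obtain ⟨p, q, rfl⟩ := List.length_eq_two.1 hl2
      have z : ∀ x : ℂ, x = -x → x = 0 := fun x hx => by linear_combination (1 / 2) * hx
      have z1 : ∀ a c d, ψ a a c d = 0 := fun a c d => z _ (hA.s1 a a c d)
      have z2 : ∀ a b d, ψ a b b d = 0 := fun a b d => z _ (hA.s2 a b b d)
      have z3 : ∀ a b c, ψ a b c c = 0 := fun a b c => z _ (hA.s3 a b c c)
      have z4 : ∀ a b d, ψ a b a d = 0 := fun a b d => by
        rw [← neg_eq_zero, ← hA.s1, z2]
      have z5 : ∀ a b c, ψ a b c b = 0 := fun a b c => by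
        rw [← neg_eq_zero, ← hA.s2, z3]
      have z6 : ∀ a b c, ψ a b c a = 0 := fun a b c => by
        rw [← neg_eq_zero, ← hA.s1, z5]
      simp only [List.mem_cons, List.not_mem_nil, or_false] at hk1 hk2 hk3 hk4
      constructor <;> intro u _ v _ <;> rw [cp_apply] <;>
        rcases hk1 with rfl | rfl <;> rcases hk2 with rfl | rfl <;>
        rcases hk3 with rfl | rfl <;> rcases hk4 with rfl | rfl <;>
        first
        | exact z1 _ _ _
        | exact z2 _ _ _
        | exact z3 _ _ _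
        | exact z4 _ _ _
        | exact z5 _ _ _
        | exact z6 _ _ _

end Pool.Agent.R912
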