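import Pool.Agent.R912.Q.GB2

set_option autoImplicit false
set_option linter.unusedSectionVars false
set_option linter.unusedSimpArgs false
set_option linter.unusedVariables false

/-!
# The support of an invariant form in block bases
-/

open Module Matrix

namespace Pool.Agent.R912

open Pool.Agent.Y102.SP Q

attribute [local instance 100] LieRing.ofAssociativeRing

variable {U : Type} [AddCommGroup U] [Module ℂ U] [FiniteDimensional ℂ U]
  {T : Type} [AddCommGroup T] [Module ℂ T] {L : Submodule ℂ (Module.End ℂ U)}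

/-- a generic functional -/
structure Gen {k : ℕ} (S : RS L T) (φ : Module.Dual ℂ T →ₗ[ℚ] ℚ)
    (w : Fin k × Bool → Module.Dual ℂ T) : Prop where
  zero : ∀ p, φ (w p) ≠ 0
  inj : ∀ p q, φ (w p) = φ (w q) → w p = w q
  root : ∀ α ∈ S.R.Φ, φ α ≠ 0

theorem exists_gen {k : ℕ} {S : RS L T} {w : Fin k × Bool → Module.Dual ℂ T}
    (hw : ∀ p, w p ≠ 0) : ∃ φ, Gen S φ w := by
  classical
  have hF : (S.R.Φ ∪ (Set.range (fun p : (Fin k × Bool) × (Fin k × Bool) => w p.1 - w p.2) ∪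
      Set.range w)).Finite :=
    S.R.fin.union ((Set.finite_range _).union (Set.finite_range _))
  obtain ⟨φ, -, hφ⟩ := avoid hF (⊥ : Submodule ℚ (Module.Dual ℂ T))
  refine ⟨φ, ?_, ?_, ?_⟩
  · intro p hp
    exact hφ (w p) (Or.inr (Or.inr ⟨p, rfl⟩)) (fun h => hw p ((Submodule.mem_bot _).1 h)) hp
  · intro p q hpq
    by_contra hne
    refine hφ (w p - w q) (Or.inr (Or.inl ⟨(p, q), rfl⟩)) (fun h => ?_) ?_
    · rw [Submodule.mem_bot, sub_eq_zero] at h
      exact hne h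
    · rw [map_sub, hpq, sub_self]
  · intro α hα
    refine hφ α (Or.inl hα) fun h => ?_
    rw [Submodule.mem_bot] at h
    exact S.R.zero (h ▸ hα)

theorem Gen.relabel {k : ℕ} {S : RS L T} {φ : Module.Dual ℂ T →ₗ[ℚ] ℚ}
    {w : Fin k × Bool → Module.Dual ℂ T} (g : Gen S φ w) (a : Fin k → Fin k × Bool) :
    Gen S φ (rw' a w) := by
  have h1 : ∀ p, ∃ q, rw' a w p = w q := by
    rintro ⟨i, _ | _⟩
    · exact ⟨bar (a i), rfl⟩
    · exact ⟨a i, rfl⟩
  refine ⟨?_, ?_, g.root⟩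
  · intro p
    obtain ⟨q, hq⟩ := h1 p
    rw [hq]
    exact g.zero q
  · intro p p' hpp
    obtain ⟨q, hq⟩ := h1 p
    obtain ⟨q', hq'⟩ := h1 p'
    rw [hq, hq'] at hpp ⊢
    exact g.inj _ _ hpp

/-- distinct indices -/
def Dist (a b c d : Fin 4 × Bool) : Prop := a ≠ b ∧ a ≠ c ∧ a ≠ d ∧ b ≠ c ∧ b ≠ d ∧ c ≠ d

instance (a b c d : Fin 4 × Bool) : Decidable (Dist a b c d) := by
  unfold Dist; infer_instance

theorem _root_.Pool.Agent.R912.Q.AltT.dist {F : Ten (Fin 4 × Bool)} (h : AltT F)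
    {a b c d : Fin 4 × Bool} (hne : F a b c d ≠ 0) : Dist a b c d := by
  refine ⟨?_, ?_, ?_, ?_, ?_, ?_⟩
  · rintro rfl; exact hne (h.z1 _ _ _)
  · rintro rfl; exact hne (h.z4 _ _ _)
  · rintro rfl; exact hne (h.z6 _ _ _)
  · rintro rfl; exact hne (h.z2 _ _ _)
  · rintro rfl; exact hne (h.z5 _ _ _)
  · rintro rfl; exact hne (h.z3 _ _ _)

/-- the possible multiplicities -/
theorem NN_cases : ∀ a b c d : Fin 4 × Bool, Dist a b c d →
    (NN 0 a b c d = -1 ∨ NN 0 a b c d = 0 ∨ NN 0 a b c d = 1) ∧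
    (NN 1 a b c d = -1 ∨ NN 1 a b c d = 0 ∨ NN 1 a b c d = 1) ∧
    (NN 2 a b c d = -1 ∨ NN 2 a b c d = 0 ∨ NN 2 a b c d = 1) ∧
    (NN 3 a b c d = -1 ∨ NN 3 a b c d = 0 ∨ NN 3 a b c d = 1) ∧
    (NN 0 a b c d + NN 1 a b c d + NN 2 a b c d + NN 3 a b c d) % 2 = 0 := by
  decide +kernel

namespace GB

variable {S : RS L T} {N : Submodule ℂ U} {B : U →ₗ[ℂ] U →ₗ[ℂ] ℂ}
  {blk : Fin 4 → ℕ} {e : Fin 4 × Bool → U} {w : Fin 4 × Bool → Module.Dual ℂ T}
  (h : GB S N B 4 blk e w) {φ : Module.Dual ℂ T →ₗ[ℚ] ℚ} (g : Gen S φ w)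
  {ψ : Q4 U} (hψ : ∀ x ∈ L, Kill4 N ψ x)
include h

theorem φ_cnt (p : Fin 4 × Bool) :
    φ (w p) = cnt 0 p * φ (w (0, true)) + cnt 1 p * φ (w (1, true)) +
      cnt 2 p * φ (w (2, true)) + cnt 3 p * φ (w (3, true)) := by
  have hf : ∀ i, w (i, false) = -w (i, true) := fun i => h.wbar (i, true)
  obtain ⟨i, _ | _⟩ := p
  · rw [hf, map_neg]
    fin_cases i <;> simp [cnt]
  · fin_cases i <;> simp [cnt]

include hψ in
theorem rel {a b c d : Fin 4 × Bool} (hne : Fψ ψ e a b c d ≠ 0) :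
    NN 0 a b c d * φ (w (0, true)) + NN 1 a b c d * φ (w (1, true)) +
      NN 2 a b c d * φ (w (2, true)) + NN 3 a b c d * φ (w (3, true)) = 0 := by
  have h1 := congrArg φ (h.wt_zero' hψ hne)
  rw [map_add, map_add, map_add, map_zero, h.φ_cnt a, h.φ_cnt b, h.φ_cnt c, h.φ_cnt d] at h1
  unfold NN
  push_cast
  linear_combination h1

include g

theorem ne1 {i j : Fin 4} (hij : i ≠ j) (hb : blk i = blk j) :
    φ (w (i, true)) - φ (w (j, true)) ≠ 0 := by
  intro h1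
  have h2 := h.inj (i, true) (j, true) hb (g.inj _ _ (sub_eq_zero.1 h1))
  exact hij (congrArg Prod.fst h2)

theorem ne2 {i j : Fin 4} (hij : i ≠ j) (hb : blk i = blk j) :
    φ (w (i, true)) + φ (w (j, true)) ≠ 0 := by
  intro h1
  have hf : w (j, false) = -w (j, true) := h.wbar (j, true)
  have h3 : φ (w (i, true)) = φ (w (j, false)) := by
    rw [hf, map_neg]
    linarith
  have h2 := h.inj (i, true) (j, false) hb (g.inj _ _ h3)
  exact hij (congrArg Prod.fst h2)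

end GB

end Pool.Agent.R912
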