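import Pool.Agent.R912.Q.Ctr

set_option autoImplicit false
set_option linter.unusedSectionVars false
set_option linter.unusedSimpArgs false
set_option linter.unusedVariables false

/-!
# The support of an invariant form: an irreducible subspace of dimension four
-/

open Module Matrix

namespace Pool.Agent.R912

open Pool.Agent.Y102.SP Q

attribute [local instance 100] LieRing.ofAssociativeRing

variable {U : Type} [AddCommGroup U] [Module ℂ U] [FiniteDimensional ℂ U]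
  {T : Type} [AddCommGroup T] [Module ℂ T] {L : Submodule ℂ (Module.End ℂ U)}

/-- the blocks -/
def b22 : Fin 4 → ℕ := ![0, 0, 1, 1]
/-- the blocks -/
def b211 : Fin 4 → ℕ := ![0, 0, 1, 2]

/-- the form vanishes on vectors with four different labels -/
theorem perm4 {F : Ten (Fin 4 × Bool)} (A : AltT F)
    (H : ∀ s0 s1 s2 s3 : Bool, F (0, s0) (1, s1) (2, s2) (3, s3) = 0) {a b c d : Fin 4 × Bool}
    (h1 : a.1 ≠ b.1) (h2 : a.1 ≠ c.1) (h3 : a.1 ≠ d.1) (h4 : b.1 ≠ c.1) (h5 : b.1 ≠ d.1)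
    (h6 : c.1 ≠ d.1) : F a b c d = 0 := by
  have L1 : ∀ (a b : Fin 4 × Bool) (s2 s3 : Bool), a.1 ≠ b.1 → (a.1 = 0 ∨ a.1 = 1) →
      (b.1 = 0 ∨ b.1 = 1) → F a b (2, s2) (3, s3) = 0 := by
    rintro ⟨i, s⟩ ⟨j, t⟩ s2 s3 hij hi hj
    rcases hi with hi | hi <;> rcases hj with hj | hj
    · exact absurd (hi.trans hj.symm) hij
    · have hi' : i = 0 := hi
      have hj' : j = 1 := hj
      subst hi'; subst hj'
      exact H _ _ _ _
    · have hi' : i = 1 := hi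
      have hj' : j = 0 := hj
      subst hi'; subst hj'
      rw [A.s1, H, neg_zero]
    · exact absurd (hi.trans hj.symm) hij
  have L2 : ∀ (a b c : Fin 4 × Bool) (s3 : Bool), a.1 ≠ b.1 → a.1 ≠ c.1 → b.1 ≠ c.1 →
      a.1 ≠ 3 → b.1 ≠ 3 → c.1 ≠ 3 → F a b c (3, s3) = 0 := by
    intro a b c s3 hab hac hbc ha hb hc
    have key : ∀ i j k : Fin 4, i ≠ j → i ≠ k → j ≠ k → i ≠ 3 → j ≠ 3 → k ≠ 3 →
        (k = 2 ∧ (i = 0 ∨ i = 1) ∧ (j = 0 ∨ j = 1)) ∨ (j = 2 ∧ (i = 0 ∨ i = 1) ∧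
        (k = 0 ∨ k = 1)) ∨ (i = 2 ∧ (j = 0 ∨ j = 1) ∧ (k = 0 ∨ k = 1)) := by decide
    rcases key a.1 b.1 c.1 hab hac hbc ha hb hc with ⟨k1, k2, k3⟩ | ⟨k1, k2, k3⟩ | ⟨k1, k2, k3⟩
    · obtain ⟨i, s⟩ := c
      have hi : i = 2 := k1
      subst hi
      exact L1 _ _ _ _ hab k2 k3
    · obtain ⟨i, s⟩ := b
      have hi : i = 2 := k1
      subst hi
      rw [A.s2, L1 _ _ _ _ hac k2 k3, neg_zero]
    · obtain ⟨i, s⟩ := a
      have hi : i = 2 := k1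
      subst hi
      rw [A.s1, A.s2, L1 _ _ _ _ hbc k2 k3, neg_zero, neg_zero]
  have key : ∀ i j k l : Fin 4, i ≠ j → i ≠ k → i ≠ l → j ≠ k → j ≠ l → k ≠ l →
      l = 3 ∨ k = 3 ∨ j = 3 ∨ i = 3 := by decide
  rcases key _ _ _ _ h1 h2 h3 h4 h5 h6 with k | k | k | k
  · obtain ⟨i, s⟩ := d
    have hi : i = 3 := k
    subst hi
    exact L2 _ _ _ _ h1 h2 h4 h3 h5 h6
  · obtain ⟨i, s⟩ := c
    have hi : i = 3 := k
    subst hi
    rw [A.s3, L2 _ _ _ _ h1 h3 h5 h2 h4 (Ne.symm h6), neg_zero]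
  · obtain ⟨i, s⟩ := b
    have hi : i = 3 := k
    subst hi
    rw [A.s2, A.s3, L2 _ _ _ _ h2 h3 h6 h1 (Ne.symm h4) (Ne.symm h5), neg_zero, neg_zero]
  · obtain ⟨i, s⟩ := a
    have hi : i = 3 := k
    subst hi
    rw [A.s1, A.s2, A.s3, L2 _ _ _ _ h4 h5 h6 (Ne.symm h1) (Ne.symm h2) (Ne.symm h3), neg_zero,
      neg_zero, neg_zero]

/-- All hypotheses. -/
structure GH (S : RS L T) (B : U →ₗ[ℂ] U →ₗ[ℂ] ℂ) (blk : Fin 4 → ℕ) (e : Fin 4 × Bool → U)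
    (w : Fin 4 × Bool → Module.Dual ℂ T) (φ : Module.Dual ℂ T →ₗ[ℚ] ℚ) (ψ : Q4 U) : Prop where
  gb : GB S ⊤ B 4 blk e w
  gen : Gen S φ w
  frm : Frm L ⊤ B (-1)
  kill : ∀ x ∈ L, Kill4 ⊤ ψ x
  alt : Alt4 ψ
  b1 : blk 1 = blk 0
  b2 : blk 2 ≠ blk 0
  b3 : blk 3 ≠ blk 0
  hz : ∀ β : U →ₗ[ℂ] U →ₗ[ℂ] ℂ, (∀ x ∈ L, ∀ u v, β (x u) v + β u (x v) = 0) →
    ∀ p q : Fin 4 × Bool, blk p.1 = blk 0 → blk q.1 ≠ blk 0 → β (e p) (e q) = 0

namespace GH

variable {S : RS L T} {B : U →ₗ[ℂ] U →ₗ[ℂ] ℂ} {blk : Fin 4 → ℕ} {e : Fin 4 × Bool → U}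
  {w : Fin 4 × Bool → Module.Dual ℂ T} {φ : Module.Dual ℂ T →ₗ[ℚ] ℚ} {ψ : Q4 U}
  (H : GH S B blk e w φ ψ)
include H

theorem blk01 (i : Fin 4) : blk i = blk 0 ↔ (i = 0 ∨ i = 1) := by
  have h1 := H.b1
  have h2 := H.b2
  have h3 := H.b3
  fin_cases i
  · simp
  · simpa using h1
  · simpa using h2
  · simpa using h3

theorem blk23 (i : Fin 4) : blk i ≠ blk 0 ↔ (i = 2 ∨ i = 3) := by
  rw [Ne, H.blk01]
  fin_cases i <;> simp

/-- change of signs -/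
theorem flip (s : Fin 4 → Bool) : GH S B blk (re (fun i => (i, s i)) e)
    (rw' (fun i => (i, s i)) w) φ ψ := by
  have h0 := H.gb.relabel (fun i => (i, s i)) (fun i j hij => hij)
  refine ⟨h0, H.gen.relabel _, H.frm, H.kill, H.alt, H.b1, H.b2, H.b3, ?_⟩
  intro β hβ p q hp hq
  have h1 : ∀ p : Fin 4 × Bool, ∃ (c : ℂ) (b : Bool), re (fun i => (i, s i)) e p = c • e (p.1, b) := by
    rintro ⟨i, _ | _⟩
    · exact ⟨_, _, rfl⟩
    · exact ⟨1, _, (one_smul _ _).symm⟩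
  obtain ⟨c, b, hc⟩ := h1 p
  obtain ⟨c', b', hc'⟩ := h1 q
  rw [hc, hc', map_smul, map_smul, LinearMap.smul_apply, H.hz β hβ (p.1, b) (q.1, b') hp hq,
    smul_zero, smul_zero]

/-- the contraction over the first block -/
theorem con0 {p q : Fin 4 × Bool} (hp : p.1 = 0 ∨ p.1 = 1) (hq : q.1 = 2 ∨ q.1 = 3) :
    Fψ ψ e p (0, true) (0, false) q + Fψ ψ e p (1, true) (1, false) q = 0 := by
  have A := H.alt.altT e
  have h0 := fun (x : Module.End ℂ U) (hx : x ∈ L) => H.gb.ctr_inv H.frm H.kill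
    (s := Finset.univ.filter fun p : Fin 4 × Bool => p.1 = 0 ∨ p.1 = 1) (by decide) (by
      intro p hp q hq
      rw [Finset.mem_filter] at hp hq
      push Not at hq
      have h1 := (H.blk01 p.1).2 hp.2
      have h2 : blk q.1 ≠ blk 0 := fun h => by
        have := (H.blk01 q.1).1 h
        exact (hq (Finset.mem_univ _)).1 (this.resolve_right (hq (Finset.mem_univ _)).2)
      rw [h1]
      exact h2.symm) hx
  have h1 := H.hz _ h0 p q ((H.blk01 _).2 hp) ((H.blk23 _).2 hq)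
  rw [ctr_apply] at h1
  have h2 : (Finset.univ.filter fun p : Fin 4 × Bool => p.1 = 0 ∨ p.1 = 1) =
      {(0, true), (0, false), (1, true), (1, false)} := by decide
  rw [h2, Finset.sum_insert (by decide), Finset.sum_insert (by decide),
    Finset.sum_insert (by decide), Finset.sum_singleton] at h1
  have e1 : ψ (e p) (e (0, false)) (e (0, true)) (e q) = -Fψ ψ e p (0, true) (0, false) q :=
    A.s2 _ _ _ _
  have e2 : ψ (e p) (e (1, false)) (e (1, true)) (e q) = -Fψ ψ e p (1, true) (1, false) q :=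
    A.s2 _ _ _ _
  change 1 * Fψ ψ e p (0, true) (0, false) q + (-1 * ψ (e p) (e (0, false)) (e (0, true)) (e q) +
    (1 * Fψ ψ e p (1, true) (1, false) q + -1 * ψ (e p) (e (1, false)) (e (1, true)) (e q))) = 0
    at h1
  rw [e1, e2] at h1
  linear_combination (1 / 2) * h1

/-- the contraction over the other blocks -/
theorem con2 {p q : Fin 4 × Bool} (hp : p.1 = 0 ∨ p.1 = 1) (hq : q.1 = 2 ∨ q.1 = 3) :
    Fψ ψ e p (2, true) (2, false) q + Fψ ψ e p (3, true) (3, false) q = 0 := by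
  have A := H.alt.altT e
  have h0 := fun (x : Module.End ℂ U) (hx : x ∈ L) => H.gb.ctr_inv H.frm H.kill
    (s := Finset.univ.filter fun p : Fin 4 × Bool => p.1 = 2 ∨ p.1 = 3) (by decide) (by
      intro p hp q hq
      rw [Finset.mem_filter] at hp hq
      push Not at hq
      have h1 := (H.blk23 p.1).2 hp.2
      have h2 : blk q.1 = blk 0 := by
        by_contra h
        have := (H.blk23 q.1).1 h
        exact (hq (Finset.mem_univ _)).1 (this.resolve_right (hq (Finset.mem_univ _)).2)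
      rw [h2]
      exact h1) hx
  have h1 := H.hz _ h0 p q ((H.blk01 _).2 hp) ((H.blk23 _).2 hq)
  rw [ctr_apply] at h1
  have h2 : (Finset.univ.filter fun p : Fin 4 × Bool => p.1 = 2 ∨ p.1 = 3) =
      {(2, true), (2, false), (3, true), (3, false)} := by decide
  rw [h2, Finset.sum_insert (by decide), Finset.sum_insert (by decide),
    Finset.sum_insert (by decide), Finset.sum_singleton] at h1
  have e1 : ψ (e p) (e (2, false)) (e (2, true)) (e q) = -Fψ ψ e p (2, true) (2, false) q :=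
    A.s2 _ _ _ _
  have e2 : ψ (e p) (e (3, false)) (e (3, true)) (e q) = -Fψ ψ e p (3, true) (3, false) q :=
    A.s2 _ _ _ _
  change 1 * Fψ ψ e p (2, true) (2, false) q + (-1 * ψ (e p) (e (2, false)) (e (2, true)) (e q) +
    (1 * Fψ ψ e p (3, true) (3, false) q + -1 * ψ (e p) (e (3, false)) (e (3, true)) (e q))) = 0
    at h1
  rw [e1, e2] at h1
  linear_combination (1 / 2) * h1

/-- degree three, normal form -/
theorem deg3a {p q : Fin 4 × Bool} {j : Fin 4} (hj : j = 0 ∨ j = 1) (hp : p.1 = 0 ∨ p.1 = 1)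
    (hpj : p.1 ≠ j) (hq : q.1 = 2 ∨ q.1 = 3) : Fψ ψ e p (j, true) (j, false) q = 0 := by
  have A := H.alt.altT e
  have h1 := H.con0 hp hq
  obtain ⟨i, s⟩ := p
  rcases hj with rfl | rfl
  · have hi : i = 1 := hp.resolve_left hpj
    subst hi
    have h2 : Fψ ψ e (1, s) (1, true) (1, false) q = 0 := by
      cases s
      · exact A.z4 _ _ _
      · exact A.z1 _ _ _
    rwa [h2, add_zero] at h1
  · have hi : i = 0 := hp.resolve_right hpj
    subst hi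
    have h2 : Fψ ψ e (0, s) (0, true) (0, false) q = 0 := by
      cases s
      · exact A.z4 _ _ _
      · exact A.z1 _ _ _
    rwa [h2, zero_add] at h1

/-- degree one, normal form -/
theorem deg1a {p q : Fin 4 × Bool} {j : Fin 4} (hj : j = 2 ∨ j = 3) (hp : p.1 = 0 ∨ p.1 = 1)
    (hqj : q.1 ≠ j) (hq : q.1 = 2 ∨ q.1 = 3) : Fψ ψ e p (j, true) (j, false) q = 0 := by
  have A := H.alt.altT e
  have h1 := H.con2 hp hq
  obtain ⟨i, s⟩ := q
  rcases hj with rfl | rfl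
  · have hi : i = 3 := hq.resolve_left hqj
    subst hi
    have h2 : Fψ ψ e p (3, true) (3, false) (3, s) = 0 := by
      cases s
      · exact A.z3 _ _ _
      · exact A.z5 _ _ _
    rwa [h2, add_zero] at h1
  · have hi : i = 2 := hq.resolve_right hqj
    subst hi
    have h2 : Fψ ψ e p (2, true) (2, false) (2, s) = 0 := by
      cases s
      · exact A.z3 _ _ _
      · exact A.z5 _ _ _
    rwa [h2, zero_add] at h1

theorem deg3b {a b c d : Fin 4 × Bool} (hbc : b ≠ c) (h1 : b.1 = c.1) (h2 : a.1 ≠ b.1)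
    (ha : a.1 = 0 ∨ a.1 = 1) (hb : b.1 = 0 ∨ b.1 = 1) (hd : d.1 = 2 ∨ d.1 = 3) :
    Fψ ψ e a b c d = 0 := by
  have A := H.alt.altT e
  obtain ⟨j, s⟩ := b
  obtain ⟨j', s'⟩ := c
  have h1' : j = j' := h1
  subst h1'
  cases s <;> cases s'
  · exact absurd rfl hbc
  · rw [A.s2, H.deg3a hb ha h2 hd, neg_zero]
  · exact H.deg3a hb ha h2 hd
  · exact absurd rfl hbc

theorem deg1b {a b c d : Fin 4 × Bool} (hbc : b ≠ c) (h1 : b.1 = c.1) (h2 : d.1 ≠ b.1)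
    (ha : a.1 = 0 ∨ a.1 = 1) (hb : b.1 = 2 ∨ b.1 = 3) (hd : d.1 = 2 ∨ d.1 = 3) :
    Fψ ψ e a b c d = 0 := by
  have A := H.alt.altT e
  obtain ⟨j, s⟩ := b
  obtain ⟨j', s'⟩ := c
  have h1' : j = j' := h1
  subst h1'
  cases s <;> cases s'
  · exact absurd rfl hbc
  · rw [A.s2, H.deg1a hb ha h2 hd, neg_zero]
  · exact H.deg1a hb ha h2 hd
  · exact absurd rfl hbc

omit H in
theorem two_of : ∀ x y z : Fin 4 × Bool, x ≠ y → x ≠ z → y ≠ z →
    (((x.1 = 0 ∨ x.1 = 1) ∧ (y.1 = 0 ∨ y.1 = 1) ∧ (z.1 = 0 ∨ z.1 = 1)) ∨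
     ((x.1 = 2 ∨ x.1 = 3) ∧ (y.1 = 2 ∨ y.1 = 3) ∧ (z.1 = 2 ∨ z.1 = 3))) →
    (y.1 = z.1 ∧ x.1 ≠ y.1) ∨ (x.1 = z.1 ∧ y.1 ≠ x.1) ∨ (x.1 = y.1 ∧ z.1 ≠ x.1) := by
  decide +kernel

/-- degree three -/
theorem deg3 {a b c d : Fin 4 × Bool} (hab : a ≠ b) (hac : a ≠ c) (hbc : b ≠ c)
    (ha : a.1 = 0 ∨ a.1 = 1) (hb : b.1 = 0 ∨ b.1 = 1) (hc : c.1 = 0 ∨ c.1 = 1)
    (hd : d.1 = 2 ∨ d.1 = 3) : Fψ ψ e a b c d = 0 := by
  have A := H.alt.altT e
  rcases two_of a b c hab hac hbc (Or.inl ⟨ha, hb, hc⟩) with ⟨k1, k2⟩ | ⟨k1, k2⟩ | ⟨k1, k2⟩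
  · exact H.deg3b hbc k1 k2 ha hb hd
  · have h1 := H.deg3b hac k1 k2 hb ha hd
    rw [A.s1] at h1
    exact neg_eq_zero.1 h1
  · have h1 := H.deg3b hab k1 k2 hc ha hd
    rw [A.s1, A.s2, neg_neg] at h1
    exact h1

/-- degree one -/
theorem deg1 {a b c d : Fin 4 × Bool} (hbc : b ≠ c) (hbd : b ≠ d) (hcd : c ≠ d)
    (ha : a.1 = 0 ∨ a.1 = 1) (hb : b.1 = 2 ∨ b.1 = 3) (hc : c.1 = 2 ∨ c.1 = 3)
    (hd : d.1 = 2 ∨ d.1 = 3) : Fψ ψ e a b c d = 0 := by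
  have A := H.alt.altT e
  rcases two_of b c d hbc hbd hcd (Or.inr ⟨hb, hc, hd⟩) with ⟨k1, k2⟩ | ⟨k1, k2⟩ | ⟨k1, k2⟩
  · -- c, d
    have h1 := H.deg1b hcd k1 k2 ha hc hb
    rw [A.s3, A.s2, neg_neg] at h1
    exact h1
  · -- b, d
    have h1 := H.deg1b hbd k1 k2 ha hb hc
    rw [A.s3] at h1
    exact neg_eq_zero.1 h1
  · exact H.deg1b hbc k1 k2 ha hb hd

omit H in
theorem low_iff (p : Fin 4 × Bool) : (decide (p.1.val < 2) = true ↔ (p.1 = 0 ∨ p.1 = 1)) ∧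
    (decide (p.1.val < 2) = false ↔ (p.1 = 2 ∨ p.1 = 3)) := by
  obtain ⟨i, s⟩ := p
  fin_cases i <;> simp

/-- the blocks of four indices -/
def lows (a b c d : Fin 4 × Bool) : Bool × Bool × Bool × Bool :=
  (decide (a.1.val < 2), decide (b.1.val < 2), decide (c.1.val < 2), decide (d.1.val < 2))

omit H in
theorem par_key : ∀ a b c d : Fin 4 × Bool, Dist a b c d →
    lows a b c d = (true, true, true, false) ∨ lows a b c d = (true, true, false, true) ∨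
    lows a b c d = (true, false, true, true) ∨ lows a b c d = (false, true, true, true) ∨
    lows a b c d = (true, false, false, false) ∨ lows a b c d = (false, true, false, false) ∨
    lows a b c d = (false, false, true, false) ∨ lows a b c d = (false, false, false, true) ∨
    ((NN 0 a b c d = 0 ↔ NN 1 a b c d = 0) ∧ (NN 2 a b c d = 0 ↔ NN 3 a b c d = 0)) := by
  decide +kernel

theorem par {a b c d : Fin 4 × Bool} (hne : Fψ ψ e a b c d ≠ 0) :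
    (NN 0 a b c d = 0 ↔ NN 1 a b c d = 0) ∧ (NN 2 a b c d = 0 ↔ NN 3 a b c d = 0) := by
  have A := H.alt.altT e
  obtain ⟨d1, d2, d3, d4, d5, d6⟩ := A.dist hne
  have key := par_key a b c d ⟨d1, d2, d3, d4, d5, d6⟩
  simp only [lows, Prod.mk.injEq, (low_iff a).1, (low_iff a).2, (low_iff b).1, (low_iff b).2,
    (low_iff c).1, (low_iff c).2, (low_iff d).1, (low_iff d).2] at key
  rcases key with ⟨k1, k2, k3, k4⟩ | ⟨k1, k2, k3, k4⟩ |
    ⟨k1, k2, k3, k4⟩ | ⟨k1, k2, k3, k4⟩ | ⟨k1, k2, k3, k4⟩ | ⟨k1, k2, k3, k4⟩ |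
    ⟨k1, k2, k3, k4⟩ | ⟨k1, k2, k3, k4⟩ | k
  · exact absurd (H.deg3 d1 d2 d4 k1 k2 k3 k4) hne
  · exfalso
    have h1 := H.deg3 d1 d3 d5 k1 k2 k4 k3
    rw [A.s3] at h1
    exact hne (neg_eq_zero.1 h1)
  · exfalso
    have h1 := H.deg3 d2 d3 d6 k1 k3 k4 k2
    rw [A.s3, A.s2, neg_neg] at h1
    exact hne h1
  · exfalso
    have h1 := H.deg3 d4 d5 d6 k2 k3 k4 k1
    rw [A.s3, A.s2, A.s1, neg_neg] at h1
    exact hne (neg_eq_zero.1 h1)
  · exact absurd (H.deg1 d4 d5 d6 k1 k2 k3 k4) hne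
  · exfalso
    have h1 := H.deg1 d2 d3 d6 k2 k1 k3 k4
    rw [A.s1] at h1
    exact hne (neg_eq_zero.1 h1)
  · exfalso
    have h1 := H.deg1 d1 d3 d5 k3 k1 k2 k4
    rw [A.s1, A.s2, neg_neg] at h1
    exact hne h1
  · exfalso
    have h1 := H.deg1 d1 d2 d4 k4 k1 k2 k3
    rw [A.s1, A.s2, A.s3, neg_neg] at h1
    exact hne (neg_eq_zero.1 h1)
  · exact k

end GH

end Pool.Agent.R912
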