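import Pool.Agent.R912.Q.Reg

set_option autoImplicit false
set_option linter.unusedSectionVars false
set_option linter.unusedSimpArgs false
set_option linter.unusedVariables false

/-!
# The support of an invariant form: an irreducible subspace of dimension six
-/

open Module Matrix

namespace Pool.Agent.R912

open Pool.Agent.Y102.SP Q

attribute [local instance 100] LieRing.ofAssociativeRing

variable {U : Type} [AddCommGroup U] [Module ℂ U] [FiniteDimensional ℂ U]
  {T : Type} [AddCommGroup T] [Module ℂ T] {L : Submodule ℂ (Module.End ℂ U)}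

/-- the new labels -/
def rp {k : ℕ} (a : Fin k → Fin k × Bool) (p : Fin k × Bool) : Fin k × Bool :=
  if p.2 then a p.1 else bar (a p.1)

theorem re_zero {k : ℕ} {ψ : Q4 U} {e : Fin k × Bool → U} (a : Fin k → Fin k × Bool)
    {p q r s : Fin k × Bool} (h0 : Fψ ψ (re a e) p q r s = 0) :
    Fψ ψ e (rp a p) (rp a q) (rp a r) (rp a s) = 0 := by
  have h1 : ∀ p, ∃ c : ℂ, c ≠ 0 ∧ re a e p = c • e (rp a p) := by
    rintro ⟨i, _ | _⟩
    · refine ⟨sg (-1) (a i), ?_, rfl⟩
      unfold sg
      split_ifs <;> norm_num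
    · exact ⟨1, one_ne_zero, (one_smul _ _).symm⟩
  obtain ⟨c1, k1, e1⟩ := h1 p
  obtain ⟨c2, k2, e2⟩ := h1 q
  obtain ⟨c3, k3, e3⟩ := h1 r
  obtain ⟨c4, k4, e4⟩ := h1 s
  unfold Fψ at h0 ⊢
  rw [e1, e2, e3, e4] at h0
  simp only [map_smul, LinearMap.smul_apply, smul_eq_mul, mul_eq_zero, k1, k2, k3, k4,
    false_or] at h0
  exact h0

namespace GB

section DgMem

variable {S : RS L T} {N : Submodule ℂ U} {B : U →ₗ[ℂ] U →ₗ[ℂ] ℂ}
  {blk : Fin 4 → ℕ} {e : Fin 4 × Bool → U} {w : Fin 4 × Bool → Module.Dual ℂ T}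
  (h : GB S N B 4 blk e w) {φ : Module.Dual ℂ T →ₗ[ℚ] ℚ}
  {ψ : Q4 U} (hψ : ∀ x ∈ L, Kill4 N ψ x) (hA : Alt4 ψ)
include h hψ hA

theorem dgmem {f : Fin 4 → ℤ} {x0 x1 x2 x3 : ℚ} (e0 : φ (w (0, true)) = x0)
    (e1 : φ (w (1, true)) = x1) (e2 : φ (w (2, true)) = x2) (e3 : φ (w (3, true)) = x3)
    (H : ∀ n0 n1 n2 n3 : ℤ, (n0 = -1 ∨ n0 = 0 ∨ n0 = 1) → (n1 = -1 ∨ n1 = 0 ∨ n1 = 1) →
      (n2 = -1 ∨ n2 = 0 ∨ n2 = 1) → (n3 = -1 ∨ n3 = 0 ∨ n3 = 1) →
      (n0 + n1 + n2 + n3) % 2 = 0 →
      (n0 : ℚ) * x0 + (n1 : ℚ) * x1 + (n2 : ℚ) * x2 + (n3 : ℚ) * x3 = 0 →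
      n0 * f 0 + n1 * f 1 + n2 * f 2 + n3 * f 3 = 0) : dg f ∈ MM ψ e blk := by
  refine dg_mem fun a b c d hne => ?_
  rw [til_NN, Fin.sum_univ_four]
  obtain ⟨h0, h1, h2, h3, h4⟩ := NN_cases a b c d ((hA.altT e).dist hne)
  refine H _ _ _ _ h0 h1 h2 h3 h4 ?_
  rw [← e0, ← e1, ← e2, ← e3]
  exact h.rel hψ hne

end DgMem

section B31

variable {S : RS L T} {N : Submodule ℂ U} {B : U →ₗ[ℂ] U →ₗ[ℂ] ℂ}
  {e : Fin 4 × Bool → U} {w : Fin 4 × Bool → Module.Dual ℂ T}
  {φ : Module.Dual ℂ T →ₗ[ℚ] ℚ} {ψ : Q4 U}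

/-- the change of signs preserves the blocks -/
theorem b31_re {a : Fin 4 → Fin 4 × Bool} (ha : ∀ i, b31 (a i).1 = b31 i) :
    (fun i => b31 (a i).1) = b31 := funext ha

/-- first normal form, with the relation `2 w₀ = w₁ + w₂`, `w₃ = w₀` -/
theorem n1 (h : GB S N B 4 b31 e w) (g : Gen S φ w) (hNL : ∀ x ∈ L, ∀ u ∈ N, x u ∈ N)
    (F : Frm L N B (-1)) (hψ : ∀ x ∈ L, Kill4 N ψ x) (hA : Alt4 ψ)
    (h30 : φ (w (3, true)) = φ (w (0, true)))
    (hr : 2 * φ (w (0, true)) = φ (w (1, true)) + φ (w (2, true))) :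
    Fψ ψ e (1, true) (1, false) (0, false) (3, true) = 0 ∧
      Fψ ψ e (0, true) (1, false) (2, false) (3, true) = 0 := by
  refine (h.bd hNL F hψ hA).t1c fun P Z => ?_
  have q0 := g.zero (0, true)
  have q1 := g.zero (1, true)
  have q2 := g.zero (2, true)
  have q01 := h.ne1 g (i := 0) (j := 1) (by decide) (by decide)
  have q02 := h.ne1 g (i := 0) (j := 2) (by decide) (by decide)
  have q12 := h.ne1 g (i := 1) (j := 2) (by decide) (by decide)
  have r01 := h.ne2 g (i := 0) (j := 1) (by decide) (by decide)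
  have r02 := h.ne2 g (i := 0) (j := 2) (by decide) (by decide)
  have r12 := h.ne2 g (i := 1) (j := 2) (by decide) (by decide)
  refine h.dgmem hψ hA rfl rfl rfl h30 ?_
  generalize φ (w (0, true)) = x0 at *
  generalize φ (w (1, true)) = x1 at *
  generalize φ (w (2, true)) = x2 at *
  intro n0 n1 n2 n3 c0 c1 c2 c3 hpar hrel
  change n0 * P + n1 * (P + Z) + n2 * (P - Z) + n3 * P = 0
  rcases c0 with rfl | rfl | rfl <;> rcases c1 with rfl | rfl | rfl <;>
    rcases c2 with rfl | rfl | rfl <;> rcases c3 with rfl | rfl | rfl <;>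
    first
    | (exfalso; revert hpar; decide)
    | (ring; done)
    | (exfalso; push_cast at hrel; first
        | exact q0 (by linarith)
        | exact q1 (by linarith)
        | exact q2 (by linarith)
        | exact q01 (by linarith)
        | exact q02 (by linarith)
        | exact q12 (by linarith)
        | exact r01 (by linarith)
        | exact r02 (by linarith)
        | exact r12 (by linarith))

theorem c1 (h : GB S N B 4 b31 e w) (g : Gen S φ w) (hNL : ∀ x ∈ L, ∀ u ∈ N, x u ∈ N)
    (F : Frm L N B (-1)) (hψ : ∀ x ∈ L, Kill4 N ψ x) (hA : Alt4 ψ) :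
    Fψ ψ e (1, true) (1, false) (0, false) (3, true) = 0 := by
  by_contra hne
  have A := hA.altT e
  have hf : ∀ i, φ (w (i, false)) = -φ (w (i, true)) := fun i => by
    rw [show w (i, false) = -w (i, true) from h.wbar (i, true), map_neg]
  have h30 : φ (w (3, true)) = φ (w (0, true)) := by
    have h1 := h.rel (φ := φ) hψ hne
    have n0 : NN 0 ((1 : Fin 4), true) (1, false) (0, false) (3, true) = -1 := by decide
    have n1 : NN 1 ((1 : Fin 4), true) (1, false) (0, false) (3, true) = 0 := by decide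
    have n2 : NN 2 ((1 : Fin 4), true) (1, false) (0, false) (3, true) = 0 := by decide
    have n3 : NN 3 ((1 : Fin 4), true) (1, false) (0, false) (3, true) = 1 := by decide
    rw [n0, n1, n2, n3] at h1
    push_cast at h1
    linarith
  by_cases hA1 : 2 * φ (w (0, true)) = φ (w (1, true)) + φ (w (2, true))
  · exact hne (h.n1 g hNL F hψ hA h30 hA1).1
  by_cases hA2 : 2 * φ (w (0, true)) = -φ (w (1, true)) + φ (w (2, true))
  · have a : Fin 4 → Fin 4 × Bool := ![(0, true), (1, false), (2, true), (3, true)]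
    obtain ⟨a, ha⟩ : ∃ a : Fin 4 → Fin 4 × Bool, a = ![(0, true), (1, false), (2, true),
      (3, true)] := ⟨_, rfl⟩
    have h' := h.relabel a (by rw [ha]; decide)
    rw [b31_re (by rw [ha]; decide)] at h'
    have h2 := (h'.n1 (g.relabel a) hNL F hψ hA (by subst ha; exact h30)
      (by subst ha; change 2 * φ (w (0, true)) = φ (w (1, false)) + φ (w (2, true)); rw [hf, hA2])).1
    have h3 := re_zero a h2
    subst ha
    apply hne
    have h4 : Fψ ψ e (1, false) (1, true) (0, false) (3, true) = 0 := h3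
    rw [A.s1, h4, neg_zero]
  by_cases hA3 : 2 * φ (w (0, true)) = φ (w (1, true)) - φ (w (2, true))
  · obtain ⟨a, ha⟩ : ∃ a : Fin 4 → Fin 4 × Bool, a = ![(0, true), (1, true), (2, false),
      (3, true)] := ⟨_, rfl⟩
    have h' := h.relabel a (by rw [ha]; decide)
    rw [b31_re (by rw [ha]; decide)] at h'
    have h2 := (h'.n1 (g.relabel a) hNL F hψ hA (by subst ha; exact h30)
      (by subst ha; change 2 * φ (w (0, true)) = φ (w (1, true)) + φ (w (2, false))
          rw [hf, hA3]; ring)).1
    have h3 := re_zero a h2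
    subst ha
    exact hne h3
  by_cases hA4 : 2 * φ (w (0, true)) = -φ (w (1, true)) - φ (w (2, true))
  · obtain ⟨a, ha⟩ : ∃ a : Fin 4 → Fin 4 × Bool, a = ![(0, true), (1, false), (2, false),
      (3, true)] := ⟨_, rfl⟩
    have h' := h.relabel a (by rw [ha]; decide)
    rw [b31_re (by rw [ha]; decide)] at h'
    have h2 := (h'.n1 (g.relabel a) hNL F hψ hA (by subst ha; exact h30)
      (by subst ha; change 2 * φ (w (0, true)) = φ (w (1, false)) + φ (w (2, false))
          rw [hf, hf, hA4]; ring)).1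
    have h3 := re_zero a h2
    subst ha
    apply hne
    have h4 : Fψ ψ e (1, false) (1, true) (0, false) (3, true) = 0 := h3
    rw [A.s1, h4, neg_zero]
  -- the remaining case
  apply hne
  refine (h.bd hNL F hψ hA).t1b ?_
  have q0 := g.zero (0, true)
  have q1 := g.zero (1, true)
  have q2 := g.zero (2, true)
  have q01 := h.ne1 g (i := 0) (j := 1) (by decide) (by decide)
  have q02 := h.ne1 g (i := 0) (j := 2) (by decide) (by decide)
  have q12 := h.ne1 g (i := 1) (j := 2) (by decide) (by decide)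
  have r01 := h.ne2 g (i := 0) (j := 1) (by decide) (by decide)
  have r02 := h.ne2 g (i := 0) (j := 2) (by decide) (by decide)
  have r12 := h.ne2 g (i := 1) (j := 2) (by decide) (by decide)
  refine h.dgmem hψ hA rfl rfl rfl h30 ?_
  clear hne
  generalize φ (w (0, true)) = x0 at *
  generalize φ (w (1, true)) = x1 at *
  generalize φ (w (2, true)) = x2 at *
  intro n0 n1 n2 n3 c0 c1 c2 c3 hpar hrel
  change n0 * 100 + n1 * 10 + n2 * 1 + n3 * 100 = 0
  rcases c0 with rfl | rfl | rfl <;> rcases c1 with rfl | rfl | rfl <;>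
    rcases c2 with rfl | rfl | rfl <;> rcases c3 with rfl | rfl | rfl <;>
    first
    | (exfalso; revert hpar; decide)
    | (norm_num; done)
    | (exfalso; push_cast at hrel; first
        | exact q0 (by linarith)
        | exact q1 (by linarith)
        | exact q2 (by linarith)
        | exact q01 (by linarith)
        | exact q02 (by linarith)
        | exact q12 (by linarith)
        | exact r01 (by linarith)
        | exact r02 (by linarith)
        | exact r12 (by linarith)
        | exact hA1 (by linarith)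
        | exact hA2 (by linarith)
        | exact hA3 (by linarith)
        | exact hA4 (by linarith))

theorem c2 (h : GB S N B 4 b31 e w) (g : Gen S φ w) (hNL : ∀ x ∈ L, ∀ u ∈ N, x u ∈ N)
    (F : Frm L N B (-1)) (hψ : ∀ x ∈ L, Kill4 N ψ x) (hA : Alt4 ψ) :
    Fψ ψ e (0, true) (1, true) (2, true) (3, false) = 0 := by
  by_contra hne
  have A := hA.altT e
  have hf : ∀ i, φ (w (i, false)) = -φ (w (i, true)) := fun i => by
    rw [show w (i, false) = -w (i, true) from h.wbar (i, true), map_neg]
  have h3s : φ (w (3, true)) = φ (w (0, true)) + φ (w (1, true)) + φ (w (2, true)) := by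
    have h1 := h.rel (φ := φ) hψ hne
    have n0 : NN 0 ((0 : Fin 4), true) (1, true) (2, true) (3, false) = 1 := by decide
    have n1 : NN 1 ((0 : Fin 4), true) (1, true) (2, true) (3, false) = 1 := by decide
    have n2 : NN 2 ((0 : Fin 4), true) (1, true) (2, true) (3, false) = 1 := by decide
    have n3 : NN 3 ((0 : Fin 4), true) (1, true) (2, true) (3, false) = -1 := by decide
    rw [n0, n1, n2, n3] at h1
    push_cast at h1
    linarith
  have q0 := g.zero (0, true)
  have q1 := g.zero (1, true)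
  have q2 := g.zero (2, true)
  have q3 := g.zero (3, true)
  have q01 := h.ne1 g (i := 0) (j := 1) (by decide) (by decide)
  have q02 := h.ne1 g (i := 0) (j := 2) (by decide) (by decide)
  have q12 := h.ne1 g (i := 1) (j := 2) (by decide) (by decide)
  have r01 := h.ne2 g (i := 0) (j := 1) (by decide) (by decide)
  have r02 := h.ne2 g (i := 0) (j := 2) (by decide) (by decide)
  have r12 := h.ne2 g (i := 1) (j := 2) (by decide) (by decide)
  by_cases hA1 : φ (w (3, true)) = -φ (w (0, true))
  · obtain ⟨a, ha⟩ : ∃ a : Fin 4 → Fin 4 × Bool, a = ![(0, true), (1, false), (2, false),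
      (3, false)] := ⟨_, rfl⟩
    have h' := h.relabel a (by rw [ha]; decide)
    rw [b31_re (by rw [ha]; decide)] at h'
    have h2 := (h'.n1 (g.relabel a) hNL F hψ hA
      (by subst ha; change φ (w (3, false)) = φ (w (0, true)); rw [hf, hA1]; ring)
      (by subst ha; change 2 * φ (w (0, true)) = φ (w (1, false)) + φ (w (2, false))
          rw [hf, hf]; linarith)).2
    have h3 := re_zero a h2
    subst ha
    exact hne h3
  by_cases hA2 : φ (w (3, true)) = -φ (w (1, true))
  · obtain ⟨a, ha⟩ : ∃ a : Fin 4 → Fin 4 × Bool, a = ![(1, true), (0, false), (2, false),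
      (3, false)] := ⟨_, rfl⟩
    have h' := h.relabel a (by rw [ha]; decide)
    rw [b31_re (by rw [ha]; decide)] at h'
    have h2 := (h'.n1 (g.relabel a) hNL F hψ hA
      (by subst ha; change φ (w (3, false)) = φ (w (1, true)); rw [hf, hA2]; ring)
      (by subst ha; change 2 * φ (w (1, true)) = φ (w (0, false)) + φ (w (2, false))
          rw [hf, hf]; linarith)).2
    have h3 := re_zero a h2
    subst ha
    have h4 : Fψ ψ e (1, true) (0, true) (2, true) (3, false) = 0 := h3
    apply hne
    rw [A.s1, h4, neg_zero]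
  by_cases hA3 : φ (w (3, true)) = -φ (w (2, true))
  · obtain ⟨a, ha⟩ : ∃ a : Fin 4 → Fin 4 × Bool, a = ![(2, true), (0, false), (1, false),
      (3, false)] := ⟨_, rfl⟩
    have h' := h.relabel a (by rw [ha]; decide)
    rw [b31_re (by rw [ha]; decide)] at h'
    have h2 := (h'.n1 (g.relabel a) hNL F hψ hA
      (by subst ha; change φ (w (3, false)) = φ (w (2, true)); rw [hf, hA3]; ring)
      (by subst ha; change 2 * φ (w (2, true)) = φ (w (0, false)) + φ (w (1, false))
          rw [hf, hf]; linarith)).2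
    have h3 := re_zero a h2
    subst ha
    have h4 : Fψ ψ e (2, true) (0, true) (1, true) (3, false) = 0 := h3
    apply hne
    rw [A.s1, A.s2, neg_neg] at h4
    exact h4
  by_cases hA4 : φ (w (3, true)) = φ (w (0, true))
  · exact r12 (by linarith)
  by_cases hA5 : φ (w (3, true)) = φ (w (1, true))
  · exact r02 (by linarith)
  by_cases hA6 : φ (w (3, true)) = φ (w (2, true))
  · exact r01 (by linarith)
  apply hne
  refine (h.bd hNL F hψ hA).t1a ?_
  refine h.dgmem (φ := φ) hψ hA rfl rfl rfl rfl ?_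
  clear hne
  generalize φ (w (0, true)) = x0 at *
  generalize φ (w (1, true)) = x1 at *
  generalize φ (w (2, true)) = x2 at *
  generalize φ (w (3, true)) = x3 at *
  intro n0 n1 n2 n3 c0 c1 c2 c3 hpar hrel
  change n0 * 1 + n1 * 10 + n2 * 100 + n3 * 111 = 0
  rcases c0 with rfl | rfl | rfl <;> rcases c1 with rfl | rfl | rfl <;>
    rcases c2 with rfl | rfl | rfl <;> rcases c3 with rfl | rfl | rfl <;>
    first
    | (exfalso; revert hpar; decide)
    | (norm_num; done)
    | (exfalso; push_cast at hrel; first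
        | exact q0 (by linarith)
        | exact q1 (by linarith)
        | exact q2 (by linarith)
        | exact q3 (by linarith)
        | exact q01 (by linarith)
        | exact q02 (by linarith)
        | exact q12 (by linarith)
        | exact r01 (by linarith)
        | exact r02 (by linarith)
        | exact r12 (by linarith)
        | exact hA1 (by linarith)
        | exact hA2 (by linarith)
        | exact hA3 (by linarith)
        | exact hA4 (by linarith)
        | exact hA5 (by linarith)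
        | exact hA6 (by linarith))

end B31

end GB

end Pool.Agent.R912
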