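import Pool.Agent.R912.Q.Wts2

set_option autoImplicit false
set_option linter.unusedSectionVars false

/-!
# Weights of irreducible subspaces with an invariant form, of dimension at most eight
-/

open Module

namespace Pool.Agent.R912

open Pool.Agent.Y102.SP

attribute [local instance 100] LieRing.ofAssociativeRing

variable {U : Type} [AddCommGroup U] [Module ℂ U] [FiniteDimensional ℂ U]
  {T : Type} [AddCommGroup T] [Module ℂ T] {L : Submodule ℂ (Module.End ℂ U)}

/-- An invariant form on `N`. -/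
structure Frm (L : Submodule ℂ (Module.End ℂ U)) (N : Submodule ℂ U)
    (B : U →ₗ[ℂ] U →ₗ[ℂ] ℂ) (ε : ℂ) : Prop where
  skew : ∀ x ∈ L, ∀ u ∈ N, ∀ v ∈ N, B (x u) v + B u (x v) = 0
  nd : ∀ u ∈ N, (∀ v ∈ N, B v u = 0) → u = 0
  sym : ∀ u ∈ N, ∀ v ∈ N, B u v = ε * B v u

namespace RS

variable {S : RS L T}

namespace WB

variable {N : Submodule ℂ U} {d : ℕ} {b : Fin d → U} {χ : Fin d → Module.Dual ℂ T}
  (W : S.WB N d b χ)

section Form

variable {B : U →ₗ[ℂ] U →ₗ[ℂ] ℂ} {ε : ℂ} (F : Frm L N B ε)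
include W F

theorem pair {u v : U} {μ ν : Module.Dual ℂ T} (hu : u ∈ N) (hv : v ∈ N) (hμ : u ∈ usp S.ι μ)
    (hν : v ∈ usp S.ι ν) (hne : B u v ≠ 0) : ν = -μ := by
  ext t
  have h1 := F.skew _ (S.ιmem t) u hu v hv
  rw [hμ t, hν t, map_smul, LinearMap.smul_apply, map_smul, smul_eq_mul, smul_eq_mul,
    ← add_mul] at h1
  have h2 := (mul_eq_zero.1 h1).resolve_right hne
  rw [LinearMap.neg_apply]
  exact eq_neg_of_add_eq_zero_right h2

theorem partner (i : Fin d) : ∃ j, B (b i) (b j) ≠ 0 := by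
  by_contra hcon
  push Not at hcon
  refine W.ne i (F.nd _ (W.mem i) fun v hv => ?_)
  rw [F.sym v hv _ (W.mem i)]
  rw [← W.span] at hv
  have h1 : B (b i) v = 0 := by
    induction hv using Submodule.span_induction with
    | mem v hv =>
      obtain ⟨j, rfl⟩ := hv
      exact hcon j
    | zero => exact map_zero _
    | add x y _ _ hx hy => rw [map_add, hx, hy, add_zero]
    | smul c x _ hx => rw [map_smul, hx, smul_zero]
  rw [h1, mul_zero]

theorem partner_wt {i j : Fin d} (h : B (b i) (b j) ≠ 0) : χ j = -χ i :=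
  W.pair F (W.mem i) (W.mem j) (W.wt i) (W.wt j) h

theorem exists_neg (i : Fin d) : ∃ j, χ j = -χ i := by
  obtain ⟨j, hj⟩ := W.partner F i
  exact ⟨j, W.partner_wt F hj⟩

/-- The opposite of a simple weight is simple. -/
theorem neg_simple {i : Fin d} (hi : ∀ j, χ j = χ i → j = i) {j j' : Fin d} (hj : χ j = -χ i)
    (hj' : χ j' = -χ i) : j = j' := by
  obtain ⟨k, hk⟩ := W.partner F i
  have key : ∀ j, χ j = -χ i → j = k := by
    intro j hj
    have h1 : b j = (B (b i) (b j) / B (b i) (b k)) • b k := by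
      rw [← sub_eq_zero]
      refine F.nd _ (N.sub_mem (W.mem j) (N.smul_mem _ (W.mem k))) fun v hv => ?_
      rw [← W.span] at hv
      induction hv using Submodule.span_induction with
      | mem v hv =>
        obtain ⟨m, rfl⟩ := hv
        rw [map_sub, map_smul, smul_eq_mul]
        by_cases hm : m = i
        · rw [hm, div_mul_cancel₀ _ hk, sub_self]
        · have h2 : ∀ n, χ n = -χ i → B (b m) (b n) = 0 := by
            intro n hn
            by_contra hne
            have h3 := W.partner_wt F hne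
            rw [hn, neg_inj] at h3
            exact hm (hi m h3.symm)
          rw [h2 j hj, h2 k (W.partner_wt F hk), mul_zero, sub_zero]
      | zero => rw [map_zero, LinearMap.zero_apply]
      | add x y _ _ hx hy => rw [map_add, LinearMap.add_apply, hx, hy, add_zero]
      | smul c x _ hx => rw [map_smul, LinearMap.smul_apply, hx, smul_zero]
    exact W.not_both (v := b k) h1 (one_smul ℂ (b k)).symm
  rw [key j hj, key j' hj']

theorem neg2 {i j : Fin d} (hij : i ≠ j) (h : χ i = χ j) :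
    ∃ i' j', i' ≠ j' ∧ χ i' = -χ i ∧ χ j' = -χ i := by
  by_contra hcon
  push Not at hcon
  obtain ⟨k, hk⟩ := W.exists_neg F i
  have h1 : ∀ m, χ m = χ k → m = k := by
    intro m hm
    by_contra hne
    exact hcon m k hne (hm.trans hk) hk
  refine hij (W.neg_simple F h1 ?_ ?_)
  · rw [hk, neg_neg]
  · rw [hk, neg_neg, h]

/-- In the symplectic case simple weights are not roots. -/
theorem no_root (hN : IrrSub L N) (hε : ε = -1) {i : Fin d} (hi : ∀ j, χ j = χ i → j = i) :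
    χ i ∉ S.R.Φ := by
  intro hα
  obtain ⟨k, hk⟩ := W.partner F i
  have hneg := S.R.neg _ hα
  have h1 : ((S.e (-χ i)) ^ 2) (b i) ≠ 0 :=
    S.uinj hα (W.wt i) (W.ne i) (n := 2) (by rw [S.R.two _ hα]; norm_num) le_rfl
  have h2 : ((S.e (-χ i)) ^ 2) (b i) ∈ usp S.ι (-χ i) := by
    have h3 := S.upow hneg (W.wt i) 2
    have h4 : ((2 : ℕ) : ℚ) • (-χ i) + χ i = -χ i := by
      push_cast
      rw [two_smul]
      abel
    rwa [h4] at h3
  have hm1 : S.e (-χ i) (b i) ∈ N := hN.stab _ (S.emem _ hneg) _ (W.mem i)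
  have hm2 : S.e (-χ i) (S.e (-χ i) (b i)) ∈ N := hN.stab _ (S.emem _ hneg) _ hm1
  have h3 : ((S.e (-χ i)) ^ 2) (b i) = S.e (-χ i) (S.e (-χ i) (b i)) := by
    rw [pow_two, Module.End.mul_apply]
  obtain ⟨c, hc⟩ := W.of_usp1 (by rw [h3]; exact hm2) h2 (i := k) fun j hj =>
    W.neg_simple F hi hj (W.partner_wt F hk)
  have h4 := F.skew _ (S.emem _ hneg) (b i) (W.mem i) _ hm1
  have h5 := F.sym _ hm1 _ hm1
  have h6 : B (S.e (-χ i) (b i)) (S.e (-χ i) (b i)) = 0 := by
    rw [hε] at h5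
    linear_combination (1 / 2) * h5
  rw [h6, zero_add, ← h3, hc, map_smul, smul_eq_mul] at h4
  rcases mul_eq_zero.1 h4 with h7 | h7
  · rw [hc, h7, zero_smul] at h1
    exact h1 rfl
  · exact hk h7

end Form

section Refl

variable (hN : IrrSub L N)
include W hN

theorem pow_stab {α : Module.Dual ℂ T} (hα : α ∈ S.R.Φ) {u : U} (hu : u ∈ N) (n : ℕ) :
    ((S.e α) ^ n) u ∈ N := by
  induction n with
  | zero => simpa using hu
  | succ n ih =>
    rw [pow_succ', Module.End.mul_apply]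
    exact hN.stab _ (S.emem _ hα) _ ih

theorem refl_aux {β : Module.Dual ℂ T} (hβ : β ∈ S.R.Φ) {ν : Module.Dual ℂ T} {n : ℕ}
    (hn : S.R.pr β ν = n) {u : U} (hu : u ∈ N) (hν : u ∈ usp S.ι ν) (hu0 : u ≠ 0) :
    ((S.e (-β)) ^ n) u ∈ N ∧ ((S.e (-β)) ^ n) u ∈ usp S.ι (ν - S.R.pr β ν • β) ∧
      ((S.e (-β)) ^ n) u ≠ 0 := by
  refine ⟨W.pow_stab hN (S.R.neg _ hβ) hu n, ?_, S.uinj hβ hν hu0 hn le_rfl⟩
  have h1 := S.upow (S.R.neg _ hβ) hν n
  have h2 : (n : ℚ) • (-β) + ν = ν - S.R.pr β ν • β := by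
    rw [hn, smul_neg]
    abel
  rwa [h2] at h1

/-- reflections of weights -/
theorem refl1 {β : Module.Dual ℂ T} (hβ : β ∈ S.R.Φ) (i : Fin d) :
    ∃ j, χ j = χ i - S.R.pr β (χ i) • β := by
  obtain ⟨n, hn⟩ := S.upr hβ (W.wt i) (W.ne i)
  rcases le_total 0 n with h | h
  · obtain ⟨m, rfl⟩ := Int.eq_ofNat_of_zero_le h
    obtain ⟨h1, h2, h3⟩ := W.refl_aux hN hβ (by rw [hn]; norm_cast) (W.mem i) (W.wt i) (W.ne i)
    exact W.exists_of_usp h1 h2 h3
  · obtain ⟨m, hm⟩ := Int.eq_ofNat_of_zero_le (neg_nonneg.2 h)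
    have h0 : S.R.pr (-β) (χ i) = (m : ℚ) := by
      rw [S.R.pneg _ hβ, hn]
      have : ((-n : ℤ) : ℚ) = ((m : ℤ) : ℚ) := by rw [hm]
      push_cast at this
      exact this
    obtain ⟨h1, h2, h3⟩ := W.refl_aux hN (S.R.neg _ hβ) h0 (W.mem i) (W.wt i) (W.ne i)
    obtain ⟨j, hj⟩ := W.exists_of_usp h1 h2 h3
    refine ⟨j, ?_⟩
    rw [hj, S.R.pneg _ hβ, neg_smul_neg]

theorem refl2_aux {β : Module.Dual ℂ T} (hβ : β ∈ S.R.Φ) {i j : Fin d} (hij : i ≠ j)
    (h : χ i = χ j) {n : ℕ} (hn : S.R.pr β (χ i) = n) :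
    ∃ i' j', i' ≠ j' ∧ χ i' = χ i - S.R.pr β (χ i) • β ∧
      χ j' = χ i - S.R.pr β (χ i) • β := by
  obtain ⟨k, hk⟩ := W.refl1 hN hβ i
  by_contra hcon
  push Not at hcon
  have huniq : ∀ m, χ m = χ i - S.R.pr β (χ i) • β → m = k := by
    intro m hm
    by_contra hne
    exact hcon m k hne hm hk
  have hj : b j ∈ usp S.ι (χ i) := by rw [h]; exact W.wt j
  obtain ⟨h1, h2, h3⟩ := W.refl_aux hN hβ hn (W.mem i) (W.wt i) (W.ne i)
  obtain ⟨h4, h5, h6⟩ := W.refl_aux hN hβ hn (W.mem j) hj (W.ne j)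
  obtain ⟨c, hc⟩ := W.of_usp1 h1 h2 huniq
  obtain ⟨c', hc'⟩ := W.of_usp1 h4 h5 huniq
  -- a combination is mapped to zero
  have hc0 : c ≠ 0 := by
    rintro rfl
    rw [zero_smul] at hc
    exact h3 hc
  have h7 : c' • b i - c • b j ≠ 0 := by
    intro h8
    have h9 : b j = (c⁻¹ * c') • b i := by
      rw [mul_smul, sub_eq_zero.1 h8, smul_smul, inv_mul_cancel₀ hc0, one_smul]
    exact hij (W.not_both (one_smul ℂ (b i)).symm h9)
  have h8 := (W.refl_aux hN hβ hn (u := c' • b i - c • b j)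
    (N.sub_mem (N.smul_mem _ (W.mem i)) (N.smul_mem _ (W.mem j)))
    (Submodule.sub_mem _ (Submodule.smul_mem _ _ (W.wt i)) (Submodule.smul_mem _ _ hj)) h7).2.2
  apply h8
  rw [map_sub, map_smul, map_smul, hc, hc', smul_smul, smul_smul, mul_comm, sub_self]

/-- Reflections preserve the multiplicities. -/
theorem refl2 {β : Module.Dual ℂ T} (hβ : β ∈ S.R.Φ) {i j : Fin d} (hij : i ≠ j)
    (h : χ i = χ j) :
    ∃ i' j', i' ≠ j' ∧ χ i' = χ i - S.R.pr β (χ i) • β ∧
      χ j' = χ i - S.R.pr β (χ i) • β := by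
  obtain ⟨n, hn⟩ := S.upr hβ (W.wt i) (W.ne i)
  rcases le_total 0 n with h0 | h0
  · obtain ⟨m, rfl⟩ := Int.eq_ofNat_of_zero_le h0
    exact W.refl2_aux hN hβ hij h (n := m) (by rw [hn]; norm_cast)
  · obtain ⟨m, hm⟩ := Int.eq_ofNat_of_zero_le (neg_nonneg.2 h0)
    have h1 : S.R.pr (-β) (χ i) = (m : ℚ) := by
      rw [S.R.pneg _ hβ, hn]
      have : ((-n : ℤ) : ℚ) = ((m : ℤ) : ℚ) := by rw [hm]
      push_cast at this
      exact this
    obtain ⟨i', j', h2, h3, h4⟩ := W.refl2_aux hN (S.R.neg _ hβ) hij h h1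
    rw [S.R.pneg _ hβ, neg_smul_neg] at h3 h4
    exact ⟨i', j', h2, h3, h4⟩

end Refl

section Simple

variable {B : U →ₗ[ℂ] U →ₗ[ℂ] ℂ} {ε : ℂ} (F : Frm L N B ε) (hN : IrrSub L N)
  {φ : Module.Dual ℂ T →ₗ[ℚ] ℚ} {i0 : Fin d} (hT : Top S χ φ i0)
include W F hN hT

/-- The nonzero weights are simple (positive case). -/
theorem simple_pos (hd : d ≤ 8) {i j : Fin d} (hij : i ≠ j) (h : χ i = χ j)
    (hpos : 0 < φ (χ i)) : False := by
  classical
  obtain ⟨ν, hν⟩ : ∃ ν, χ i = ν := ⟨_, rfl⟩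
  have hνj : χ j = ν := by rw [← h, hν]
  rw [hν] at hpos
  have hia : χ i ≠ χ i0 := fun e => hij
    ((W.top_simple hT hN e).trans (W.top_simple hT hN (h ▸ e)).symm)
  -- the second weight
  obtain ⟨i1, hi1, hmax⟩ : ∃ i1, χ i1 ≠ χ i0 ∧ ∀ m, χ m ≠ χ i0 → φ (χ m) ≤ φ (χ i1) := by
    obtain ⟨i1, h1, h2⟩ := Finset.exists_max_image
      (Finset.univ.filter fun m => χ m ≠ χ i0) (fun m => φ (χ m)) ⟨i, by simp [hia]⟩
    refine ⟨i1, (Finset.mem_filter.1 h1).2, fun m hm => h2 m (by simp [hm])⟩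
  obtain ⟨hs1, hr1, -⟩ := W.second hT hN hi1 hmax
  have hib : χ i ≠ χ i1 := fun e => hij ((hs1 i e).trans (hs1 j (h ▸ e)).symm)
  obtain ⟨a, ha⟩ : ∃ a, χ i0 = a := ⟨_, rfl⟩
  obtain ⟨c, hc⟩ : ∃ c, χ i1 = c := ⟨_, rfl⟩
  have e1 : φ c < φ a := by
    rw [← ha, ← hc]
    exact lt_of_le_of_ne (hT.max i1) fun e => hi1 (hT.inj _ _ e)
  have e2 : φ ν < φ c := by
    rw [← hν, ← hc]
    exact lt_of_le_of_ne (hmax i hia) fun e => hib (hT.inj _ _ e)
  obtain ⟨j0, hj0⟩ := W.exists_neg F i0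
  obtain ⟨j1, hj1⟩ := W.exists_neg F i1
  obtain ⟨i', j', hij', hi', hj'⟩ := W.neg2 F hij h
  rw [ha] at hj0
  rw [hc] at hj1
  rw [hν] at hi' hj'
  have p0 : φ (χ i0) = φ a := by rw [ha]
  have p1 : φ (χ i1) = φ c := by rw [hc]
  have p2 : φ (χ i) = φ ν := by rw [hν]
  have p3 : φ (χ j) = φ ν := by rw [hνj]
  have p4 : φ (χ i') = -φ ν := by rw [hi', map_neg]
  have p5 : φ (χ j') = -φ ν := by rw [hj', map_neg]
  have p6 : φ (χ j1) = -φ c := by rw [hj1, map_neg]
  have p7 : φ (χ j0) = -φ a := by rw [hj0, map_neg]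
  have hcard : ({i0, i1, i, j, i', j', j1, j0} : Finset (Fin d)).card = 8 := by
    have ne_of : ∀ x y : Fin d, φ (χ x) ≠ φ (χ y) → x ≠ y := fun x y hh e => hh (by rw [e])
    rw [Finset.card_insert_of_notMem, Finset.card_insert_of_notMem, Finset.card_insert_of_notMem,
      Finset.card_insert_of_notMem, Finset.card_insert_of_notMem, Finset.card_insert_of_notMem,
      Finset.card_insert_of_notMem, Finset.card_singleton]
    · rw [Finset.mem_singleton]
      exact ne_of _ _ (by rw [p6, p7]; linarith)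
    · simp only [Finset.mem_insert, Finset.mem_singleton, not_or]
      exact ⟨ne_of _ _ (by rw [p5, p6]; linarith), ne_of _ _ (by rw [p5, p7]; linarith)⟩
    · simp only [Finset.mem_insert, Finset.mem_singleton, not_or]
      exact ⟨hij', ne_of _ _ (by rw [p4, p6]; linarith), ne_of _ _ (by rw [p4, p7]; linarith)⟩
    · simp only [Finset.mem_insert, Finset.mem_singleton, not_or]
      exact ⟨ne_of _ _ (by rw [p3, p4]; linarith), ne_of _ _ (by rw [p3, p5]; linarith),
        ne_of _ _ (by rw [p3, p6]; linarith), ne_of _ _ (by rw [p3, p7]; linarith)⟩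
    · simp only [Finset.mem_insert, Finset.mem_singleton, not_or]
      exact ⟨hij, ne_of _ _ (by rw [p2, p4]; linarith), ne_of _ _ (by rw [p2, p5]; linarith),
        ne_of _ _ (by rw [p2, p6]; linarith), ne_of _ _ (by rw [p2, p7]; linarith)⟩
    · simp only [Finset.mem_insert, Finset.mem_singleton, not_or]
      exact ⟨ne_of _ _ (by rw [p1, p2]; linarith), ne_of _ _ (by rw [p1, p3]; linarith),
        ne_of _ _ (by rw [p1, p4]; linarith), ne_of _ _ (by rw [p1, p5]; linarith),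
        ne_of _ _ (by rw [p1, p6]; linarith), ne_of _ _ (by rw [p1, p7]; linarith)⟩
    · simp only [Finset.mem_insert, Finset.mem_singleton, not_or]
      exact ⟨ne_of _ _ (by rw [p0, p1]; linarith), ne_of _ _ (by rw [p0, p2]; linarith),
        ne_of _ _ (by rw [p0, p3]; linarith), ne_of _ _ (by rw [p0, p4]; linarith),
        ne_of _ _ (by rw [p0, p5]; linarith), ne_of _ _ (by rw [p0, p6]; linarith),
        ne_of _ _ (by rw [p0, p7]; linarith)⟩
  have hall : ∀ m : Fin d, m = i0 ∨ m = i1 ∨ m = i ∨ m = j ∨ m = i' ∨ m = j' ∨ m = j1 ∨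
      m = j0 := by
    intro m
    have h1 : ({i0, i1, i, j, i', j', j1, j0} : Finset (Fin d)) = Finset.univ := by
      apply Finset.eq_univ_of_card
      have h2 := Finset.card_le_univ ({i0, i1, i, j, i', j', j1, j0} : Finset (Fin d))
      rw [hcard] at h2 ⊢
      rw [Fintype.card_fin] at h2 ⊢
      omega
    have h2 := Finset.mem_univ m
    rw [← h1] at h2
    simpa only [Finset.mem_insert, Finset.mem_singleton] using h2
  -- the weights
  have hwt : ∀ m : Fin d, χ m = a ∨ χ m = c ∨ χ m = ν ∨ χ m = -ν ∨ χ m = -c ∨ χ m = -a := by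
    intro m
    rcases hall m with e | e | e | e | e | e | e | e
    · exact Or.inl (e ▸ ha)
    · exact Or.inr (Or.inl (e ▸ hc))
    · exact Or.inr (Or.inr (Or.inl (e ▸ hν)))
    · exact Or.inr (Or.inr (Or.inl (e ▸ hνj)))
    · exact Or.inr (Or.inr (Or.inr (Or.inl (e ▸ hi'))))
    · exact Or.inr (Or.inr (Or.inr (Or.inl (e ▸ hj'))))
    · exact Or.inr (Or.inr (Or.inr (Or.inr (Or.inl (e ▸ hj1)))))
    · exact Or.inr (Or.inr (Or.inr (Or.inr (Or.inr (e ▸ hj0)))))
  have hdouble : ∀ m m', m ≠ m' → χ m = χ m' → χ m = ν ∨ χ m = -ν := by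
    intro m m' hne hmm
    have q : φ (χ m) = φ (χ m') := by rw [hmm]
    rcases hwt m with hm | hm | hm | hm | hm | hm
    · exfalso
      rw [hm] at hmm
      exact hne ((W.top_simple hT hN (hm.trans ha.symm)).trans
        (W.top_simple hT hN (hmm.symm.trans ha.symm)).symm)
    · exfalso
      rw [hm] at hmm
      exact hne ((hs1 m (hm.trans hc.symm)).trans (hs1 m' (hmm.symm.trans hc.symm)).symm)
    · exact Or.inl hm
    · exact Or.inr hm
    · exfalso
      rw [hm] at hmm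
      exact hne (W.neg_simple F hs1 (hm.trans (by rw [hc])) (hmm.symm.trans (by rw [hc])))
    · exfalso
      rw [hm] at hmm
      exact hne (W.neg_simple F (fun k hk => W.top_simple hT hN hk) (hm.trans (by rw [ha]))
        (hmm.symm.trans (by rw [ha])))
  -- the roots
  have hνa : ν ≠ χ i0 := by rw [← hν]; exact hia
  have babove : ∀ m, φ ν < φ (χ m) → m = i0 ∨ m = i1 := by
    intro m hm
    rcases hall m with e | e | e | e | e | e | e | e
    · exact Or.inl e
    · exact Or.inr e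
    all_goals
      exfalso
      rw [e] at hm
      linarith
  have hspan : ∀ k, χ k = ν → b k ∈ Submodule.span ℂ {v | ∃ m, φ ν < φ (χ m) ∧
      ν - χ m ∈ S.R.Φ ∧ v = S.e (ν - χ m) (b m)} := by
    intro k hk
    have := W.wt k
    rw [hk] at this
    exact W.low hT hN (W.mem k) this hνa
  have hroot : ∀ k k' : Fin d, (∀ m, φ ν < φ (χ m) → m = k ∨ m = k') → ν - χ k ∈ S.R.Φ := by
    intro k k' hkk
    by_contra hnr
    have h2 : Submodule.span ℂ {v | ∃ m, φ ν < φ (χ m) ∧ ν - χ m ∈ S.R.Φ ∧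
        v = S.e (ν - χ m) (b m)} ≤ Submodule.span ℂ {S.e (ν - χ k') (b k')} := by
      rw [Submodule.span_le]
      rintro _ ⟨m, hm1, hm2, rfl⟩
      rcases hkk m hm1 with rfl | rfl
      · exact absurd hm2 hnr
      · exact Submodule.mem_span_singleton_self _
    obtain ⟨r, hr⟩ := Submodule.mem_span_singleton.1 (h2 (hspan i hν))
    obtain ⟨r', hr'⟩ := Submodule.mem_span_singleton.1 (h2 (hspan j hνj))
    exact hij (W.not_both hr.symm hr'.symm)
  have hγ : a - ν ∈ S.R.Φ := by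
    have h1 := S.R.neg _ (hroot i0 i1 babove)
    rwa [ha, neg_sub] at h1
  have hβ : c - ν ∈ S.R.Φ := by
    have h1 := S.R.neg _ (hroot i1 i0 fun m hm => (babove m hm).symm)
    rwa [hc, neg_sub] at h1
  -- the reflections
  have key : ∀ (m1 : Fin d) (c' : Module.Dual ℂ T), χ m1 = c' → φ ν < φ c' → c' - ν ∈ S.R.Φ →
      (S.R.pr (c' - ν) ν = 0 ∧ S.R.pr (c' - ν) c' = 2 ∧ ∃ m, χ m = ν + ν - c') ∨
        ((2 : ℚ) • ν = S.R.pr (c' - ν) ν • (c' - ν) ∧ 0 < S.R.pr (c' - ν) ν) := by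
    intro m1 c' hm1 hlt hβ'
    have hb2 := S.R.two _ hβ'
    rw [map_sub] at hb2
    obtain ⟨i2, j2, hne2, hi2, hj2⟩ := W.refl2 hN hβ' hij h
    rw [hν] at hi2 hj2
    rcases hdouble i2 j2 hne2 (hi2.trans hj2.symm) with h1 | h1
    · left
      rw [hi2, sub_eq_self] at h1
      have hz : S.R.pr (c' - ν) ν = 0 := by
        by_contra hz
        have h3 := congrArg φ h1
        rw [map_smul, map_sub, map_zero, smul_eq_mul] at h3
        rcases mul_eq_zero.1 h3 with h4 | h4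
        · exact hz h4
        · linarith
      have hpc : S.R.pr (c' - ν) c' = 2 := by linarith
      refine ⟨hz, hpc, ?_⟩
      obtain ⟨m, hm⟩ := W.refl1 hN hβ' m1
      rw [hm1, hpc, two_smul] at hm
      exact ⟨m, by rw [hm]; abel⟩
    · right
      rw [hi2] at h1
      have h3 : (2 : ℚ) • ν = S.R.pr (c' - ν) ν • (c' - ν) := by
        rw [two_smul]
        have h4 : ν = -ν + S.R.pr (c' - ν) ν • (c' - ν) := by
          rw [← h1]; abel
        nth_rewrite 1 [h4]
        abel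
      refine ⟨h3, ?_⟩
      have h4 := congrArg φ h3
      rw [map_smul, map_smul, map_sub, smul_eq_mul, smul_eq_mul] at h4
      have h5 : 0 < S.R.pr (c' - ν) ν * (φ c' - φ ν) := by
        rw [← h4]
        linarith
      exact (pos_iff_pos_of_mul_pos h5).2 (by linarith)
  have three : ∀ (c' : Module.Dual ℂ T) (p : Module.Dual ℂ T →ₗ[ℚ] ℚ), p ν = 0 → p c' = 2 →
      -ν ≠ ν + ν - c' := by
    intro c' p h1 h2 h3
    have h4 := congrArg p h3
    rw [map_neg, map_sub, map_add, h1, h2] at h4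
    norm_num at h4
  obtain ⟨k1, k1'⟩ : (2 : ℚ) • ν = S.R.pr (c - ν) ν • (c - ν) ∧ 0 < S.R.pr (c - ν) ν := by
    rcases key i1 c hc e2 hβ with ⟨h1, h2, m, hm⟩ | h1
    · exfalso
      have hφm : φ (χ m) = φ ν + φ ν - φ c := by rw [hm, map_sub, map_add]
      rcases hwt m with h5 | h5 | h5 | h5 | h5 | h5
      · rw [h5] at hφm; linarith
      · rw [h5] at hφm; linarith
      · rw [h5] at hφm; linarith
      · exact three c _ h1 h2 (h5.symm.trans hm)
      · rw [h5, map_neg] at hφm; linarith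
      · rw [h5, map_neg] at hφm; linarith
    · exact h1
  obtain ⟨k, hk⟩ : ∃ k, S.R.pr (c - ν) ν = k := ⟨_, rfl⟩
  rw [hk] at k1 k1'
  rcases key i0 a ha (e2.trans e1) hγ with ⟨h1, h2, m, hm⟩ | ⟨h1, h2⟩
  · have hφm : φ (χ m) = φ ν + φ ν - φ a := by rw [hm, map_sub, map_add]
    rcases hwt m with h5 | h5 | h5 | h5 | h5 | h5
    · rw [h5] at hφm; linarith
    · rw [h5] at hφm; linarith
    · rw [h5] at hφm; linarith
    · exact three a _ h1 h2 (h5.symm.trans hm)
    · -- `a = 2 ν + c`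
      have h6 : a - ν = (1 + k) • (c - ν) := by
        have h7 : a = ν + ν + c := by
          have := h5.symm.trans hm
          have h8 : a = ν + ν - (ν + ν - a) := by abel
          rw [h8, ← this]
          abel
        rw [add_smul, one_smul, ← k1, two_smul, h7]
        abel
      rw [h6] at hγ
      rcases S.R.red _ hβ _ hγ with h7 | h7 <;> linarith
    · rw [h5, map_neg] at hφm; linarith
  · obtain ⟨k', hk'⟩ : ∃ k', S.R.pr (a - ν) ν = k' := ⟨_, rfl⟩
    rw [hk'] at h1 h2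
    have h6 : a - ν = (k / k') • (c - ν) := by
      rw [div_eq_inv_mul, mul_smul, ← k1, h1, smul_smul, inv_mul_cancel₀ h2.ne', one_smul]
    have hγ' := hγ
    rw [h6] at hγ'
    have hkk : 0 < k / k' := div_pos k1' h2
    rcases S.R.red _ hβ _ hγ' with h7 | h7
    · rw [h7, one_smul] at h6
      have h8 : a = c := sub_left_injective h6
      rw [h8] at e1
      exact lt_irrefl _ e1
    · linarith

/-- **The nonzero weights are simple.** -/
theorem simple_of_ne (hd : d ≤ 8) {i j : Fin d} (h : χ i = χ j) (h0 : χ i ≠ 0) : i = j := by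
  by_contra hij
  rcases lt_trichotomy (φ (χ i)) 0 with h1 | h1 | h1
  · obtain ⟨i', j', h2, h3, h4⟩ := W.neg2 F hij h
    refine W.simple_pos F hN hT hd h2 (h3.trans h4.symm) ?_
    rw [h3, map_neg]
    linarith
  · exact h0 (hT.zero i h1)
  · exact W.simple_pos F hN hT hd hij h h1

/-- **Symplectic case: zero is not a weight.** -/
theorem ne_zero (hε : ε = -1) (hd : d ≤ 8) (i : Fin d) : χ i ≠ 0 := by
  intro h0
  have h1 : χ i0 ≠ 0 := by
    intro h1
    -- all weights are zero, so `N` is one-dimensional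
    have h2 : ∀ m, χ m = χ i0 := by
      intro m
      obtain ⟨m', hm'⟩ := W.exists_neg F m
      have h3 := hT.max m
      have h4 := hT.max m'
      rw [hm', map_neg, h1, map_zero] at h4
      rw [h1, map_zero] at h3
      rw [h1]
      exact hT.zero m (by linarith)
    obtain ⟨k, hk⟩ := W.partner F i0
    rw [W.top_simple hT hN (h2 k)] at hk
    have h5 := F.sym _ (W.mem i0) _ (W.mem i0)
    rw [hε] at h5
    exact hk (by linear_combination (1 / 2) * h5)
  have h2 := W.wt i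
  rw [h0] at h2
  have h3 := W.low hT hN (W.mem i) h2 (Ne.symm h1)
  have h4 : {v | ∃ m, φ 0 < φ (χ m) ∧ 0 - χ m ∈ S.R.Φ ∧ v = S.e (0 - χ m) (b m)} = ∅ := by
    refine Set.eq_empty_iff_forall_notMem.2 ?_
    rintro v ⟨m, hm, hr, -⟩
    rw [map_zero] at hm
    have h5 : χ m ≠ 0 := by
      intro h6
      rw [h6, map_zero] at hm
      exact lt_irrefl _ hm
    have h6 := S.R.neg _ hr
    rw [neg_sub, sub_zero] at h6
    refine W.no_root F hN hε (fun j hj => ?_) h6
    exact (W.simple_of_ne F hN hT hd hj.symm h5).symm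
  rw [h4, Submodule.span_empty, Submodule.mem_bot] at h3
  exact W.ne i h3

end Simple

end WB

end RS

end Pool.Agent.R912
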