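import Pool.Agent.R912.Q.Cube2

set_option autoImplicit false
set_option linter.unusedSectionVars false

/-!
# Irreducible spaces of dimension two and four
-/

open Module Matrix

namespace Pool.Agent.R912

open Pool.Agent.Y102.SP Q

attribute [local instance 100] LieRing.ofAssociativeRing

variable {U : Type} [AddCommGroup U] [Module ℂ U] [FiniteDimensional ℂ U]
  {T : Type} [AddCommGroup T] [Module ℂ T] {L : Submodule ℂ (Module.End ℂ U)}

/-- the multiplicity of an index -/
def cnt {k : ℕ} (i : Fin k) (p : Fin k × Bool) : ℤ := if p.1 = i then (if p.2 then 1 else -1) else 0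

/-- the multiplicities -/
def NN {k : ℕ} (i : Fin k) (a b c d : Fin k × Bool) : ℤ := cnt i a + cnt i b + cnt i c + cnt i d

theorem til_cnt {k : ℕ} (f : Fin k → ℤ) (p : Fin k × Bool) : til f p = ∑ i, cnt i p * f i := by
  rw [Finset.sum_eq_single p.1]
  · unfold til cnt
    rw [if_pos rfl]
    split_ifs <;> ring
  · intro i _ hi
    unfold cnt
    rw [if_neg (Ne.symm hi), zero_mul]
  · intro h
    exact absurd (Finset.mem_univ _) h

theorem til_NN {k : ℕ} (f : Fin k → ℤ) (a b c d : Fin k × Bool) :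
    til f a + til f b + til f c + til f d = ∑ i, NN i a b c d * f i := by
  simp only [til_cnt, NN, add_mul, Finset.sum_add_distrib]

theorem NN2 : ∀ a b c d : Fin 2 × Bool, ((a = b ∧ b = c) ∨ (a = b ∧ b = d) ∨ (a = c ∧ c = d) ∨
    (b = c ∧ c = d)) ∨ NN 0 a b c d = 0 ∨ NN 1 a b c d = 0 ∨ NN 0 a b c d = NN 1 a b c d ∨
    NN 0 a b c d = -NN 1 a b c d := by
  decide +kernel

/-- the form vanishes if three variables are equal -/
structure Three (N : Submodule ℂ U) (ψ : Q4 U) : Prop where
  t1 : ∀ u ∈ N, ∀ v ∈ N, ψ u u u v = 0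
  t2 : ∀ u ∈ N, ∀ v ∈ N, ψ u u v u = 0
  t3 : ∀ u ∈ N, ∀ v ∈ N, ψ u v u u = 0
  t4 : ∀ u ∈ N, ∀ v ∈ N, ψ v u u u = 0

namespace SB

variable {S : RS L T} {N : Submodule ℂ U} {B : U →ₗ[ℂ] U →ₗ[ℂ] ℂ} {ε : ℂ} {k : ℕ}
  {e : Fin k × Bool → U} {w : Fin k × Bool → Module.Dual ℂ T}

theorem w_cnt (h : SB S N B ε k e w) (p : Fin k × Bool) :
    w p = ∑ i, ((cnt i p : ℤ) : ℚ) • w (i, true) := by
  rw [Finset.sum_eq_single p.1]
  · unfold cnt
    rw [if_pos rfl]
    obtain ⟨i, _ | _⟩ := p
    · have h1 := h.wbar (i, true)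
      have h2 : bar ((i, true) : Fin k × Bool) = (i, false) := rfl
      rw [h2] at h1
      rw [h1]
      simp
    · simp
  · intro i _ hi
    unfold cnt
    rw [if_neg (Ne.symm hi), Int.cast_zero, zero_smul]
  · intro h
    exact absurd (Finset.mem_univ _) h

theorem w_NN (h : SB S N B ε k e w) (a b c d : Fin k × Bool) :
    w a + w b + w c + w d = ∑ i, ((NN i a b c d : ℤ) : ℚ) • w (i, true) := by
  rw [h.w_cnt a, h.w_cnt b, h.w_cnt c, h.w_cnt d]
  simp only [NN, Int.cast_add, add_smul, Finset.sum_add_distrib]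

theorem reg1 {e : Fin 1 × Bool → U} {w : Fin 1 × Bool → Module.Dual ℂ T}
    (h : SB S N B ε 1 e w) {ψ : Q4 U} (hψ : ∀ x ∈ L, Kill4 N ψ x) {a b c d : Fin 1 × Bool}
    (hne : Fψ ψ e a b c d ≠ 0) (f : Fin 1 → ℤ) : til f a + til f b + til f c + til f d = 0 := by
  have h1 := h.wt_zero' hψ hne
  rw [h.w_NN, Fin.sum_univ_one] at h1
  rw [til_NN, Fin.sum_univ_one]
  have h2 := (smul_eq_zero.1 h1).resolve_right (h.ne _)
  have h3 : NN 0 a b c d = 0 := by exact_mod_cast h2
  rw [h3, zero_mul]

section Two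

variable {e : Fin 2 × Bool → U} {w : Fin 2 × Bool → Module.Dual ℂ T}
  (h : SB S N B ε 2 e w) {ψ : Q4 U} (hψ : ∀ x ∈ L, Kill4 N ψ x)
include h hψ

theorem reg2 (h3 : Three N ψ) {a b c d : Fin 2 × Bool}
    (hne : Fψ ψ e a b c d ≠ 0) (f : Fin 2 → ℤ) : til f a + til f b + til f c + til f d = 0 := by
  have h1 := h.wt_zero' hψ hne
  rw [h.w_NN, Fin.sum_univ_two] at h1
  rw [til_NN, Fin.sum_univ_two]
  have hw0 := h.ne (0, true)
  have hw1 := h.ne (1, true)
  have hp : w (0, true) + w (1, true) ≠ 0 := by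
    intro h4
    have h5 := h.wbar (1, true)
    rw [← eq_neg_of_add_eq_zero_left h4] at h5
    have h6 := h.inj _ _ h5
    simp [bar] at h6
  have hm : w (0, true) - w (1, true) ≠ 0 := by
    intro h4
    have h6 := h.inj _ _ (sub_eq_zero.1 h4)
    simp at h6
  have key : NN 0 a b c d = 0 ∧ NN 1 a b c d = 0 := by
    rcases NN2 a b c d with h4 | h4 | h4 | h4 | h4
    · exfalso
      apply hne
      rcases h4 with ⟨rfl, rfl⟩ | ⟨rfl, rfl⟩ | ⟨rfl, rfl⟩ | ⟨rfl, rfl⟩
      · exact h3.t1 _ (h.mem _) _ (h.mem _)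
      · exact h3.t2 _ (h.mem _) _ (h.mem _)
      · exact h3.t3 _ (h.mem _) _ (h.mem _)
      · exact h3.t4 _ (h.mem _) _ (h.mem _)
    · rw [h4, Int.cast_zero, zero_smul, zero_add] at h1
      have h2 := (smul_eq_zero.1 h1).resolve_right hw1
      exact ⟨h4, by exact_mod_cast h2⟩
    · rw [h4, Int.cast_zero, zero_smul, add_zero] at h1
      have h2 := (smul_eq_zero.1 h1).resolve_right hw0
      exact ⟨by exact_mod_cast h2, h4⟩
    · rw [h4, ← smul_add] at h1
      have h2 := (smul_eq_zero.1 h1).resolve_right hp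
      have h5 : NN 1 a b c d = 0 := by exact_mod_cast h2
      exact ⟨h4.trans h5, h5⟩
    · rw [h4, Int.cast_neg, neg_smul, ← smul_neg, ← smul_add, neg_add_eq_sub,
        ← neg_sub, smul_neg, neg_eq_zero] at h1
      have h2 := (smul_eq_zero.1 h1).resolve_right hm
      have h5 : NN 1 a b c d = 0 := by exact_mod_cast h2
      exact ⟨by rw [h4, h5, neg_zero], h5⟩
  rw [key.1, key.2]
  ring

theorem reg2' (hr : ∀ p q : Fin 2 × Bool, p.1 ≠ q.1 → w p - w q ∈ S.R.Φ)
    {a b c d : Fin 2 × Bool} (hne : Fψ ψ e a b c d ≠ 0) (f : Fin 2 → ℤ) :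
    til f a + til f b + til f c + til f d = 0 := by
  have h1 := h.wt_zero' hψ hne
  rw [h.w_NN, Fin.sum_univ_two] at h1
  rw [til_NN, Fin.sum_univ_two]
  have hw0 := h.ne (0, true)
  have hw1 := h.ne (1, true)
  have hm := hr (0, true) (1, true) (by simp)
  have hp : w (0, true) + w (1, true) ∈ S.R.Φ := by
    have h4 := hr (0, true) (1, false) (by simp)
    have h5 := h.wbar (1, true)
    have h6 : bar ((1, true) : Fin 2 × Bool) = (1, false) := rfl
    rw [h6] at h5
    rwa [h5, sub_neg_eq_add] at h4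
  obtain ⟨s, hs⟩ : ∃ s : ℚ, s = (((NN 0 a b c d : ℤ) : ℚ) + ((NN 1 a b c d : ℤ) : ℚ)) / 2 :=
    ⟨_, rfl⟩
  obtain ⟨t, ht⟩ : ∃ t : ℚ, t = (((NN 0 a b c d : ℤ) : ℚ) - ((NN 1 a b c d : ℤ) : ℚ)) / 2 :=
    ⟨_, rfl⟩
  have h2 : s • (w (0, true) + w (1, true)) + t • (w (0, true) - w (1, true)) = 0 := by
    rw [← h1, hs, ht]
    module
  have hs0 : s = 0 := by
    by_contra hs0
    have h5 : w (0, true) + w (1, true) = (-t / s) • (w (0, true) - w (1, true)) := by
      have h6 : s • (w (0, true) + w (1, true)) = (-t) • (w (0, true) - w (1, true)) := by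
        rw [neg_smul]
        exact eq_neg_of_add_eq_zero_left h2
      rw [div_eq_inv_mul, mul_smul, ← h6, smul_smul, inv_mul_cancel₀ hs0, one_smul]
    rw [h5] at hp
    rcases S.R.red _ hm _ hp with h6 | h6
    · rw [h6, one_smul] at h5
      apply hw1
      have h7 : (2 : ℚ) • w (1, true) = 0 := by
        linear_combination (norm := module) h5
      exact (smul_eq_zero.1 h7).resolve_left two_ne_zero
    · rw [h6] at h5
      apply hw0
      have h7 : (2 : ℚ) • w (0, true) = 0 := by
        linear_combination (norm := module) h5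
      exact (smul_eq_zero.1 h7).resolve_left two_ne_zero
  have ht0 : t = 0 := by
    rw [hs0, zero_smul, zero_add] at h2
    exact (smul_eq_zero.1 h2).resolve_right fun h7 => S.R.zero (h7 ▸ hm)
  have k0 : ((NN 0 a b c d : ℤ) : ℚ) = 0 := by linarith
  have k1 : ((NN 1 a b c d : ℤ) : ℚ) = 0 := by linarith
  have k0' : NN 0 a b c d = 0 := by exact_mod_cast k0
  have k1' : NN 1 a b c d = 0 := by exact_mod_cast k1
  rw [k0', k1']
  ring

end Two

end SB

/-! ## The orthogonal case -/

namespace RS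

variable {S : RS L T}

namespace WB

variable {N : Submodule ℂ U} {d : ℕ} {b : Fin d → U} {χ : Fin d → Module.Dual ℂ T}
  (W : S.WB N d b χ) {B : U →ₗ[ℂ] U →ₗ[ℂ] ℂ} (F : Frm L N B 1) (hN : IrrSub L N)
  {φ : Module.Dual ℂ T →ₗ[ℚ] ℚ} {i0 : Fin d} (hT : Top S χ φ i0)
include W F hN hT

theorem orth_zero {x : Module.End ℂ U} (hx : x ∈ L) (i : Fin d) : B (x (b i)) (b i) = 0 := by
  have h1 := F.skew x hx _ (W.mem i) _ (W.mem i)
  have h2 := F.sym _ (W.mem i) _ (hN.stab x hx _ (W.mem i))
  linear_combination (1 / 2) * h1 - (1 / 2) * h2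

theorem orth_top (hd : 1 < d) : 0 < φ (χ i0) := by
  obtain ⟨j, hj⟩ := W.exists_neg F i0
  have h1 := hT.max j
  rw [hj, map_neg] at h1
  have h2 : 0 ≤ φ (χ i0) := by linarith
  refine lt_of_le_of_ne h2 fun h3 => ?_
  have h4 := hT.zero _ h3.symm
  have h5 : ∀ m, m = i0 := by
    intro m
    apply W.top_simple hT hN
    obtain ⟨m', hm'⟩ := W.exists_neg F m
    have h6 := hT.max m
    have h7 := hT.max m'
    rw [hm', map_neg, ← h3] at h7
    rw [← h3] at h6
    rw [h4]
    exact hT.zero m (by linarith)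
  have h6 : (⟨0, by omega⟩ : Fin d) = ⟨1, hd⟩ := (h5 _).trans (h5 _).symm
  simp at h6

theorem exists_second (hd : 1 < d) :
    ∃ i1, χ i1 ≠ χ i0 ∧ ∀ m, χ m ≠ χ i0 → φ (χ m) ≤ φ (χ i1) := by
  classical
  have h0 := W.orth_top F hN hT hd
  obtain ⟨j, hj⟩ := W.exists_neg F i0
  have hjne : χ j ≠ χ i0 := by
    intro h1
    rw [hj] at h1
    have h2 := congrArg φ h1
    rw [map_neg] at h2
    linarith
  obtain ⟨i1, h1, h2⟩ := Finset.exists_max_image
    (Finset.univ.filter fun m => χ m ≠ χ i0) (fun m => φ (χ m)) ⟨j, by simp [hjne]⟩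
  exact ⟨i1, (Finset.mem_filter.1 h1).2, fun m hm => h2 m (by simp [hm])⟩

/-- The opposite of the highest weight is not the second weight. -/
theorem orth_ne {i1 : Fin d} (h10 : χ i1 ≠ χ i0)
    (hmax : ∀ i, χ i ≠ χ i0 → φ (χ i) ≤ φ (χ i1)) : χ i1 ≠ -χ i0 := by
  intro h1
  obtain ⟨hs, hr, c, hc, he⟩ := W.second hT hN h10 hmax
  have h2 := W.orth_zero F hN hT (S.emem _ hr) i0
  rw [he, map_smul, LinearMap.smul_apply, smul_eq_mul] at h2
  have h3 := (mul_eq_zero.1 h2).resolve_left hc
  obtain ⟨j, hj⟩ := W.partner F i0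
  have h4 := W.partner_wt F hj
  rw [← h1] at h4
  rw [hs j h4, F.sym _ (W.mem _) _ (W.mem _), h3, mul_zero] at hj
  exact hj rfl

theorem orth_two (hd : d = 2) : False := by
  classical
  obtain ⟨i1, h10, hmax⟩ := W.exists_second F hN hT (by omega)
  have h1 := W.orth_ne F hN hT h10 hmax
  obtain ⟨hs, -, -⟩ := W.second hT hN h10 hmax
  obtain ⟨j, hj⟩ := W.exists_neg F i0
  have h0 := W.orth_top F hN hT (by omega)
  have e1 : j ≠ i0 := by
    rintro rfl
    have := congrArg φ hj
    rw [map_neg] at this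
    linarith
  have e2 : j ≠ i1 := by
    rintro rfl
    exact h1 hj
  have e3 : i1 ≠ i0 := fun h => h10 (by rw [h])
  have hcard : ({i0, i1, j} : Finset (Fin d)).card = 3 := by
    rw [Finset.card_insert_of_notMem, Finset.card_insert_of_notMem, Finset.card_singleton]
    · simpa using Ne.symm e2
    · simpa using ⟨Ne.symm e3, Ne.symm e1⟩
  have h2 := Finset.card_le_univ ({i0, i1, j} : Finset (Fin d))
  rw [hcard, Fintype.card_fin] at h2
  omega

/-- Dimension four. -/
theorem orth_four (hd : d = 4) : (∀ i, χ i ≠ 0) ∧ (∀ i j, χ i = χ j → i = j) ∧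
    ∀ i j, χ i ≠ χ j → χ i ≠ -χ j → χ i - χ j ∈ S.R.Φ := by
  classical
  obtain ⟨i1, h10, hmax⟩ := W.exists_second F hN hT (by omega)
  have hne := W.orth_ne F hN hT h10 hmax
  obtain ⟨hs1, hr, -⟩ := W.second hT hN h10 hmax
  obtain ⟨j0, hj0⟩ := W.exists_neg F i0
  obtain ⟨j1, hj1⟩ := W.exists_neg F i1
  have hpos := W.orth_top F hN hT (by omega)
  obtain ⟨a, ha⟩ : ∃ a, χ i0 = a := ⟨_, rfl⟩
  obtain ⟨c, hc⟩ : ∃ c, χ i1 = c := ⟨_, rfl⟩
  have hlt : φ c < φ a := by
    rw [← ha, ← hc]
    exact lt_of_le_of_ne (hT.max i1) fun e => h10 (hT.inj _ _ e)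
  rw [ha] at hj0 hpos
  rw [hc] at hj1
  have hc0 : 0 ≤ φ c := by
    have h1 : χ j1 ≠ χ i0 := by
      intro h2
      apply hne
      rw [hc, ← neg_neg c, ← hj1, h2]
    have h2 := hmax j1 h1
    rw [hj1, hc, map_neg] at h2
    linarith
  have hcpos : 0 < φ c := by
    refine lt_of_le_of_ne hc0 fun h0 => ?_
    have h1 : c = 0 := by
      rw [← hc]
      exact hT.zero i1 (by rw [hc]; exact h0.symm)
    -- all weights are `a`, `0`, `-a`
    have hall : ∀ m, m = i0 ∨ m = i1 ∨ m = j0 := by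
      intro m
      by_cases m1 : χ m = χ i0
      · exact Or.inl (W.top_simple hT hN m1)
      · by_cases m2 : χ m = χ j0
        · right; right
          exact W.neg_simple F (fun k hk => W.top_simple hT hN hk) (i := i0)
            (m2.trans (by rw [hj0, ha])) (by rw [hj0, ha])
        · right; left
          apply hs1
          rw [hc, h1]
          apply hT.zero
          have h3 := hmax m m1
          obtain ⟨m', hm'⟩ := W.exists_neg F m
          have h4 : χ m' ≠ χ i0 := by
            intro h5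
            apply m2
            rw [hj0, ← ha, ← h5, hm', neg_neg]
          have h5 := hmax m' h4
          rw [hm', map_neg, hc, ← h0] at h5
          rw [hc, ← h0] at h3
          linarith
    have h2 : (Finset.univ : Finset (Fin d)) ⊆ {i0, i1, j0} := by
      intro m _
      simpa using hall m
    have h3 := Finset.card_le_card h2
    have h4 : ({i0, i1, j0} : Finset (Fin d)).card ≤ 3 := Finset.card_le_three
    rw [Finset.card_univ, Fintype.card_fin] at h3
    omega
  have p0 : φ (χ i0) = φ a := by rw [ha]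
  have p1 : φ (χ i1) = φ c := by rw [hc]
  have p2 : φ (χ j1) = -φ c := by rw [hj1, map_neg]
  have p3 : φ (χ j0) = -φ a := by rw [hj0, map_neg]
  have ne_of : ∀ x y : Fin d, φ (χ x) ≠ φ (χ y) → x ≠ y := fun x y hh e => hh (by rw [e])
  have hall : ∀ m : Fin d, m = i0 ∨ m = i1 ∨ m = j1 ∨ m = j0 := by
    intro m
    have hcard : ({i0, i1, j1, j0} : Finset (Fin d)).card = 4 := by
      rw [Finset.card_insert_of_notMem, Finset.card_insert_of_notMem,
        Finset.card_insert_of_notMem, Finset.card_singleton]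
      · rw [Finset.mem_singleton]
        exact ne_of _ _ (by rw [p2, p3]; linarith)
      · simp only [Finset.mem_insert, Finset.mem_singleton, not_or]
        exact ⟨ne_of _ _ (by rw [p1, p2]; linarith), ne_of _ _ (by rw [p1, p3]; linarith)⟩
      · simp only [Finset.mem_insert, Finset.mem_singleton, not_or]
        exact ⟨ne_of _ _ (by rw [p0, p1]; linarith), ne_of _ _ (by rw [p0, p2]; linarith),
          ne_of _ _ (by rw [p0, p3]; linarith)⟩
    have h1 : ({i0, i1, j1, j0} : Finset (Fin d)) = Finset.univ := by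
      apply Finset.eq_univ_of_card
      rw [hcard, Fintype.card_fin, hd]
    have h2 := Finset.mem_univ m
    rw [← h1] at h2
    simpa only [Finset.mem_insert, Finset.mem_singleton] using h2
  have hac : a - c ∈ S.R.Φ := by
    have h1 := S.R.neg _ hr
    rwa [hc, ha, neg_sub] at h1
  have hapc : a + c ∈ S.R.Φ := by
    by_contra hcon
    have h1 := W.wt j1
    rw [hj1] at h1
    have h2 := W.low hT hN (W.mem j1) h1 (by
      rw [ha]
      intro h3
      have h4 := congrArg φ h3
      rw [map_neg] at h4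
      linarith)
    have h3 : Submodule.span ℂ {v | ∃ m, φ (-c) < φ (χ m) ∧ -c - χ m ∈ S.R.Φ ∧
        v = S.e (-c - χ m) (b m)} ≤ ⊥ := by
      rw [Submodule.span_le]
      rintro _ ⟨m, hm1, hm2, rfl⟩
      rw [map_neg] at hm1
      rcases hall m with rfl | rfl | rfl | rfl
      · exfalso
        rw [ha] at hm2
        have h5 := S.R.neg _ hm2
        apply hcon
        have h6 : -(-c - a) = a + c := by abel
        rwa [h6] at h5
      · -- the orthogonality
        have h5 : S.e (-c - χ m) (b m) ∈ usp S.ι (-c) := by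
          have h6 := S.usp_mul (fun t => S.wt _ hm2 t) (W.wt m)
          rwa [sub_add_cancel] at h6
        have h7 : S.e (-c - χ m) (b m) ∈ N := hN.stab _ (S.emem _ hm2) _ (W.mem m)
        obtain ⟨r, hr'⟩ := W.of_usp1 h7 h5 (i := j1) fun j hj =>
          W.neg_simple F hs1 (hj.trans (by rw [hc])) (by rw [hj1, hc])
        have h8 := W.orth_zero F hN hT (S.emem _ hm2) m
        rw [hr', map_smul, LinearMap.smul_apply, smul_eq_mul] at h8
        have h9 : B (b j1) (b m) ≠ 0 := by
          obtain ⟨j, hj⟩ := W.partner F m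
          have h10 := W.neg_simple F hs1 (W.partner_wt F hj) (by rw [hj1, hc])
          rw [h10, F.sym _ (W.mem _) _ (W.mem _), one_mul] at hj
          exact hj
        have h10 := (mul_eq_zero.1 h8).resolve_right h9
        rw [SetLike.mem_coe, Submodule.mem_bot, hr', h10, zero_smul]
      · exfalso
        rw [p2] at hm1
        exact lt_irrefl _ hm1
      · exfalso
        rw [p3] at hm1
        linarith
    exact W.ne j1 ((Submodule.mem_bot ℂ).1 (h3 h2))
  have h1 := S.R.neg _ hac
  have h2 := S.R.neg _ hapc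
  refine ⟨fun i hi => ?_, fun i j hij => ?_, fun i j h3 h4 => ?_⟩
  · have hi' := congrArg φ hi
    rw [map_zero] at hi'
    rcases hall i with rfl | rfl | rfl | rfl <;> linarith
  · have hij' := congrArg φ hij
    rcases hall i with rfl | rfl | rfl | rfl <;> rcases hall j with rfl | rfl | rfl | rfl <;>
      first | rfl | (exfalso; linarith)
  · rcases hall i with rfl | rfl | rfl | rfl <;> rcases hall j with rfl | rfl | rfl | rfl <;>
      simp only [ha, hc, hj0, hj1] at h3 h4 ⊢ <;>
      first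
      | exact absurd rfl h3
      | exact absurd rfl h4
      | exact absurd (neg_neg _).symm h4
      | exact hac
      | (rw [neg_sub] at h1; exact h1)
      | (convert hapc using 1; abel1)
      | (convert hac using 1; abel1)
      | (convert h1 using 1; abel1)
      | (convert h2 using 1; abel1)

end WB

end RS

end Pool.Agent.R912
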