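import Pool.Agent.R912.Q.Ten

set_option autoImplicit false
set_option linter.unusedSectionVars false

/-!
# Generation of the symplectic and orthogonal Lie algebras
-/

open Matrix

namespace Pool.Agent.R912.Q

variable {k : ℕ}

/-- the diagonal entries -/
def til (h : Fin k → ℤ) (p : Fin k × Bool) : ℤ := if p.2 then h p.1 else -h p.1

theorem til_bar (h : Fin k → ℤ) (p : Fin k × Bool) : til h (bar p) = -til h p := by
  unfold til bar
  cases p.2 <;> simp

/-- the diagonal matrix -/
def dg (h : Fin k → ℤ) : Matrix (Fin k × Bool) (Fin k × Bool) ℂ :=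
  Matrix.diagonal fun p => ((til h p : ℤ) : ℂ)

theorem nrm_of_dg {M : Submodule ℂ (Matrix (Fin k × Bool) (Fin k × Bool) ℂ)}
    (hM : ∀ x ∈ M, ∀ y ∈ M, x * y - y * x ∈ M) {h : Fin k → ℤ} (hh : dg h ∈ M) :
    Nrm M (til h) := by
  intro x hx
  have h1 := hM _ hh x hx
  convert h1 using 1
  ext i j
  rw [Matrix.of_apply, Matrix.sub_apply, dg, Matrix.diagonal_mul, Matrix.mul_diagonal]
  push_cast
  ring

/-- the root vectors -/
def GG (ε : ℂ) (p q : Fin k × Bool) : Matrix (Fin k × Bool) (Fin k × Bool) ℂ :=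
  Matrix.single p q 1 - (sg ε p * sg ε q) • Matrix.single (bar q) (bar p) 1

theorem fst_ne {p q : Fin k × Bool} (h1 : p ≠ q) (h2 : p ≠ bar q) : p.1 ≠ q.1 := by
  intro h
  obtain ⟨a, b⟩ := p
  obtain ⟨c, d⟩ := q
  simp only [bar] at h1 h2 h
  subst h
  cases b <;> cases d <;> simp_all

section Gen

variable {ε : ℂ} {M : Submodule ℂ (Matrix (Fin k × Bool) (Fin k × Bool) ℂ)}
  (hε : ε * ε = 1) (hS : M ≤ Sk ε k) (hI : IrrOn M Set.univ) (hd : ∀ h : Fin k → ℤ, dg h ∈ M)
include hε hS hI hd

theorem GG_mem {p q : Fin k × Bool} (hpq : p.1 ≠ q.1) : GG ε p q ∈ M := by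
  classical
  obtain ⟨h, hh⟩ : ∃ h : Fin k → ℤ, h = fun i => if i = q.1 then (if q.2 then 5 else -5) else
      if i = p.1 then (if p.2 then 2 else -2) else 0 := ⟨_, rfl⟩
  have hq : til h q = 5 := by
    rw [hh]; unfold til; simp only [if_true]
    cases q.2 <;> simp
  have hp : til h p = 2 := by
    rw [hh]; unfold til; simp only [if_neg hpq, if_true]
    cases p.2 <;> simp
  have hall : ∀ i, i = q ∨ i = p ∨ i = bar q ∨ i = bar p ∨ til h i = 0 := by
    intro i
    by_cases h1 : i.1 = q.1
    · by_cases h2 : i = q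
      · exact Or.inl h2
      · by_cases h3 : i = bar q
        · exact Or.inr (Or.inr (Or.inl h3))
        · exact absurd h1 (fst_ne h2 h3)
    · by_cases h4 : i.1 = p.1
      · by_cases h2 : i = p
        · exact Or.inr (Or.inl h2)
        · by_cases h3 : i = bar p
          · exact Or.inr (Or.inr (Or.inr (Or.inl h3)))
          · exact absurd h4 (fst_ne h2 h3)
      · refine Or.inr (Or.inr (Or.inr (Or.inr ?_)))
        rw [hh]
        unfold til
        simp only [if_neg h1, if_neg h4]
        simp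
  have hval : ∀ i, (i = q ∧ til h i = 5) ∨ (i = p ∧ til h i = 2) ∨ (i = bar q ∧ til h i = -5) ∨
      (i = bar p ∧ til h i = -2) ∨ til h i = 0 := by
    intro i
    rcases hall i with h1 | h1 | h1 | h1 | h1
    · exact Or.inl ⟨h1, h1 ▸ hq⟩
    · exact Or.inr (Or.inl ⟨h1, h1 ▸ hp⟩)
    · exact Or.inr (Or.inr (Or.inl ⟨h1, by rw [h1, til_bar, hq]⟩))
    · exact Or.inr (Or.inr (Or.inr (Or.inl ⟨h1, by rw [h1, til_bar, hp]⟩)))
    · exact Or.inr (Or.inr (Or.inr (Or.inr h1)))
  obtain ⟨x, hx, hx0, hxz⟩ := hI.top_two (nrm_of_dg hI.br (hd h)) (i0 := q) (i1 := p)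
    (Set.mem_univ _) (Set.mem_univ _) (by rw [hp, hq]; norm_num) (by
      intro j _ h1 h2
      rw [hp]
      rcases hval j with h3 | h3 | h3 | h3 | h3
      · exact absurd h3.1 h1
      · exact absurd h3.1 h2
      · rw [h3.2]; norm_num
      · rw [h3.2]; norm_num
      · rw [h3]; norm_num)
  rw [hp, hq] at hxz
  have hpqb : p ≠ bar q := fun e => hpq (by rw [e]; rfl)
  have hxe : x = x p q • GG ε p q := by
    ext i j
    rw [Matrix.smul_apply, GG, Matrix.sub_apply, Matrix.smul_apply, smul_eq_mul, smul_eq_mul]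
    by_cases h1 : p = i ∧ q = j
    · obtain ⟨rfl, rfl⟩ := h1
      rw [Matrix.single_apply_same, Matrix.single_apply_of_ne, mul_zero, sub_zero, mul_one]
      rintro ⟨e, -⟩
      exact hpqb e.symm
    · by_cases h2 : bar q = i ∧ bar p = j
      · obtain ⟨rfl, rfl⟩ := h2
        rw [Matrix.single_apply_same, Matrix.single_apply_of_ne _ _ _ _ _ h1, Sk_bar hε (hS hx)]
        ring
      · rw [Matrix.single_apply_of_ne _ _ _ _ _ h1, Matrix.single_apply_of_ne _ _ _ _ _ h2,
          mul_zero, sub_zero, mul_zero]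
        refine hxz i j fun h3 => ?_
        rcases hval i with h4 | h4 | h4 | h4 | h4 <;> rcases hval j with h5 | h5 | h5 | h5 | h5 <;>
          first
          | (exact h1 ⟨h4.1.symm, h5.1.symm⟩)
          | (exact h2 ⟨h4.1.symm, h5.1.symm⟩)
          | (rw [h4.2, h5.2] at h3; norm_num at h3; done)
          | (rw [h4.2, h5] at h3; norm_num at h3; done)
          | (rw [h4, h5.2] at h3; norm_num at h3; done)
          | (rw [h4, h5] at h3; norm_num at h3; done)
  have h1 := M.smul_mem (x p q)⁻¹ hx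
  rw [hxe, smul_smul, ← hxe, inv_mul_cancel₀ hx0, one_smul] at h1
  exact h1

theorem GG_diag (p : Fin k × Bool) : GG ε p p ∈ M := by
  classical
  have h1 : GG ε p p = dg (fun i => if i = p.1 then (if p.2 then 1 else -1) else 0) := by
    ext i j
    rw [GG, sg_sq hε, one_smul, Matrix.sub_apply, dg, Matrix.diagonal_apply]
    obtain ⟨a, b⟩ := p
    obtain ⟨c, d⟩ := i
    obtain ⟨e, f⟩ := j
    unfold til bar
    simp only [Matrix.single_apply, Prod.mk.injEq]
    by_cases h1 : a = c
    · subst h1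
      by_cases h2 : a = e
      · subst h2
        cases b <;> cases d <;> cases f <;> simp
      · simp [h2]
    · simp [h1, Ne.symm h1]
  rw [h1]
  exact hd _

theorem GG_opp (h : ε = 1 ∨ ε = -1) (p : Fin k × Bool) : GG ε p (bar p) ∈ M := by
  classical
  have h0 : GG ε p (bar p) = (1 - ε) • Matrix.single p (bar p) (1 : ℂ) := by
    rw [GG, bar_bar, sg_bar hε, sub_smul, one_smul]
    congr 2
    linear_combination ε * sg_sq hε p
  rcases h with rfl | rfl
  · rw [h0, sub_self, zero_smul]
    exact M.zero_mem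
  rw [h0]
  refine M.smul_mem _ ?_
  have hpb : p ≠ bar p := by
    intro e
    have := congrArg Prod.snd e
    simp [bar] at this
  by_cases hk : ∃ q : Fin k × Bool, p.1 ≠ q.1
  · obtain ⟨q, hq⟩ := hk
    have hpq : p ≠ q := fun e => hq (by rw [e])
    have hpqb : p ≠ bar q := fun e => hq (by rw [e]; rfl)
    have hqpb : q ≠ bar p := fun e => hpqb (by rw [e, bar_bar])
    have hbb : bar p ≠ bar q := fun e => hpq (by rw [← bar_bar p, e, bar_bar])
    have h1 := GG_mem hε hS hI hd hq
    have h2 := GG_mem hε hS hI hd (p := q) (q := bar p) (Ne.symm hq)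
    have h3 := hI.br _ h1 _ h2
    have h4 : GG (-1) p q * GG (-1) q (bar p) - GG (-1) q (bar p) * GG (-1) p q =
        (2 : ℂ) • Matrix.single p (bar p) (1 : ℂ) := by
      unfold GG
      rw [bar_bar]
      simp only [mul_sub, sub_mul, smul_mul_assoc, mul_smul_comm,
        Matrix.single_mul_single_same, one_mul,
        Matrix.single_mul_single_of_ne _ _ _ _ hqpb.symm,
        Matrix.single_mul_single_of_ne _ _ _ _ hpb,
        Matrix.single_mul_single_of_ne _ _ _ _ hpb.symm,
        Matrix.single_mul_single_of_ne _ _ _ _ hbb,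
        Matrix.single_mul_single_of_ne _ _ _ _ hpqb.symm,
        Matrix.single_mul_single_of_ne _ _ _ _ hpqb,
        Matrix.single_mul_single_of_ne _ _ _ _ hpq.symm,
        smul_zero, sub_zero, zero_sub, smul_neg, sub_neg_eq_add]
      have e1 := sg_sq (ε := -1) (by norm_num) p
      have e2 := sg_sq (ε := -1) (by norm_num) q
      have e3 := sg_bar (ε := -1) (by norm_num) p
      rw [e3]
      simp only [smul_smul]
      rw [← sub_eq_zero]
      have e4 : ∀ a b : ℂ, a = b → a • Matrix.single p (bar p) (1 : ℂ) =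
        b • Matrix.single p (bar p) (1 : ℂ) := fun a b e => by rw [e]
      ext i j
      simp only [Matrix.sub_apply, Matrix.add_apply, Matrix.smul_apply, smul_eq_mul,
        Matrix.zero_apply, Matrix.neg_apply]
      linear_combination (Matrix.single p (bar p) (1 : ℂ) i j) * (sg (-1) p * sg (-1) p * e2 + e1)
    rw [h4] at h3
    have h5 := M.smul_mem (2 : ℂ)⁻¹ h3
    rwa [smul_smul, inv_mul_cancel₀ (by norm_num), one_smul] at h5
  · push Not at hk
    have hall : ∀ i : Fin k × Bool, i = p ∨ i = bar p := by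
      intro i
      by_contra hcon
      push Not at hcon
      exact fst_ne hcon.1 hcon.2 (hk i).symm
    obtain ⟨h, hh⟩ : ∃ h : Fin k → ℤ, h = fun _ => if p.2 then -1 else 1 := ⟨_, rfl⟩
    have hp : til h p = -1 := by
      rw [hh]; unfold til
      cases p.2 <;> simp
    obtain ⟨x, hx, hx0, hxz⟩ := hI.top_two (nrm_of_dg hI.br (hd h)) (i0 := bar p) (i1 := p)
      (Set.mem_univ _) (Set.mem_univ _) (by rw [til_bar, hp]; norm_num) (by
        intro j _ h1 h2
        rcases hall j with h3 | h3
        · exact absurd h3 h2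
        · exact absurd h3 h1)
    rw [til_bar, hp] at hxz
    have hxe : x = x p (bar p) • Matrix.single p (bar p) (1 : ℂ) := by
      ext i j
      rw [Matrix.smul_apply, smul_eq_mul]
      by_cases h1 : p = i ∧ bar p = j
      · obtain ⟨rfl, rfl⟩ := h1
        rw [Matrix.single_apply_same, mul_one]
      · rw [Matrix.single_apply_of_ne _ _ _ _ _ h1, mul_zero]
        refine hxz i j fun h3 => ?_
        rcases hall i with h4 | h4 <;> rcases hall j with h5 | h5
        · rw [h4, h5, hp] at h3; norm_num at h3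
        · exact h1 ⟨h4.symm, h5.symm⟩
        · rw [h4, h5, til_bar, hp] at h3; norm_num at h3
        · rw [h4, h5, til_bar, hp] at h3; norm_num at h3
    have h1 := M.smul_mem (x p (bar p))⁻¹ hx
    rw [hxe, smul_smul, ← hxe, inv_mul_cancel₀ hx0, one_smul] at h1
    exact h1

theorem GG_all (h : ε = 1 ∨ ε = -1) (p q : Fin k × Bool) : GG ε p q ∈ M := by
  by_cases h1 : q = p
  · rw [h1]; exact GG_diag hε hS hI hd p
  · by_cases h2 : q = bar p
    · rw [h2]; exact GG_opp hε hS hI hd h p
    · exact GG_mem hε hS hI hd (fst_ne h1 h2).symm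

/-- **Generation.** -/
theorem Sk_le (h : ε = 1 ∨ ε = -1) : Sk ε k ≤ M := by
  classical
  intro x hx
  have h1 : x = (2⁻¹ : ℂ) • ∑ p, ∑ q, x p q • GG ε p q := by
    have h2 : ∑ p, ∑ q, x p q • Matrix.single p q (1 : ℂ) = x := by
      conv_rhs => rw [Matrix.matrix_eq_sum_single x]
      refine Finset.sum_congr rfl fun p _ => Finset.sum_congr rfl fun q _ => ?_
      rw [Matrix.smul_single, smul_eq_mul, mul_one]
    have h3 : ∑ p, ∑ q, x p q • ((sg ε p * sg ε q) • Matrix.single (bar q) (bar p) (1 : ℂ)) =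
        -x := by
      rw [Finset.sum_comm]
      conv_rhs => rw [← h2]
      rw [← Finset.sum_neg_distrib]
      refine Fintype.sum_equiv (Function.Involutive.toPerm bar bar_bar) _ _ fun q => ?_
      rw [← Finset.sum_neg_distrib]
      refine Fintype.sum_equiv (Function.Involutive.toPerm bar bar_bar) _ _ fun p => ?_
      have e1 : (Function.Involutive.toPerm bar bar_bar) q = bar q := rfl
      have e2 : (Function.Involutive.toPerm bar bar_bar) p = bar p := rfl
      rw [e1, e2, Sk_bar hε hx q p, smul_smul, ← neg_smul]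
      congr 1
      ring
    have h4 : ∑ p, ∑ q, x p q • GG ε p q = x - -x := by
      rw [← h3]
      conv_rhs => rw [← h2]
      rw [← Finset.sum_sub_distrib]
      refine Finset.sum_congr rfl fun p _ => ?_
      rw [← Finset.sum_sub_distrib]
      refine Finset.sum_congr rfl fun q _ => ?_
      rw [h2, GG, smul_sub]
    rw [h4, sub_neg_eq_add, ← two_smul ℂ x, smul_smul, inv_mul_cancel₀ (by norm_num), one_smul]
  rw [h1]
  exact M.smul_mem _ (Submodule.sum_mem _ fun p _ => Submodule.sum_mem _ fun q _ =>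
    M.smul_mem _ (GG_all hε hS hI hd h p q))

end Gen

end Pool.Agent.R912.Q
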