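import Pool.Agent.R912.Q.TH2

set_option autoImplicit false
set_option linter.unusedSectionVars false
set_option linter.unusedSimpArgs false
set_option linter.unusedVariables false

/-!
# Orthogonal decompositions
-/

open Module Matrix

namespace Pool.Agent.R912

open Pool.Agent.Y102.SP Q

attribute [local instance 100] LieRing.ofAssociativeRing

variable {U : Type} [AddCommGroup U] [Module ℂ U] [FiniteDimensional ℂ U]
  {L : Submodule ℂ (Module.End ℂ U)} {ω : U →ₗ[ℂ] U →ₗ[ℂ] ℂ}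
  {T : Type} [AddCommGroup T] [Module ℂ T]

theorem finrank_irr_pos {N : Submodule ℂ U} (hN : IrrSub L N) : 0 < finrank ℂ N := by
  have : Nontrivial N := Submodule.nontrivial_iff_ne_bot.2 hN.ne
  exact finrank_pos

theorem exists_gb (S : RS L T) {N : Submodule ℂ U} (hN : IrrSub L N) (F : Frm L N ω (-1))
    {m : ℕ} (hm : finrank ℂ N = 2 * m) (h8 : finrank ℂ N ≤ 8) (c : ℕ) :
    ∃ e w, GB S N ω m (fun _ => c) e w := by
  obtain ⟨b, χ, W⟩ := S.exists_wb hN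
  obtain ⟨φ, i0, hT⟩ := RS.exists_top (S := S) (finrank_irr_pos hN) χ
  have k1 : ∀ i, χ i ≠ 0 := W.ne_zero F hN hT rfl h8
  have k2 : ∀ i j, χ i = χ j → i = j := fun i j hij => W.simple_of_ne F hN hT h8 hij (k1 i)
  obtain ⟨k, e, w, hSB⟩ := exists_sb W F hT k2 k1
  have hk : k = m := by
    have := hSB.finrank_eq neg1
    omega
  subst hk
  exact ⟨e, w, hSB.toGB hN c⟩

theorem no_orth_two (S : RS L T) {N : Submodule ℂ U} (hN : IrrSub L N)
    {B : U →ₗ[ℂ] U →ₗ[ℂ] ℂ} (F : Frm L N B 1) (h2 : finrank ℂ N = 2) : False := by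
  obtain ⟨b, χ, W⟩ := S.exists_wb hN
  obtain ⟨φ, i0, hT⟩ := RS.exists_top (S := S) (finrank_irr_pos hN) χ
  exact W.orth_two F hN hT h2

namespace THyp

variable (H : THyp L ω)
include H

/-- the form is nondegenerate on an irreducible subspace if it is not zero -/
theorem frm_ne {N : Submodule ℂ U} (hN : IrrSub L N) {n0 v0 : U} (hn0 : n0 ∈ N) (hv0 : v0 ∈ N)
    (h0 : ω n0 v0 ≠ 0) : Frm L N ω (-1) := by
  refine ⟨fun x hx u _ v _ => H.skew x hx u v, ?_, fun u _ v _ => by rw [H.alt]; ring⟩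
  have hst : ∀ x ∈ L, ∀ u ∈ N ⊓ oP ω N, x u ∈ N ⊓ oP ω N := fun x hx u hu =>
    ⟨hN.stab x hx u hu.1, H.oP_L hN.stab x hx u hu.2⟩
  by_cases hb : N ⊓ oP ω N = ⊥
  · intro u hu h1
    have : u ∈ N ⊓ oP ω N := ⟨hu, h1⟩
    rwa [hb, Submodule.mem_bot] at this
  · exfalso
    have h1 := hN.irr _ inf_le_left hst hb
    rw [← h1] at hv0
    exact h0 (hv0.2 n0 hn0)

theorem frm_nd {N : Submodule ℂ U} (hN : IrrSub L N)
    (hnd : ∀ u ∈ N, (∀ v ∈ N, ω v u = 0) → u = 0) : Frm L N ω (-1) :=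
  ⟨fun x hx u _ v _ => H.skew x hx u v, hnd, fun u _ v _ => by rw [H.alt]; ring⟩

/-- a nondegenerate irreducible subspace -/
theorem ndg (S : RS L T) {R : Submodule ℂ U} (hR : ∀ x ∈ L, ∀ u ∈ R, x u ∈ R)
    (hnd : ∀ u ∈ R, (∀ v ∈ R, ω v u = 0) → u = 0) (h0 : R ≠ ⊥)
    (h2 : ∀ N, IrrSub L N → N ≤ R → finrank ℂ N = 2) :
    ∃ V, IrrSub L V ∧ V ≤ R ∧ Frm L V ω (-1) := by
  obtain ⟨N, hN, hNR⟩ := exists_irrSub_le hR h0
  obtain ⟨p, hp, hpR, hpB⟩ := projG hR H.skew (B := ω) (fun x hx u _ v _ => H.skew x hx u v) hnd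
  obtain ⟨n0, hn0, hn00⟩ := (Submodule.ne_bot_iff N).1 hN.ne
  obtain ⟨k, hk, ε0, hε0, F0⟩ := H.exists_frm hN
  obtain ⟨v0, hv0, hB0⟩ : ∃ v0 ∈ N, ω v0 (k n0) ≠ 0 := by
    by_contra hcon
    push Not at hcon
    exact hn00 (F0.nd n0 hn0 fun v hv => by rw [LinearMap.compl₂_apply]; exact hcon v hv)
  -- the map into `R`
  have hθ : p * k ∈ comL L := mul_comL hp hk
  have hB1 : ω v0 ((p * k) n0) ≠ 0 := by
    rw [Module.End.mul_apply, hpB _ (hNR hv0)]
    exact hB0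
  obtain ⟨ε, hε, F⟩ := frm_of hN H.skew hθ hv0 hn0 hB1
  have hε' : ε = -1 := by
    refine hε.resolve_left fun h1 => ?_
    rw [h1] at F
    exact no_orth_two S hN F (h2 N hN hNR)
  subst hε'
  obtain ⟨θ, hθdef⟩ : ∃ θ, θ = p * k := ⟨_, rfl⟩
  rw [← hθdef] at hθ hB1 F
  have hθR : ∀ u, θ u ∈ R := fun u => by
    rw [hθdef]; exact hpR _
  have hval : ∀ c : ℂ, ω ((1 + c • θ) v0) ((1 + c • θ) n0) = ω v0 n0 + 2 * c * ω v0 (θ n0) +
      c * c * ω (θ v0) (θ n0) := by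
    intro c
    have h1 := F.sym n0 hn0 v0 hv0
    rw [LinearMap.compl₂_apply, LinearMap.compl₂_apply] at h1
    have h3 := H.alt (θ v0) n0
    simp only [LinearMap.add_apply, LinearMap.smul_apply, Module.End.one_apply, map_add, map_smul,
      smul_eq_mul]
    linear_combination c * h3 - c * h1
  obtain ⟨c, hc⟩ : ∃ c : ℂ, ω ((1 + c • θ) v0) ((1 + c • θ) n0) ≠ 0 := by
    by_contra hcon
    push Not at hcon
    have e1 := hcon 1
    have e2 := hcon (-1)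
    rw [hval] at e1 e2
    apply hB1
    linear_combination (1 / 4) * e1 - (1 / 4) * e2
  have hK : 1 + c • θ ∈ comL L := (comL L).add_mem one_comL ((comL L).smul_mem c hθ)
  have hne : N.map (1 + c • θ) ≠ ⊥ := by
    intro hb
    have h1 : (1 + c • θ) v0 ∈ N.map (1 + c • θ) := ⟨v0, hv0, rfl⟩
    rw [hb, Submodule.mem_bot] at h1
    rw [h1, map_zero, LinearMap.zero_apply] at hc
    exact hc rfl
  have hV := (hN.map hK hne).1
  refine ⟨N.map (1 + c • θ), hV, ?_, H.frm_ne hV ⟨v0, hv0, rfl⟩ ⟨n0, hn0, rfl⟩ hc⟩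
  rintro _ ⟨u, hu, rfl⟩
  exact R.add_mem (hNR hu) (R.smul_mem c (hθR u))

/-- the orthogonal of a nondegenerate subspace in a nondegenerate subspace -/
theorem split {R V : Submodule ℂ U} (hnd : ∀ u ∈ R, (∀ v ∈ R, ω v u = 0) → u = 0)
    (hVR : V ≤ R) (hV : ∀ u ∈ V, (∀ v ∈ V, ω v u = 0) → u = 0) :
    (R ⊓ oP ω V) ⊔ V = R ∧ finrank ℂ ↥(R ⊓ oP ω V) + finrank ℂ V = finrank ℂ R ∧
    (∀ u ∈ R ⊓ oP ω V, (∀ v ∈ R ⊓ oP ω V, ω v u = 0) → u = 0) := by
  obtain ⟨h1, h2⟩ := H.sup_oP hV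
  have h3 : (R ⊓ oP ω V) ⊔ V = R := by
    apply le_antisymm (sup_le inf_le_left hVR)
    intro u hu
    have h4 : u ∈ V ⊔ oP ω V := by rw [h1]; trivial
    obtain ⟨a, ha, b, hb, rfl⟩ := Submodule.mem_sup.1 h4
    have h5 : b ∈ R := by
      have h6 : b = (a + b) - a := by abel
      rw [h6]
      exact R.sub_mem hu (hVR ha)
    exact Submodule.add_mem _ (Submodule.mem_sup_right ha) (Submodule.mem_sup_left ⟨h5, hb⟩)
  refine ⟨h3, ?_, ?_⟩
  · have h4 := Submodule.finrank_sup_add_finrank_inf_eq (R ⊓ oP ω V) V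
    have h5 : (R ⊓ oP ω V) ⊓ V = ⊥ := by
      rw [eq_bot_iff, ← h2]
      rintro u ⟨⟨-, hu⟩, hu'⟩
      exact ⟨hu', hu⟩
    rw [h3, h5, finrank_bot, add_zero] at h4
    exact h4.symm
  · rintro u ⟨hu1, hu2⟩ h4
    refine hnd u hu1 fun v hv => ?_
    rw [← h3] at hv
    obtain ⟨a, ha, b, hb, rfl⟩ := Submodule.mem_sup.1 hv
    rw [map_add, LinearMap.add_apply, h4 a ha, hu2 b hb, add_zero]

/-- **Decomposition in irreducible subspaces of dimension two.** -/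
theorem decomp (S : RS L T) (c : ℕ) (n : ℕ) : ∀ R : Submodule ℂ U, (∀ x ∈ L, ∀ u ∈ R, x u ∈ R) →
    (∀ u ∈ R, (∀ v ∈ R, ω v u = 0) → u = 0) → (∀ N, IrrSub L N → N ≤ R → finrank ℂ N = 2) →
    finrank ℂ R = 2 * n → ∃ e w, GB S R ω n (fun i => c + i.val) e w := by
  induction n with
  | zero =>
    intro R hR hnd h2 hfr
    have h0 : R = ⊥ := Submodule.finrank_eq_zero.1 hfr
    refine ⟨fun _ => 0, fun _ => 0, ⟨⟨fun p => p.1.elim0, ?_, fun p => p.1.elim0⟩,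
      fun p => p.1.elim0, fun p => p.1.elim0, fun p => p.1.elim0, fun p => p.1.elim0,
      fun i => i.elim0⟩⟩
    rw [h0]
    exact bot_le
  | succ n ih =>
    intro R hR hnd h2 hfr
    have h0 : R ≠ ⊥ := by
      rintro rfl
      rw [finrank_bot] at hfr
      omega
    obtain ⟨V, hV, hVR, F⟩ := H.ndg S hR hnd h0 h2
    obtain ⟨k1, k2, k3⟩ := H.split hnd hVR F.nd
    have hV2 := h2 V hV hVR
    obtain ⟨e', w', h'⟩ := ih (R ⊓ oP ω V) (fun x hx u hu => ⟨hR x hx u hu.1,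
      H.oP_L hV.stab x hx u hu.2⟩) k3 (fun N hN hle => h2 N hN (hle.trans inf_le_left))
      (by omega)
    obtain ⟨e, w, h⟩ := exists_gb (ω := ω) S hV F (m := 1) (by omega) (by omega) (c + n)
    have h3 := h'.glue h (fun u hu v hv => by rw [H.alt, hu.2 v hv, neg_zero])
      (fun u hu v hv => hu.2 v hv) (fun i j => by
        have := i.2
        omega)
    rw [k1] at h3
    have h4 : Fin.append (fun i : Fin n => c + i.val) (fun _ : Fin 1 => c + n) =
        fun i => c + i.val := by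
      funext i
      refine Fin.addCases (fun i => ?_) (fun i => ?_) i
      · rw [Fin.append_left]; rfl
      · rw [Fin.append_right]
        have : i.val = 0 := by omega
        simp [this]
    rw [h4] at h3
    exact ⟨_, _, h3⟩

end THyp

end Pool.Agent.R912
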