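import Pool.Agent.R912.Q.TH4

set_option autoImplicit false
set_option linter.unusedSectionVars false
set_option linter.unusedSimpArgs false
set_option linter.unusedVariables false

/-!
# Forms of degree four on spaces of dimension eight: an irreducible subspace of dimension four
-/

open Module Matrix

namespace Pool.Agent.R912

open Pool.Agent.Y102.SP Q

attribute [local instance 100] LieRing.ofAssociativeRing

variable {U : Type} [AddCommGroup U] [Module ℂ U] [FiniteDimensional ℂ U]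
  {L : Submodule ℂ (Module.End ℂ U)} {ω : U →ₗ[ℂ] U →ₗ[ℂ] ℂ}
  {T : Type} [AddCommGroup T] [Module ℂ T]

theorem kill_add {ψ : Q4 U} {X Y : Module.End ℂ U} (hX : Kill4 ⊤ ψ X) (hY : Kill4 ⊤ ψ Y) :
    Kill4 ⊤ ψ (X + Y) := by
  intro a ha b hb c hc d hd
  have h1 := hX a ha b hb c hc d hd
  have h2 := hY a ha b hb c hc d hd
  rw [LinearMap.add_apply, LinearMap.add_apply, LinearMap.add_apply, LinearMap.add_apply,
    map_add, map_add, map_add, map_add, LinearMap.add_apply, LinearMap.add_apply,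
    LinearMap.add_apply, LinearMap.add_apply, LinearMap.add_apply, LinearMap.add_apply]
  linear_combination h1 + h2

/-- the first block of a glued basis -/
theorem BSp_eq {S : RS L T} {k : ℕ} {blk : Fin k → ℕ} {e : Fin k × Bool → U}
    {w : Fin k × Bool → Module.Dual ℂ T} (h : GB S ⊤ ω k blk e w) {N : Submodule ℂ U}
    (hN : IrrSub L N) {i : Fin k} (hi : ∀ p : Fin k × Bool, blk p.1 = blk i → e p ∈ N) :
    BSp e blk i = N := by
  refine hN.irr _ ?_ (h.irr i).stab (h.irr i).ne
  unfold BSp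
  rw [Submodule.span_le]
  rintro _ ⟨p, hp, rfl⟩
  exact hi p hp

/-- equality of squares -/
theorem sq_wt {S : RS L T} {k : ℕ} {blk : Fin k → ℕ} {e : Fin k × Bool → U} {N : Submodule ℂ U}
    {w : Fin k × Bool → Module.Dual ℂ T} (h : GB S N ω k blk e w) {φ : Module.Dual ℂ T →ₗ[ℚ] ℚ}
    {i j : Fin k} (hs : φ (w (i, true)) ^ 2 = φ (w (j, true)) ^ 2) (b : Bool) :
    ∃ c, φ (w (i, b)) = φ (w (j, c)) := by
  have hf : ∀ i, φ (w (i, false)) = -φ (w (i, true)) := fun i => by
    rw [show w (i, false) = -w (i, true) from h.wbar (i, true), map_neg]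
  rcases sq_eq_sq_iff_eq_or_eq_neg.1 hs with h1 | h1
  · exact ⟨b, by cases b <;> simp [hf, h1]⟩
  · exact ⟨!b, by cases b <;> simp [hf, h1]⟩

namespace THyp

variable (H : THyp L ω)
include H

/-- an irreducible subspace of dimension four -/
theorem main4 (S : RS L T) (hU : finrank ℂ U = 8) {ψ : Q4 U} (hA : Alt4 ψ)
    (hψ : ∀ x ∈ L, Kill4 ⊤ ψ x) {X : Module.End ℂ U}
    (hX1 : ∀ P : Submodule ℂ U, (∀ x ∈ L, ∀ u ∈ P, x u ∈ P) → ∀ u ∈ P, X u ∈ P)
    (hX2 : ∀ K : Module.End ℂ U, (∀ x ∈ L, x * K = K * x) → X * K = K * X)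
    (hX3 : ∀ u v, ω (X u) v + ω u (X v) = 0)
    {N : Submodule ℂ U} (hN : IrrSub L N) (hd : finrank ℂ N = 4)
    (hnd : ∀ u ∈ N, (∀ v ∈ N, ω v u = 0) → u = 0)
    (hNK : ∀ x ∈ comL L, ∀ u ∈ N, x u ∈ N) : Kill4 ⊤ ψ X := by
  have F := H.frm_nd hN hnd
  obtain ⟨k1, k2⟩ := H.sup_oP hnd
  obtain ⟨s1, s2, s3⟩ := H.split (R := ⊤) (fun u _ hu => H.nd u fun v => hu v trivial) le_top hnd
  rw [top_inf_eq] at s1 s2 s3
  rw [finrank_top, hU, hd] at s2
  have hR := H.oP_L hN.stab
  have hRK := H.oP_K hNK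
  obtain ⟨eN, wN, hGN⟩ := exists_gb (ω := ω) S hN F (m := 2) (by omega) (by omega) 0
  -- the hypothesis on the forms
  have hz : ∀ (blk : Fin 4 → ℕ) (e : Fin 4 × Bool → U),
      (∀ p : Fin 4 × Bool, blk p.1 = blk 0 → e p ∈ N) →
      (∀ p : Fin 4 × Bool, blk p.1 ≠ blk 0 → e p ∈ oP ω N) →
      ∀ β : U →ₗ[ℂ] U →ₗ[ℂ] ℂ, (∀ x ∈ L, ∀ u v, β (x u) v + β u (x v) = 0) →
      ∀ p q : Fin 4 × Bool, blk p.1 = blk 0 → blk q.1 ≠ blk 0 → β (e p) (e q) = 0 := by
    intro blk e h1 h2 β hβ p q hp hq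
    obtain ⟨K, hK⟩ := H.rep β
    rw [hK]
    exact hRK K (H.rep_comL hβ hK) _ (h2 q hq) _ (h1 p hp)
  by_cases hirr : IrrSub L (oP ω N)
  · -- two irreducible subspaces
    have FR := H.frm_nd hirr s3
    obtain ⟨eR, wR, hGR⟩ := exists_gb (ω := ω) S hirr FR (m := 2) (by omega) (by omega) 1
    have hG := hGN.glue hGR (fun u hu v hv => hv u hu)
      (fun u hu v hv => by rw [H.alt, hv u hu, neg_zero]) (fun i j => by omega)
    rw [k1] at hG
    have hb : Fin.append (fun _ : Fin 2 => 0) (fun _ : Fin 2 => 1) = b22 := by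
      funext i; fin_cases i <;> rfl
    obtain ⟨e, he⟩ : ∃ e : Fin 4 × Bool → U, e = ap eN eR := ⟨_, rfl⟩
    obtain ⟨w, hw⟩ : ∃ w : Fin 4 × Bool → Module.Dual ℂ T, w = ap wN wR := ⟨_, rfl⟩
    have hG' : GB S ⊤ ω 4 b22 e w := by
      rw [he, hw, ← hb]
      exact hG
    have n20 : ¬ b22 2 = b22 0 := by decide
    have n30 : ¬ b22 3 = b22 0 := by decide
    have n02 : ¬ b22 0 = b22 2 := by decide
    have n12 : ¬ b22 1 = b22 2 := by decide
    have heN : ∀ p : Fin 4 × Bool, b22 p.1 = b22 0 → e p ∈ N := by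
      rintro ⟨i, b⟩ hi
      rw [he]
      fin_cases i
      · have : ap eN eR (0, b) = eN (0, b) := ap_left eN eR 0 b
        exact this ▸ hGN.mem _
      · have : ap eN eR (1, b) = eN (1, b) := ap_left eN eR 1 b
        exact this ▸ hGN.mem _
      · first | exact absurd hi n20 | exact absurd hi n30 | exact absurd hi n02 | exact absurd hi n12
      · first | exact absurd hi n20 | exact absurd hi n30 | exact absurd hi n02 | exact absurd hi n12
    have heR : ∀ p : Fin 4 × Bool, b22 p.1 ≠ b22 0 → e p ∈ oP ω N := by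
      rintro ⟨i, b⟩ hi
      rw [he]
      fin_cases i
      · exact absurd rfl hi
      · exact absurd rfl hi
      · have : ap eN eR (2, b) = eR (0, b) := ap_right eN eR 0 b
        exact this ▸ hGR.mem _
      · have : ap eN eR (3, b) = eR (1, b) := ap_right eN eR 1 b
        exact this ▸ hGR.mem _
    obtain ⟨φ, g⟩ := exists_gen (S := S) hG'.ne
    have GHH : GH S ω b22 e w φ ψ := ⟨hG', g, H.frmTop, hψ, hA, by decide, by decide, by decide,
      hz b22 e heN heR⟩
    -- the weights are different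
    have B0 : BSp e b22 0 = N := BSp_eq hG' hN heN
    have B2 : BSp e b22 2 = oP ω N := BSp_eq hG' hirr fun p hp => heR p (by
      rw [hp]; decide)
    have diff : (∀ p : Fin 4 × Bool, b22 p.1 = b22 0 → ∃ q : Fin 4 × Bool, b22 q.1 = b22 2 ∧
        φ (w p) = φ (w q)) → (∀ p : Fin 4 × Bool, b22 p.1 = b22 2 → ∃ q : Fin 4 × Bool,
        b22 q.1 = b22 0 ∧ φ (w p) = φ (w q)) → False := by
      intro h1 h2
      obtain ⟨D, hD, hD0, hD2⟩ := hG'.same_wt H.skew g (i := 0) (j := 2) (by decide) h1 h2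
      rw [B0] at hD0
      rw [B2] at hD2
      rcases H.dich hD hN.stab hNK with h3 | h3
      · exact hD0 h3
      · exact hD2 h3
    have NE1 : ¬ (φ (w (0, true)) ^ 2 = φ (w (2, true)) ^ 2 ∧
        φ (w (1, true)) ^ 2 = φ (w (3, true)) ^ 2) := by
      rintro ⟨q1, q2⟩
      refine diff ?_ ?_
      · rintro ⟨i, b⟩ hi
        fin_cases i
        · obtain ⟨c, hc⟩ := sq_wt hG' q1 b
          exact ⟨(2, c), rfl, hc⟩
        · obtain ⟨c, hc⟩ := sq_wt hG' q2 b
          exact ⟨(3, c), rfl, hc⟩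
        · first | exact absurd hi n20 | exact absurd hi n30 | exact absurd hi n02 | exact absurd hi n12
        · first | exact absurd hi n20 | exact absurd hi n30 | exact absurd hi n02 | exact absurd hi n12
      · rintro ⟨i, b⟩ hi
        fin_cases i
        · first | exact absurd hi n20 | exact absurd hi n30 | exact absurd hi n02 | exact absurd hi n12
        · first | exact absurd hi n20 | exact absurd hi n30 | exact absurd hi n02 | exact absurd hi n12
        · obtain ⟨c, hc⟩ := sq_wt hG' q1.symm b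
          exact ⟨(0, c), rfl, hc⟩
        · obtain ⟨c, hc⟩ := sq_wt hG' q2.symm b
          exact ⟨(1, c), rfl, hc⟩
    have NE2 : ¬ (φ (w (0, true)) ^ 2 = φ (w (3, true)) ^ 2 ∧
        φ (w (1, true)) ^ 2 = φ (w (2, true)) ^ 2) := by
      rintro ⟨q1, q2⟩
      refine diff ?_ ?_
      · rintro ⟨i, b⟩ hi
        fin_cases i
        · obtain ⟨c, hc⟩ := sq_wt hG' q1 b
          exact ⟨(3, c), rfl, hc⟩
        · obtain ⟨c, hc⟩ := sq_wt hG' q2 b
          exact ⟨(2, c), rfl, hc⟩
        · first | exact absurd hi n20 | exact absurd hi n30 | exact absurd hi n02 | exact absurd hi n12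
        · first | exact absurd hi n20 | exact absurd hi n30 | exact absurd hi n02 | exact absurd hi n12
      · rintro ⟨i, b⟩ hi
        fin_cases i
        · first | exact absurd hi n20 | exact absurd hi n30 | exact absurd hi n02 | exact absurd hi n12
        · first | exact absurd hi n20 | exact absurd hi n30 | exact absurd hi n02 | exact absurd hi n12
        · obtain ⟨c, hc⟩ := sq_wt hG' q2.symm b
          exact ⟨(1, c), rfl, hc⟩
        · obtain ⟨c, hc⟩ := sq_wt hG' q1.symm b
          exact ⟨(0, c), rfl, hc⟩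
    have hflip : ∀ (s : Fin 4 → Bool) (i : Fin 4),
        φ (rw' (fun i => (i, s i)) w (i, true)) ^ 2 = φ (w (i, true)) ^ 2 := by
      intro s i
      change φ (w (i, s i)) ^ 2 = φ (w (i, true)) ^ 2
      cases s i
      · rw [show w (i, false) = -w (i, true) from hG'.wbar (i, true), map_neg]
        ring
      · rfl
    have K : ∀ s : Fin 4 → Bool, Fψ ψ (re (fun i => (i, s i)) e) (0, false) (1, false)
        (2, false) (3, false) = 0 := fun s =>
      (GHH.flip s).a22 (by rw [hflip, hflip, hflip, hflip]; exact NE1)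
        (by rw [hflip, hflip, hflip, hflip]; exact NE2)
    have hreg : ∀ a b c d, Fψ ψ e a b c d ≠ 0 → NN 0 a b c d = 0 ∧ NN 1 a b c d = 0 ∧
        NN 2 a b c d = 0 ∧ NN 3 a b c d = 0 := by
      intro a b c d hne
      obtain ⟨r0, r1⟩ := GHH.reg K hne
      obtain ⟨p1, p2⟩ := GHH.par hne
      have hrel := hG'.rel (φ := φ) hψ hne
      obtain ⟨-, -, c2, c3, -⟩ := NN_cases a b c d ((hA.altT e).dist hne)
      have q23 := hG'.ne1 g (i := 2) (j := 3) (by decide) (by decide)
      have r23 := hG'.ne2 g (i := 2) (j := 3) (by decide) (by decide)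
      have q2 := g.zero (2, true)
      have q3 := g.zero (3, true)
      rw [r0, r1] at hrel
      refine ⟨r0, r1, ?_⟩
      rcases c2 with c2 | c2 | c2 <;> rcases c3 with c3 | c3 | c3 <;>
        rw [c2, c3] at hrel <;>
        first
        | exact ⟨c2, c3⟩
        | (exfalso; push_cast at hrel; first
            | exact q2 (by linarith)
            | exact q3 (by linarith)
            | exact q23 (by linarith)
            | exact r23 (by linarith))
    -- the two parts of the matrix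
    obtain ⟨m, hm⟩ : ∃ m, m = MX ω (-1) e X := ⟨_, rfl⟩
    have hmS : m ∈ Sk (-1) 4 := by
      rw [hm]
      exact hG'.cb.MX_Sk neg1 (fun _ _ => trivial) (fun u _ v _ => hX3 u v) H.frmTop.sym
    have hmB : m ∈ BK b22 := by
      rw [hm]
      exact hG'.MX_BK fun i => hX1 _ (hG'.irr i).stab
    have part : ∀ s : Set (Fin 4), ∀ i0 : Fin 4, (∀ i, i ∈ s ↔ b22 i = b22 i0) →
        (∀ i ∈ s, ∃ j ∈ s, j ≠ i) → ∀ _ : DecidablePred (· ∈ s),
        (Matrix.of fun p q : Fin 4 × Bool => if p.1 ∈ s ∧ q.1 ∈ s then m p q else 0) ∈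
          MM ψ e b22 := by
      intro s i0 hs h2 hdec
      refine hG'.kill_blk H.frmTop hψ hA hs h2 ?_ ?_ ?_
      · intro a b c d hne i _
        obtain ⟨r0, r1, r2, r3⟩ := hreg a b c d hne
        fin_cases i
        · exact r0
        · exact r1
        · exact r2
        · exact r3
      · intro p q
        rw [Matrix.of_apply, Matrix.of_apply]
        have e1 : (bar p).1 = p.1 := rfl
        have e2 : (bar q).1 = q.1 := rfl
        rw [e1, e2]
        by_cases hpq : p.1 ∈ s ∧ q.1 ∈ s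
        · rw [if_pos hpq, if_pos hpq.symm]
          exact hmS p q
        · rw [if_neg hpq, if_neg (fun h => hpq h.symm)]
          ring
      · intro p q hpq
        rw [Matrix.of_apply, if_neg hpq]
    refine hG'.cb.kill_of_KF neg1 (fun _ _ => trivial) ?_
    rw [← hm]
    have hsum : m = (Matrix.of fun p q : Fin 4 × Bool =>
        if p.1 ∈ ({i | b22 i = b22 0} : Set (Fin 4)) ∧ q.1 ∈ ({i | b22 i = b22 0} : Set (Fin 4))
          then m p q else 0) +
        (Matrix.of fun p q : Fin 4 × Bool =>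
        if p.1 ∈ ({i | b22 i = b22 2} : Set (Fin 4)) ∧ q.1 ∈ ({i | b22 i = b22 2} : Set (Fin 4))
          then m p q else 0) := by
      ext p q
      rw [Matrix.add_apply, Matrix.of_apply, Matrix.of_apply]
      have hcl : ∀ i : Fin 4, (b22 i = b22 0 ∧ ¬ b22 i = b22 2) ∨ (¬ b22 i = b22 0 ∧
        b22 i = b22 2) := by decide
      simp only [Set.mem_ofPred_eq]
      rcases hcl p.1 with ⟨a1, a2⟩ | ⟨a1, a2⟩ <;> rcases hcl q.1 with ⟨c1, c2⟩ | ⟨c1, c2⟩
      · rw [if_pos ⟨a1, c1⟩, if_neg (fun h => a2 h.1), add_zero]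
      · rw [if_neg (fun h => c1 h.2), if_neg (fun h => a2 h.1), add_zero]
        exact hmB p q (by rw [a1, c2]; decide)
      · rw [if_neg (fun h => a1 h.1), if_neg (fun h => c2 h.2), add_zero]
        exact hmB p q (by rw [a2, c1]; decide)
      · rw [if_neg (fun h => a1 h.1), if_pos ⟨a2, c2⟩, zero_add]
    rw [hsum]
    refine (KF (Fψ ψ e)).add_mem ?_ ?_
    · exact (part {i | b22 i = b22 0} 0 (fun i => Iff.rfl) (by
        have : ∀ i : Fin 4, b22 i = b22 0 → ∃ j : Fin 4, b22 j = b22 0 ∧ j ≠ i := by decide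
        exact this) _).1.1
    · exact (part {i | b22 i = b22 2} 2 (fun i => Iff.rfl) (by
        have : ∀ i : Fin 4, b22 i = b22 2 → ∃ j : Fin 4, b22 j = b22 2 ∧ j ≠ i := by decide
        exact this) _).1.1
  · -- two subspaces of dimension two
    obtain ⟨eR, wR, hGR⟩ := H.decomp S 1 2 (oP ω N) hR s3 (fun V hV hVR => by
      have h1 := Submodule.finrank_mono hVR
      have h2 := H.two_le hV
      obtain ⟨m, hm⟩ := H.even hV
      have h4 : finrank ℂ V ≠ 4 := by
        intro h4
        apply hirr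
        have h5 : V = oP ω N := Submodule.eq_of_le_of_finrank_eq hVR (by omega)
        rw [← h5]
        exact hV
      omega) (by omega)
    have hG := hGN.glue hGR (fun u hu v hv => hv u hu)
      (fun u hu v hv => by rw [H.alt, hv u hu, neg_zero]) (fun i j => by omega)
    rw [k1] at hG
    have hb : Fin.append (fun _ : Fin 2 => 0) (fun i : Fin 2 => 1 + i.val) = b211 := by
      funext i; fin_cases i <;> rfl
    obtain ⟨e, he⟩ : ∃ e : Fin 4 × Bool → U, e = ap eN eR := ⟨_, rfl⟩
    obtain ⟨w, hw⟩ : ∃ w : Fin 4 × Bool → Module.Dual ℂ T, w = ap wN wR := ⟨_, rfl⟩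
    have hG' : GB S ⊤ ω 4 b211 e w := by
      rw [he, hw, ← hb]
      exact hG
    have n20 : ¬ b211 2 = b211 0 := by decide
    have n30 : ¬ b211 3 = b211 0 := by decide
    have heN : ∀ p : Fin 4 × Bool, b211 p.1 = b211 0 → e p ∈ N := by
      rintro ⟨i, b⟩ hi
      rw [he]
      fin_cases i
      · have : ap eN eR (0, b) = eN (0, b) := ap_left eN eR 0 b
        exact this ▸ hGN.mem _
      · have : ap eN eR (1, b) = eN (1, b) := ap_left eN eR 1 b
        exact this ▸ hGN.mem _
      · first | exact absurd hi n20 | exact absurd hi n30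
      · first | exact absurd hi n20 | exact absurd hi n30
    have heR : ∀ p : Fin 4 × Bool, b211 p.1 ≠ b211 0 → e p ∈ oP ω N := by
      rintro ⟨i, b⟩ hi
      rw [he]
      fin_cases i
      · exact absurd rfl hi
      · exact absurd rfl hi
      · have : ap eN eR (2, b) = eR (0, b) := ap_right eN eR 0 b
        exact this ▸ hGR.mem _
      · have : ap eN eR (3, b) = eR (1, b) := ap_right eN eR 1 b
        exact this ▸ hGR.mem _
    obtain ⟨φ, g⟩ := exists_gen (S := S) hG'.ne
    have GHH : GH S ω b211 e w φ ψ := ⟨hG', g, H.frmTop, hψ, hA, by decide, by decide, by decide,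
      hz b211 e heN heR⟩
    have K : ∀ s : Fin 4 → Bool, Fψ ψ (re (fun i => (i, s i)) e) (0, false) (1, false)
        (2, false) (3, false) = 0 := fun s => (GHH.flip s).a211
    obtain ⟨x, hx, hxX⟩ := hGR.two (fun i j hij => by
      have : i.val = j.val := by omega
      exact Fin.ext this) H.alt H.skew H.br hX1 hX2 hX3
    have hY : Kill4 ⊤ ψ (X - x) := by
      refine hG'.kill_supp H.frmTop hψ hA (s := {i | b211 i = b211 0}) (i0 := 0) (fun i => Iff.rfl)
        ?_ ?_ ?_ ?_
      · have : ∀ i : Fin 4, b211 i = b211 0 → ∃ j : Fin 4, b211 j = b211 0 ∧ j ≠ i := by decide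
        exact this
      · intro a b c d hne i hi
        obtain ⟨r0, r1⟩ := GHH.reg K hne
        have hi' : b211 i = b211 0 := hi
        fin_cases i
        · exact r0
        · exact r1
        · first | exact absurd hi' n20 | exact absurd hi' n30
        · first | exact absurd hi' n20 | exact absurd hi' n30
      · intro u v
        have h1 := hX3 u v
        have h2 := H.skew x hx u v
        rw [LinearMap.sub_apply, LinearMap.sub_apply, map_sub, map_sub, LinearMap.sub_apply]
        linear_combination h1 - h2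
      · intro p hp
        rw [LinearMap.sub_apply, hxX _ (heR p hp), sub_self]
    have hX : X = (X - x) + x := by abel
    rw [hX]
    exact kill_add hY (hψ x hx)

/-- **The abstract theorem.** -/
theorem main [Nontrivial U] (hU : finrank ℂ U = 8) {ψ : Q4 U} (hA : Alt4 ψ)
    (hψ : ∀ x ∈ L, Kill4 ⊤ ψ x) {X : Module.End ℂ U}
    (hX1 : ∀ P : Submodule ℂ U, (∀ x ∈ L, ∀ u ∈ P, x u ∈ P) → ∀ u ∈ P, X u ∈ P)
    (hX2 : ∀ K : Module.End ℂ U, (∀ x ∈ L, x * K = K * x) → X * K = K * X)
    (hX3 : ∀ u v, ω (X u) v + ω u (X v) = 0) : Kill4 ⊤ ψ X := by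
  obtain ⟨T, i1, i2, ⟨S⟩⟩ := exists_rs_of_killing H.br fun 𝔩 h𝔩 => H.isKilling 𝔩 h𝔩
  by_cases h2 : ∀ N, IrrSub L N → finrank ℂ N = 2
  · exact H.main2 S hU hψ hX1 hX2 hX3 h2
  push Not at h2
  obtain ⟨N, hN, hN2⟩ := h2
  have h3 := H.two_le hN
  obtain ⟨m, hm⟩ := H.even hN
  have h8 : finrank ℂ N ≤ 8 := by
    rw [← hU]
    exact Submodule.finrank_le N
  by_cases hP : PK L N = ⊤
  · exact (H.qhyp hN hP).main hU hA hψ hX1 (fun k hk => hX2 k hk) hX3
  -- `N` is stable
  have hNK : ∀ x ∈ comL L, ∀ u ∈ N, x u ∈ N := by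
    by_contra hcon
    push Not at hcon
    obtain ⟨k, hk, u, hu, hku⟩ := hcon
    have h0 : N.map k ≠ ⊥ := by
      intro hb
      have h1 : k u ∈ N.map k := ⟨u, hu, rfl⟩
      rw [hb, Submodule.mem_bot] at h1
      exact hku (h1 ▸ N.zero_mem)
    obtain ⟨h1, h4⟩ := hN.map hk h0
    have h5 : N.map k ⊓ N = ⊥ := by
      by_contra hne
      have h6 := h1.irr _ inf_le_left (fun x hx u hu => ⟨h1.stab x hx u hu.1,
        hN.stab x hx u hu.2⟩) hne
      have h7 : k u ∈ N.map k ⊓ N := by
        rw [h6]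
        exact ⟨u, hu, rfl⟩
      exact hku h7.2
    have h6 := Submodule.finrank_sup_add_finrank_inf_eq (N.map k) N
    rw [h5, finrank_bot, add_zero, h4] at h6
    have h7 : finrank ℂ ↥(N.map k ⊔ N) ≤ 8 := by
      rw [← hU]
      exact Submodule.finrank_le _
    have h9 : N.map k ⊔ N = ⊤ := Submodule.eq_top_of_finrank_eq (by omega)
    apply hP
    rw [eq_top_iff, ← h9]
    refine sup_le ?_ le_PK
    rintro _ ⟨n, hn, rfl⟩
    exact Submodule.subset_span ⟨k, hk, n, hn, rfl⟩
  have hnd := H.abs N hN.stab hNK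
  have hcases : finrank ℂ N = 4 ∨ finrank ℂ N = 6 ∨ finrank ℂ N = 8 := by omega
  rcases hcases with h4 | h4 | h4
  · exact H.main4 S hU hA hψ hX1 hX2 hX3 hN h4 hnd hNK
  · exact H.main6 S hU hA hψ hX1 hX2 hX3 hN h4 hnd
  · exfalso
    have h5 : N = ⊤ := Submodule.eq_top_of_finrank_eq (by rw [h4, hU])
    apply hP
    rw [eq_top_iff, ← h5]
    exact le_PK

end THyp

end Pool.Agent.R912
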