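import Pool.Agent.R912.Q.Reg22b

set_option autoImplicit false
set_option linter.unusedSectionVars false
set_option linter.unusedSimpArgs false
set_option linter.unusedVariables false

/-!
# Sums of irreducible subspaces of dimension two
-/

open Module Matrix

namespace Pool.Agent.R912

open Pool.Agent.Y102.SP Q

attribute [local instance 100] LieRing.ofAssociativeRing

variable {U : Type} [AddCommGroup U] [Module ℂ U] [FiniteDimensional ℂ U]
  {T : Type} [AddCommGroup T] [Module ℂ T] {L : Submodule ℂ (Module.End ℂ U)}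

section Coef

variable (ω : U →ₗ[ℂ] U →ₗ[ℂ] ℂ) {k : ℕ} (e : Fin k × Bool → U)

/-- first coefficient -/
def tA (i : Fin k) (y : Module.End ℂ U) : ℂ := ω (y (e (i, true))) (e (i, false))
/-- second coefficient -/
def tB (i : Fin k) (y : Module.End ℂ U) : ℂ := ω (y (e (i, false))) (e (i, false))
/-- third coefficient -/
def tC (i : Fin k) (y : Module.End ℂ U) : ℂ := -ω (y (e (i, true))) (e (i, true))

end Coef

namespace GB

variable {S : RS L T} {R : Submodule ℂ U} {ω : U →ₗ[ℂ] U →ₗ[ℂ] ℂ} {k : ℕ}
  {blk : Fin k → ℕ} {e : Fin k × Bool → U} {w : Fin k × Bool → Module.Dual ℂ T}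
  (h : GB S R ω k blk e w) (hblk : ∀ i j, blk i = blk j → i = j)
include h hblk

theorem crd {i : Fin k} {u : U} (hu : u ∈ BSp e blk i) :
    u = ω u (e (i, false)) • e (i, true) - ω u (e (i, true)) • e (i, false) := by
  have f1 : ω (e (i, true)) (e (i, false)) = 1 := by
    have := h.cb.form (i, true) (bar (i, true)); rw [if_pos rfl] at this; exact this
  have f2 : ω (e (i, false)) (e (i, true)) = -1 := by
    have := h.cb.form (i, false) (bar (i, false)); rw [if_pos rfl] at this; exact this
  have f3 : ω (e (i, true)) (e (i, true)) = 0 := by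
    rw [h.cb.form, if_neg (by simp [bar])]
  have f4 : ω (e (i, false)) (e (i, false)) = 0 := by
    rw [h.cb.form, if_neg (by simp [bar])]
  unfold BSp at hu
  induction hu using Submodule.span_induction with
  | mem u hu =>
    obtain ⟨⟨j, b⟩, hj, rfl⟩ := hu
    have hji : j = i := hblk _ _ hj
    subst hji
    cases b
    · rw [f4, f2]; simp
    · rw [f1, f3]; simp
  | zero => simp
  | add u v _ _ hu hv =>
    rw [map_add, LinearMap.add_apply, LinearMap.add_apply]
    linear_combination (norm := module) hu + hv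
  | smul c u _ hu =>
    rw [map_smul, LinearMap.smul_apply, LinearMap.smul_apply, smul_eq_mul, smul_eq_mul]
    linear_combination (norm := module) c • hu

/-- the coefficients of an endomorphism -/
theorem crdT {i : Fin k} {y : Module.End ℂ U} (hy : ∀ u ∈ BSp e blk i, y u ∈ BSp e blk i) :
    y (e (i, true)) = tA ω e i y • e (i, true) + tC ω e i y • e (i, false) := by
  have h1 := h.crd hblk (hy _ (h.memBSp (i, true)))
  unfold tA tC
  rw [neg_smul, ← sub_eq_add_neg]
  exact h1

theorem crdF {i : Fin k} {y : Module.End ℂ U} (hy : ∀ u ∈ BSp e blk i, y u ∈ BSp e blk i)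
    (al : ∀ u v, ω u v = -ω v u) (sk : ∀ u v, ω (y u) v + ω u (y v) = 0) :
    y (e (i, false)) = tB ω e i y • e (i, true) - tA ω e i y • e (i, false) := by
  have h1 := h.crd hblk (hy _ (h.memBSp (i, false)))
  unfold tA tB
  have h2 := sk (e (i, true)) (e (i, false))
  have h3 := al (e (i, true)) (y (e (i, false)))
  have h4 : ω (y (e (i, false))) (e (i, true)) = ω (y (e (i, true))) (e (i, false)) := by
    linear_combination h3 - h2
  rw [← h4]
  exact h1

section Root

variable (al : ∀ u v, ω u v = -ω v u) (sk : ∀ x ∈ L, ∀ u v, ω (x u) v + ω u (x v) = 0)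
include al sk

omit hblk al in
/-- the weights of two vectors which are not orthogonal -/
theorem pairw {u v : U} {μ ν : Module.Dual ℂ T} (hu : u ∈ usp S.ι μ) (hv : v ∈ usp S.ι ν)
    (hne : ω u v ≠ 0) : μ + ν = 0 := by
  ext t
  have h1 := sk _ (S.ιmem t) u v
  rw [hu t, hv t, map_smul, map_smul, LinearMap.smul_apply, smul_eq_mul, smul_eq_mul] at h1
  have h2 : (μ t + ν t) * ω u v = 0 := by linear_combination h1
  exact (mul_eq_zero.1 h2).resolve_right hne

omit hblk al in
theorem tA_root {i : Fin k} {β : Module.Dual ℂ T} (hβ : β ∈ S.R.Φ) : tA ω e i (S.e β) = 0 := by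
  by_contra hne
  have h1 := h.pairw sk (S.usp_mul (fun t => S.wt β hβ t) (h.wt (i, true))) (h.wt (i, false)) hne
  have h2 : w (i, false) = -w (i, true) := h.wbar (i, true)
  rw [h2, add_neg_cancel_right] at h1
  exact S.R.zero (h1 ▸ hβ)

omit hblk al in
theorem tB_root {i : Fin k} {β : Module.Dual ℂ T} (hβ : β ∈ S.R.Φ)
    (hne : tB ω e i (S.e β) ≠ 0) : β = w (i, true) + w (i, true) := by
  have h1 := h.pairw sk (S.usp_mul (fun t => S.wt β hβ t) (h.wt (i, false))) (h.wt (i, false)) hne
  have h2 : w (i, false) = -w (i, true) := h.wbar (i, true)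
  rw [h2] at h1
  rw [← sub_eq_zero, ← h1]
  abel

omit hblk al in
theorem tC_root {i : Fin k} {β : Module.Dual ℂ T} (hβ : β ∈ S.R.Φ)
    (hne : tC ω e i (S.e β) ≠ 0) : β = -(w (i, true) + w (i, true)) := by
  have h1 := h.pairw sk (S.usp_mul (fun t => S.wt β hβ t) (h.wt (i, true))) (h.wt (i, true))
    (neg_ne_zero.1 hne)
  rw [eq_neg_iff_add_eq_zero, ← h1]
  abel

omit al sk in
theorem f1 (i : Fin k) : ω (e (i, true)) (e (i, false)) = 1 := by
  have := h.cb.form (i, true) (bar (i, true)); rw [if_pos rfl] at this; exact this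
omit al sk in
theorem f2 (i : Fin k) : ω (e (i, false)) (e (i, true)) = -1 := by
  have := h.cb.form (i, false) (bar (i, false)); rw [if_pos rfl] at this; exact this
omit al sk in
theorem f3 (i : Fin k) : ω (e (i, true)) (e (i, true)) = 0 := by
  rw [h.cb.form, if_neg (by simp [bar])]
omit al sk in
theorem f4 (i : Fin k) : ω (e (i, false)) (e (i, false)) = 0 := by
  rw [h.cb.form, if_neg (by simp [bar])]

omit hblk al in
theorem tA_ι (i : Fin k) (t : T) : tA ω e i (S.ι t) = w (i, true) t := by
  unfold tA
  have h1 : ω (e (i, true)) (e (i, false)) = 1 := by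
    have := h.cb.form (i, true) (bar (i, true)); rw [if_pos rfl] at this; exact this
  rw [h.wt (i, true) t, map_smul, LinearMap.smul_apply, h1, smul_eq_mul, mul_one]

omit al in
theorem tB_ι (i : Fin k) (t : T) : tB ω e i (S.ι t) = 0 := by
  unfold tB
  rw [h.wt (i, false) t, map_smul, LinearMap.smul_apply, h.f4 hblk, smul_zero]

omit al in
theorem tC_ι (i : Fin k) (t : T) : tC ω e i (S.ι t) = 0 := by
  unfold tC
  rw [h.wt (i, true) t, map_smul, LinearMap.smul_apply, h.f3 hblk, smul_zero, neg_zero]

theorem exC (i : Fin k) : -(w (i, true) + w (i, true)) ∈ S.R.Φ ∧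
    tC ω e i (S.e (-(w (i, true) + w (i, true)))) ≠ 0 := by
  obtain ⟨β, hβ, hne⟩ : ∃ β ∈ S.R.Φ, tC ω e i (S.e β) ≠ 0 := by
    by_contra hcon
    push Not at hcon
    have hI := h.irr i
    obtain ⟨P, hP⟩ : ∃ P, P = Submodule.span ℂ {e (i, true)} := ⟨_, rfl⟩
    have h1 : P = BSp e blk i := by
      refine hI.irr P ?_ ?_ ?_
      · rw [hP, Submodule.span_singleton_le_iff_mem]
        exact h.memBSp (i, true)
      · refine S.stab_of ?_ ?_
        · intro t u hu
          rw [hP] at hu ⊢
          obtain ⟨c, rfl⟩ := Submodule.mem_span_singleton.1 hu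
          rw [map_smul, h.wt (i, true) t]
          exact Submodule.smul_mem _ _ (Submodule.smul_mem _ _
            (Submodule.mem_span_singleton_self _))
        · intro β hβ u hu
          rw [hP] at hu ⊢
          obtain ⟨c, rfl⟩ := Submodule.mem_span_singleton.1 hu
          rw [map_smul, h.crdT hblk (hI.stab _ (S.emem β hβ)), hcon β hβ, zero_smul, add_zero]
          exact Submodule.smul_mem _ _ (Submodule.smul_mem _ _
            (Submodule.mem_span_singleton_self _))
      · intro hb
        have h2 : e (i, true) ∈ P := by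
          rw [hP]; exact Submodule.mem_span_singleton_self _
        rw [hb, Submodule.mem_bot] at h2
        have h3 := h.f1 hblk i
        rw [h2, map_zero, LinearMap.zero_apply] at h3
        exact zero_ne_one h3
    have h2 : e (i, false) ∈ P := by
      rw [h1]; exact h.memBSp (i, false)
    rw [hP] at h2
    obtain ⟨c, hc⟩ := Submodule.mem_span_singleton.1 h2
    have h3 := h.f2 hblk i
    rw [← hc, map_smul, LinearMap.smul_apply, h.f3 hblk, smul_zero] at h3
    norm_num at h3
  have h1 := h.tC_root sk hβ hne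
  rw [← h1]
  exact ⟨hβ, hne⟩

theorem exB (i : Fin k) : w (i, true) + w (i, true) ∈ S.R.Φ ∧
    tB ω e i (S.e (w (i, true) + w (i, true))) ≠ 0 := by
  obtain ⟨β, hβ, hne⟩ : ∃ β ∈ S.R.Φ, tB ω e i (S.e β) ≠ 0 := by
    by_contra hcon
    push Not at hcon
    have hI := h.irr i
    obtain ⟨P, hP⟩ : ∃ P, P = Submodule.span ℂ {e (i, false)} := ⟨_, rfl⟩
    have h1 : P = BSp e blk i := by
      refine hI.irr P ?_ ?_ ?_
      · rw [hP, Submodule.span_singleton_le_iff_mem]
        exact h.memBSp (i, false)
      · refine S.stab_of ?_ ?_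
        · intro t u hu
          rw [hP] at hu ⊢
          obtain ⟨c, rfl⟩ := Submodule.mem_span_singleton.1 hu
          rw [map_smul, h.wt (i, false) t]
          exact Submodule.smul_mem _ _ (Submodule.smul_mem _ _
            (Submodule.mem_span_singleton_self _))
        · intro β hβ u hu
          rw [hP] at hu ⊢
          obtain ⟨c, rfl⟩ := Submodule.mem_span_singleton.1 hu
          rw [map_smul, h.crdF hblk (hI.stab _ (S.emem β hβ)) al (sk _ (S.emem β hβ)),
            hcon β hβ, zero_smul, zero_sub, ← neg_smul]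
          exact Submodule.smul_mem _ _ (Submodule.smul_mem _ _
            (Submodule.mem_span_singleton_self _))
      · intro hb
        have h2 : e (i, false) ∈ P := by
          rw [hP]; exact Submodule.mem_span_singleton_self _
        rw [hb, Submodule.mem_bot] at h2
        have h3 := h.f1 hblk i
        rw [h2, map_zero] at h3
        exact zero_ne_one h3
    have h2 : e (i, true) ∈ P := by
      rw [h1]; exact h.memBSp (i, true)
    rw [hP] at h2
    obtain ⟨c, hc⟩ := Submodule.mem_span_singleton.1 h2
    have h3 := h.f1 hblk i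
    rw [← hc, map_smul, LinearMap.smul_apply, h.f4 hblk, smul_zero] at h3
    exact zero_ne_one h3
  have h1 := h.tB_root sk hβ hne
  rw [← h1]
  exact ⟨hβ, hne⟩

end Root

end GB

end Pool.Agent.R912
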