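import Pool.Agent.R912.Q.Two2

set_option autoImplicit false
set_option linter.unusedSectionVars false
set_option linter.unusedSimpArgs false
set_option linter.unusedVariables false

/-!
# Sums of irreducible subspaces of dimension two: end
-/

open Module Matrix

namespace Pool.Agent.R912

open Pool.Agent.Y102.SP Q

attribute [local instance 100] LieRing.ofAssociativeRing

variable {U : Type} [AddCommGroup U] [Module ℂ U] [FiniteDimensional ℂ U]
  {T : Type} [AddCommGroup T] [Module ℂ T] {L : Submodule ℂ (Module.End ℂ U)}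

namespace GB

variable {S : RS L T} {R : Submodule ℂ U} {ω : U →ₗ[ℂ] U →ₗ[ℂ] ℂ} {k : ℕ}
  {blk : Fin k → ℕ} {e : Fin k × Bool → U} {w : Fin k × Bool → Module.Dual ℂ T}
  (h : GB S R ω k blk e w) (hblk : ∀ i j, blk i = blk j → i = j)
  (al : ∀ u v, ω u v = -ω v u) (sk : ∀ x ∈ L, ∀ u v, ω (x u) v + ω u (x v) = 0)
include h hblk al sk

theorem two_pos {φ : Module.Dual ℂ T →ₗ[ℚ] ℚ} (g : Gen S φ w) (hpos : ∀ i, 0 < φ (w (i, true)))
    (br : ∀ x ∈ L, ∀ y ∈ L, x * y - y * x ∈ L)
    {X : Module.End ℂ U} (hX1 : ∀ i, ∀ u ∈ BSp e blk i, X u ∈ BSp e blk i)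
    (hX2 : ∀ K : Module.End ℂ U, (∀ x ∈ L, x * K = K * x) → X * K = K * X)
    (hX3 : ∀ u v, ω (X u) v + ω u (X v) = 0) :
    ∃ x ∈ L, ∀ u ∈ R, X u = x u := by
  classical
  obtain ⟨al', hal⟩ : ∃ al' : Fin k → Module.Dual ℂ T, al' = fun i => w (i, true) + w (i, true) :=
    ⟨_, rfl⟩
  have ha : ∀ i, al' i = w (i, true) + w (i, true) := fun i => by rw [hal]
  let E : Fin k → Module.End ℂ U := fun i => S.e (al' i)
  let Fm : Fin k → Module.End ℂ U := fun i => S.e (-al' i)
  let Hm : Fin k → Module.End ℂ U := fun i => E i * Fm i - Fm i * E i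
  let x : Fin k → Module.End ℂ U := fun i =>
    (tA ω e i X / (tB ω e i (E i) * tC ω e i (Fm i))) • Hm i +
      (tB ω e i X / tB ω e i (E i)) • E i + (tC ω e i X / tC ω e i (Fm i)) • Fm i
  have hE0 : ∀ i, al' i ∈ S.R.Φ ∧ tB ω e i (E i) ≠ 0 := fun i => by
    have := h.exB hblk al sk i
    rw [← ha] at this
    exact this
  have hF0 : ∀ i, -al' i ∈ S.R.Φ ∧ tC ω e i (Fm i) ≠ 0 := fun i => by
    have := h.exC hblk al sk i
    rw [← ha] at this
    exact this
  have hEL : ∀ i, E i ∈ L := fun i => S.emem _ (hE0 i).1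
  have hFL : ∀ i, Fm i ∈ L := fun i => S.emem _ (hF0 i).1
  have hHL : ∀ i, Hm i ∈ L := fun i => br _ (hEL i) _ (hFL i)
  have hxL : ∀ i, x i ∈ L := fun i => L.add_mem (L.add_mem (L.smul_mem _ (hHL i))
    (L.smul_mem _ (hEL i))) (L.smul_mem _ (hFL i))
  -- the action on a subspace
  have stE : ∀ i j, ∀ u ∈ BSp e blk j, E i u ∈ BSp e blk j := fun i j => (h.irr j).stab _ (hEL i)
  have stF : ∀ i j, ∀ u ∈ BSp e blk j, Fm i u ∈ BSp e blk j := fun i j => (h.irr j).stab _ (hFL i)
  have Et : ∀ i, E i (e (i, true)) = 0 := by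
    intro i
    rw [h.crdT hblk (stE i i), h.tA_root sk (hE0 i).1]
    have h1 := h.tC_pos hblk al sk i
    rw [← ha] at h1
    change (0 : ℂ) • _ + tC ω e i (S.e (al' i)) • _ = 0
    rw [h1, zero_smul, zero_smul, add_zero]
  have Ef : ∀ i, E i (e (i, false)) = tB ω e i (E i) • e (i, true) := by
    intro i
    rw [h.crdF hblk (stE i i) al (sk _ (hEL i)), h.tA_root sk (hE0 i).1, zero_smul, sub_zero]
  have Ft : ∀ i, Fm i (e (i, true)) = tC ω e i (Fm i) • e (i, false) := by
    intro i
    rw [h.crdT hblk (stF i i), h.tA_root sk (hF0 i).1, zero_smul, zero_add]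
  have Ff : ∀ i, Fm i (e (i, false)) = 0 := by
    intro i
    rw [h.crdF hblk (stF i i) al (sk _ (hFL i)), h.tA_root sk (hF0 i).1]
    have h1 := h.tB_neg hblk al sk i
    rw [← ha] at h1
    change tB ω e i (S.e (-al' i)) • _ - (0 : ℂ) • _ = 0
    rw [h1, zero_smul, zero_smul, sub_zero]
  have xt : ∀ i, x i (e (i, true)) = X (e (i, true)) := by
    intro i
    have h1 : x i (e (i, true)) = (tA ω e i X / (tB ω e i (E i) * tC ω e i (Fm i))) •
        (E i (Fm i (e (i, true))) - Fm i (E i (e (i, true)))) +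
        (tB ω e i X / tB ω e i (E i)) • E i (e (i, true)) +
        (tC ω e i X / tC ω e i (Fm i)) • Fm i (e (i, true)) := rfl
    rw [h1, Et, Ft, map_smul, Ef, map_zero, sub_zero, smul_zero, add_zero, smul_smul, smul_smul,
      smul_smul, h.crdT hblk (hX1 i), div_mul_cancel₀ _ (hF0 i).2]
    congr 2
    field_simp [(hE0 i).2, (hF0 i).2]
  have xf : ∀ i, x i (e (i, false)) = X (e (i, false)) := by
    intro i
    have h1 : x i (e (i, false)) = (tA ω e i X / (tB ω e i (E i) * tC ω e i (Fm i))) •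
        (E i (Fm i (e (i, false))) - Fm i (E i (e (i, false)))) +
        (tB ω e i X / tB ω e i (E i)) • E i (e (i, false)) +
        (tC ω e i X / tC ω e i (Fm i)) • Fm i (e (i, false)) := rfl
    have h2 : tA ω e i X / (tB ω e i (E i) * tC ω e i (Fm i)) *
        tB ω e i (E i) * tC ω e i (Fm i) = tA ω e i X := by
      rw [mul_assoc]
      exact div_mul_cancel₀ _ (mul_ne_zero (hE0 i).2 (hF0 i).2)
    rw [h1, Ef, Ff, map_smul, Ft, map_zero, zero_sub, smul_zero, add_zero, smul_neg, smul_smul,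
      smul_smul, smul_smul, h.crdF hblk (hX1 i) al hX3, div_mul_cancel₀ _ (hE0 i).2, h2]
    abel
  -- isomorphic subspaces give the same element
  have xeq : ∀ i j, w (i, true) = w (j, true) → x i = x j := by
    intro i j hij
    have haij : al' i = al' j := by rw [ha, ha, hij]
    have hEij : E i = E j := by simp only [E, haij]
    have hFij : Fm i = Fm j := by simp only [Fm, haij]
    have hHij : Hm i = Hm j := by simp only [Hm, hEij, hFij]
    obtain ⟨r1, r2, r3⟩ := h.relX hblk al sk hij hX1 hX2 hX3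
    rw [← ha] at r2 r3
    have p1 : tB ω e i (E i) * tC ω e i (Fm i) = tB ω e j (E j) * tC ω e j (Fm j) := by
      have q1 := h.prodBC hblk al sk i
      have q2 := h.prodBC hblk al sk j
      rw [← ha] at q1 q2
      change tB ω e i (S.e (al' i)) * tC ω e i (S.e (-al' i)) =
        tB ω e j (S.e (al' j)) * tC ω e j (S.e (-al' j))
      rw [q1, q2, hij, haij]
    have ci : tC ω e i (S.e (-al' i)) = tC ω e i (Fm i) := rfl
    have cj : tC ω e j (S.e (-al' i)) = tC ω e j (Fm j) := by rw [haij]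
    rw [ci, cj] at r2 r3
    have hbi := (hE0 i).2
    have hbj := (hE0 j).2
    have hci := (hF0 i).2
    have hcj := (hF0 j).2
    have e1 : tA ω e i X / (tB ω e i (E i) * tC ω e i (Fm i)) =
        tA ω e j X / (tB ω e j (E j) * tC ω e j (Fm j)) := by rw [r1, p1]
    have e3 : tC ω e i X / tC ω e i (Fm i) = tC ω e j X / tC ω e j (Fm j) := by
      rw [div_eq_div_iff hci hcj]
      linear_combination -r3
    have e2 : tB ω e i X / tB ω e i (E i) = tB ω e j X / tB ω e j (E j) := by
      rw [div_eq_div_iff hbi hbj]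
      have : tC ω e i (Fm i) * (tB ω e i X * tB ω e j (E j) - tB ω e j X * tB ω e i (E i)) = 0 := by
        linear_combination tB ω e j (E j) * r2 - tB ω e j X * p1
      exact sub_eq_zero.1 ((mul_eq_zero.1 this).resolve_left hci)
    simp only [x]
    rw [e1, e2, e3, hEij, hFij, hHij]
  -- different subspaces
  have Eij : ∀ i j, w (i, true) ≠ w (j, true) → (E i (e (j, true)) = 0 ∧ E i (e (j, false)) = 0) ∧
      (Fm i (e (j, true)) = 0 ∧ Fm i (e (j, false)) = 0) := by
    intro i j hij
    have hφ : φ (w (i, true)) ≠ φ (w (j, true)) := fun h1 => hij (g.inj _ _ h1)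
    have hp1 := hpos i
    have hp2 := hpos j
    refine ⟨⟨?_, ?_⟩, ?_, ?_⟩
    · rw [h.crdT hblk (stE i j), h.tA_root sk (hE0 i).1, zero_smul, zero_add]
      by_cases h1 : tC ω e j (E i) = 0
      · rw [h1, zero_smul]
      · exfalso
        have h2 := congrArg φ (h.tC_root sk (hE0 i).1 h1)
        rw [ha, map_neg, map_add, map_add] at h2
        linarith
    · rw [h.crdF hblk (stE i j) al (sk _ (hEL i)), h.tA_root sk (hE0 i).1, zero_smul, sub_zero]
      by_cases h1 : tB ω e j (E i) = 0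
      · rw [h1, zero_smul]
      · exfalso
        have h2 := congrArg φ (h.tB_root sk (hE0 i).1 h1)
        rw [ha, map_add, map_add] at h2
        exact hφ (by linarith)
    · rw [h.crdT hblk (stF i j), h.tA_root sk (hF0 i).1, zero_smul, zero_add]
      by_cases h1 : tC ω e j (Fm i) = 0
      · rw [h1, zero_smul]
      · exfalso
        have h2 := congrArg φ (h.tC_root sk (hF0 i).1 h1)
        rw [ha, map_neg, map_neg, map_add, map_add] at h2
        exact hφ (by linarith)
    · rw [h.crdF hblk (stF i j) al (sk _ (hFL i)), h.tA_root sk (hF0 i).1, zero_smul, sub_zero]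
      by_cases h1 : tB ω e j (Fm i) = 0
      · rw [h1, zero_smul]
      · exfalso
        have h2 := congrArg φ (h.tB_root sk (hF0 i).1 h1)
        rw [ha, map_neg, map_add, map_add] at h2
        linarith
  have xij : ∀ i j b, w (i, true) ≠ w (j, true) → x i (e (j, b)) = 0 := by
    intro i j b hij
    obtain ⟨⟨k1, k2⟩, k3, k4⟩ := Eij i j hij
    have h1 : x i (e (j, b)) = (tA ω e i X / (tB ω e i (E i) * tC ω e i (Fm i))) •
        (E i (Fm i (e (j, b))) - Fm i (E i (e (j, b)))) +
        (tB ω e i X / tB ω e i (E i)) • E i (e (j, b)) +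
        (tC ω e i X / tC ω e i (Fm i)) • Fm i (e (j, b)) := rfl
    rw [h1]
    cases b
    · rw [k2, k4]; simp
    · rw [k1, k3]; simp
  -- the sum
  let n : Fin k → ℂ := fun i =>
    ((Finset.univ.filter fun j => w (j, true) = w (i, true)).card : ℂ)
  have hn : ∀ i, n i ≠ 0 := by
    intro i
    simp only [n]
    rw [Nat.cast_ne_zero, Finset.card_ne_zero]
    exact ⟨i, by simp⟩
  refine ⟨∑ i, (n i)⁻¹ • x i, L.sum_mem fun i _ => L.smul_mem _ (hxL i), ?_⟩
  have hb : ∀ p, X (e p) = (∑ i, (n i)⁻¹ • x i) (e p) := by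
    rintro ⟨j, b⟩
    rw [LinearMap.sum_apply]
    have h1 : ∀ i ∈ Finset.univ.filter (fun i => w (i, true) = w (j, true)),
        ((n i)⁻¹ • x i) (e (j, b)) = (n j)⁻¹ • X (e (j, b)) := by
      intro i hi
      have hij : w (i, true) = w (j, true) := (Finset.mem_filter.1 hi).2
      rw [LinearMap.smul_apply, xeq i j hij]
      have h2 : n i = n j := by simp only [n, hij]
      rw [h2]
      cases b
      · rw [xf]
      · rw [xt]
    rw [← Finset.sum_filter_add_sum_filter_not Finset.univ (fun i => w (i, true) = w (j, true)),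
      Finset.sum_congr rfl h1, Finset.sum_const, Finset.sum_eq_zero, add_zero, ← Nat.cast_smul_eq_nsmul ℂ,
      smul_smul]
    · change X (e (j, b)) = (n j * (n j)⁻¹) • X (e (j, b))
      rw [mul_inv_cancel₀ (hn j), one_smul]
    · intro i hi
      rw [LinearMap.smul_apply, xij i j b (Finset.mem_filter.1 hi).2, smul_zero]
  intro u hu
  have hu' := h.cb.span hu
  clear hu
  induction hu' using Submodule.span_induction with
  | mem u hu =>
    obtain ⟨p, rfl⟩ := hu
    exact hb p
  | zero => rw [map_zero, map_zero]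
  | add u v _ _ hu hv => rw [map_add, map_add, hu, hv]
  | smul c u _ hu => rw [map_smul, map_smul, hu]

theorem two (br : ∀ x ∈ L, ∀ y ∈ L, x * y - y * x ∈ L)
    {X : Module.End ℂ U} (hX1 : ∀ P : Submodule ℂ U, (∀ x ∈ L, ∀ u ∈ P, x u ∈ P) →
      ∀ u ∈ P, X u ∈ P)
    (hX2 : ∀ K : Module.End ℂ U, (∀ x ∈ L, x * K = K * x) → X * K = K * X)
    (hX3 : ∀ u v, ω (X u) v + ω u (X v) = 0) :
    ∃ x ∈ L, ∀ u ∈ R, X u = x u := by
  classical
  obtain ⟨φ, g⟩ := exists_gen (S := S) h.ne
  let a : Fin k → Fin k × Bool := fun i => (i, decide (0 < φ (w (i, true))))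
  have h' := h.relabel a (fun i j hij => hij)
  refine h'.two_pos (fun i j hij => hblk i j hij) al sk (g.relabel a) ?_ br
    (fun i => hX1 _ (h'.irr i).stab) hX2 hX3
  intro i
  change 0 < φ (w (i, decide (0 < φ (w (i, true)))))
  by_cases h1 : 0 < φ (w (i, true))
  · rw [decide_eq_true h1]
    exact h1
  · rw [decide_eq_false h1]
    have h2 : w (i, false) = -w (i, true) := h.wbar (i, true)
    rw [h2, map_neg]
    have h3 := g.zero (i, true)
    have h4 : φ (w (i, true)) < 0 := lt_of_le_of_ne (not_lt.1 h1) h3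
    linarith

end GB

end Pool.Agent.R912
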