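import Pool.Agent.R912.Q.Main

set_option autoImplicit false

/-!
# The period conjecture for cycles of codimension two on abelian fourfolds whose endomorphism algebra
# has the centre `ℚ`

Let `A` be an abelian fourfold over the field `ℚ̄` of algebraic numbers. A de Rham-Betti class in
`H^4(A)(2)` is an alternating form `φ` with rational values in four variables in `H_1(A, ℚ)` such that
`(2 π i) ^ 2 φ` is a combination with algebraic coefficients of the products of the elements of
`H^1_dR(A / ℚ̄)`. Nothing is assumed about periods: `AbVar` is the description of an abelian variety
over `ℚ̄` by theta functions (see `Pool/Agent/Y102/AVDefs.lean`, where it is explained why every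
abelian variety has it).

**Theorem.** Assume that the centre of the algebra of the endomorphisms of `A` is the field of
rational numbers. Then all de Rham-Betti classes in `H^4(A)(2)` are Hodge classes. More precisely they
are annihilated by all endomorphisms `X` of `H_1(A, ℚ)` which commute with the endomorphisms of `A` and
are skew-symmetric for the polarization (the Lie algebra of the Lefschetz group).

The condition holds if `End(A) = ℤ` (the general abelian fourfold), if `A` has multiplication by a
quaternion algebra over `ℚ` (definite or indefinite), and if `A` is isogenous to a power of an abelian
variety with such an algebra of endomorphisms. Nothing is assumed about the Hodge group; for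
`End(A) = ℤ` it may be smaller than `Sp_8` by an example of Mumford. The endomorphisms here are those
of the de Rham-Betti object `H_1(A)`, and by a theorem of Bost (proved in this repository,
`Pool.Agent.Y102.AbVar.hodge_end`) these are the endomorphisms of `A`. As the classes in `H^0`, `H^2`,
`H^6` and `H^8` are known (the theorem of Bost and the theorem of hard Lefschetz) and the Hodge classes
on abelian fourfolds are known to be algebraic in these cases, we have `GPC ^ k (A)` for all `k`: if
`End(A) = ℤ` then the invariant alternating forms of the symplectic group are the multiples of the
square of the polarization.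

## Proof

By the theorem of Schneider and Lang the Lie algebra `𝔥` of the endomorphisms that annihilate all
de Rham-Betti classes (in all degrees) acts semisimply on `H_1(A, ℚ)` and has the commutant `End(A)`.
Then `H_1(A, ℂ)` is a sum of copies of an irreducible representation `N` of the semisimple Lie algebra
`L = 𝔥 ⊗ ℂ`, with an invariant form which is symmetric or alternating, and the dimension `d` of `N`
divides eight. We have to show that the forms on `N` which are obtained from `φ` are annihilated by all
endomorphisms of `N` which are skew for the invariant form. The weights of `N` are simple and different
from zero. By an elementary lemma on the generation of symplectic and orthogonal Lie algebras it is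
enough to show that the torus of dimension `d / 2` annihilates the forms, that is, that the forms are
combinations of products of coordinates whose weights cancel in pairs. For `d = 2` this is clear, for
`d = 4` one uses that the forms vanish if three variables are equal (in the symplectic case), or that
the sum and the difference of the two positive weights are roots (in the orthogonal case). For
`d = 8` there can be one relation `A + B + C + D = 0` between the weights (up to the choice of the
signs); this happens for the third tensor power of the standard representation of `sl_2` (the example
of Mumford), for the representation of `sl_2` of dimension eight, and for `sl_2 × sp_4`. Write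
`A = x + y + z`, `B = -x - y + z`, `C = -x + y - z`, `D = x - y - z`. One considers the Lie algebra
`𝔪` of all symplectic matrices which annihilate the form `φ`; it contains `L` and the torus of
dimension three given by the relation. As it acts irreducibly, it contains for three directions
elements of weights `2x`, `2y`, `2z`, with the matrices `A → s B'`, `B → s A'`, `C' → t D`, `D' → t C`
(`A' = -A`, …), `s`, `t` different from zero. If `r = t / s` and `r'`, `r''` are the quotients for the
other directions, and `P = φ(A, B, C, D)`, the evaluation gives `φ(A', B', C', D') = r² P = r'² P = r''² P`
and `(r + r' + r'') P = 0`, so `P = 0`.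
-/

open Module Matrix Pool.Agent.Y102 Pool.Agent.W516.DR Pool.Agent.H204R3.GP

noncomputable section

namespace Pool.Agent.R912.VarCentreQ

variable {g : ℕ} (A : AbVar g)

/-- The alternating forms in four variables in the rational homology: the elements of
`H^4(A, ℚ)`. -/
abbrev Form : Type := A.H1 [⋀^Fin 2 × Fin 2]→ₗ[ℚ] ℚ

/-- `φ` is a de Rham-Betti class in `H^4(A)(2)`. -/
def IsDRB (φ : Form A) : Prop :=
  IsDeRhamBettiForm QBar A.dR (2 * Real.pi * Complex.I) 2 φ.toMultilinearMap

/-- `φ` is a Hodge class in `H^4(A)(2)`. -/
def IsHodge (φ : Form A) : Prop :=
  IsHodgeTensor (A.per : A.H1 →+ (Fin g → ℂ)) φ.toMultilinearMap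

/-- The endomorphisms of `A`, up to isogeny: the endomorphisms of `H_1(A, ℚ)` which respect the
de Rham cohomology over the field of algebraic numbers. -/
def IsEndomorphism (P : Module.End ℚ A.H1) : Prop := IsDeRhamBettiEnd QBar A.dR P

/-- The centre of the algebra of the endomorphisms is the field of rational numbers. -/
def CentreIsRational : Prop :=
  ∀ P, IsEndomorphism A P → (∀ Q, IsEndomorphism A Q → P * Q = Q * P) → ∃ q : ℚ, P = q • 1

/-- The Riemann form of the polarization, on the rational homology. -/
def polarization : A.H1 →ₗ[ℚ] A.H1 →ₗ[ℚ] ℚ := A.om

/-- The endomorphism `X` annihilates the form `φ` (as a derivation). -/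
def Annihilates (X : Module.End ℚ A.H1) (φ : Form A) : Prop :=
  ∀ v, ∑ k, φ (Function.update v k (X (v k))) = 0

/-- **The de Rham-Betti classes of degree four on abelian fourfolds are Hodge classes, if the centre
of the algebra of the endomorphisms is `ℚ`.** -/
theorem result (A : AbVar 4) (hZ : CentreIsRational A) (φ : Form A) (hφ : IsDRB A φ) :
    IsHodge A φ ∧
    ∀ X : Module.End ℚ A.H1, (∀ u v, polarization A (X u) v + polarization A u (X v) = 0) →
      (∀ Q, IsEndomorphism A Q → X * Q = Q * X) → Annihilates A X φ := by
  have hZ' : Pool.Agent.R912.CentreQ A := fun P hP hc =>
    hZ P (A.mem_EA.1 hP) fun Q hQ => hc Q (A.mem_EA.2 hQ)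
  exact ⟨Pool.Agent.R912.four_hodge A hZ' φ hφ, fun X h1 h2 =>
    Pool.Agent.R912.four_kills A hZ' φ hφ h1 fun Q hQ => h2 Q (A.mem_EA.1 hQ)⟩

end Pool.Agent.R912.VarCentreQ
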