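import Pool.Agent.R912.Q.Wts
import Pool.Agent.Y102.SP.Fun

set_option autoImplicit false
set_option linter.unusedSectionVars false

/-!
# Weights of irreducible subspaces: the highest weight and the next ones
-/

open Module

namespace Pool.Agent.R912

open Pool.Agent.Y102.SP

attribute [local instance 100] LieRing.ofAssociativeRing

variable {U : Type} [AddCommGroup U] [Module ℂ U] [FiniteDimensional ℂ U]
  {T : Type} [AddCommGroup T] [Module ℂ T] {L : Submodule ℂ (Module.End ℂ U)}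

namespace RS

variable {S : RS L T}

/-- A generic functional, and the index of the highest weight. -/
structure Top {d : ℕ} (S : RS L T) (χ : Fin d → Module.Dual ℂ T)
    (φ : Module.Dual ℂ T →ₗ[ℚ] ℚ) (i0 : Fin d) : Prop where
  root : ∀ α ∈ S.R.Φ, φ α ≠ 0
  inj : ∀ i j, φ (χ i) = φ (χ j) → χ i = χ j
  zero : ∀ i, φ (χ i) = 0 → χ i = 0
  max : ∀ i, φ (χ i) ≤ φ (χ i0)

theorem exists_top {d : ℕ} (hd : 0 < d) (χ : Fin d → Module.Dual ℂ T) :
    ∃ φ i0, Top S χ φ i0 := by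
  classical
  have hF : (S.R.Φ ∪ (Set.range (fun p : Fin d × Fin d => χ p.1 - χ p.2) ∪
      Set.range χ)).Finite :=
    S.R.fin.union ((Set.finite_range _).union (Set.finite_range _))
  obtain ⟨φ, -, hφ⟩ := avoid hF (⊥ : Submodule ℚ (Module.Dual ℂ T))
  have : Nonempty (Fin d) := ⟨⟨0, hd⟩⟩
  obtain ⟨i0, hi0⟩ := Finite.exists_max fun i => φ (χ i)
  refine ⟨φ, i0, ?_, ?_, ?_, hi0⟩
  · intro α hα
    refine hφ α (Or.inl hα) fun h => ?_
    rw [Submodule.mem_bot] at h
    exact S.R.zero (h ▸ hα)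
  · intro i j hij
    by_contra hne
    refine hφ (χ i - χ j) (Or.inr (Or.inl ⟨(i, j), rfl⟩)) (fun h => ?_) ?_
    · rw [Submodule.mem_bot, sub_eq_zero] at h
      exact hne h
    · rw [map_sub, hij, sub_self]
  · intro i hi
    by_contra hne
    exact hφ (χ i) (Or.inr (Or.inr ⟨i, rfl⟩)) (fun h => hne ((Submodule.mem_bot _).1 h)) hi

namespace WB

variable {N : Submodule ℂ U} {d : ℕ} {b : Fin d → U} {χ : Fin d → Module.Dual ℂ T}
  (W : S.WB N d b χ) {φ : Module.Dual ℂ T →ₗ[ℚ] ℚ} {i0 : Fin d} (hT : Top S χ φ i0)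
  (hN : IrrSub L N)
include W hT hN

theorem kill {α : Module.Dual ℂ T} (hα : α ∈ S.R.Φ) (hp : 0 < φ α) : S.e α (b i0) = 0 := by
  by_contra hne
  obtain ⟨i, hi⟩ := W.exists_of_usp (hN.stab _ (S.emem α hα) _ (W.mem i0))
    (S.usp_mul (fun t => S.wt α hα t) (W.wt i0)) hne
  have h1 := hT.max i
  rw [hi, map_add] at h1
  linarith

theorem gen_mem (l : List (Module.Dual ℂ T)) :
    (∀ γ ∈ l, γ ∈ S.R.Φ) → S.gen (b i0) l ∈ N := by
  induction l with
  | nil =>
    intro _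
    rw [gen_nil]
    exact W.mem i0
  | cons γ l ih =>
    intro hl
    rw [gen_cons]
    exact hN.stab _ (S.emem _ (hl γ List.mem_cons_self)) _
      (ih fun β hβ => hl β (List.mem_cons_of_mem _ hβ))

theorem D_eq : S.D φ (b i0) = N := by
  refine hN.irr _ ?_ ?_ ?_
  · unfold D
    rw [Submodule.span_le]
    rintro _ ⟨l, hl, rfl⟩
    exact W.gen_mem hT hN l fun γ hγ => (hl γ hγ).1
  · intro x hx u hu
    have h1 : S.D φ (b i0) ≤ (S.D φ (b i0)).comap x := by
      conv_lhs => unfold D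
      rw [Submodule.span_le]
      rintro _ ⟨l, hl, rfl⟩
      exact S.D_stable hT.root (W.wt i0) (fun α hα hp => W.kill hT hN hα hp) l hl x hx
    exact h1 hu
  · intro hb
    have h1 : b i0 ∈ S.D φ (b i0) := Submodule.subset_span ⟨[], by simp, (S.gen_nil _).symm⟩
    rw [hb, Submodule.mem_bot] at h1
    exact W.ne i0 h1

theorem mem_gen {μ : Module.Dual ℂ T} {w : U} (hw : w ∈ N) (hμ : w ∈ usp S.ι μ) :
    w ∈ Submodule.span ℂ {v | ∃ l : List (Module.Dual ℂ T), (∀ γ ∈ l, γ ∈ S.R.Φ ∧ φ γ < 0) ∧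
      l.sum + χ i0 = μ ∧ v = S.gen (b i0) l} := by
  have h1 : w ∈ S.D φ (b i0) := by rw [W.D_eq hT hN]; exact hw
  have h2 : S.D φ (b i0) ≤ Submodule.span ℂ {v | ∃ l : List (Module.Dual ℂ T),
      (∀ γ ∈ l, γ ∈ S.R.Φ ∧ φ γ < 0) ∧ l.sum + χ i0 = μ ∧ v = S.gen (b i0) l} ⊔
      ⨆ ψ, ⨆ (_ : ψ ≠ μ), usp S.ι ψ := by
    unfold D
    rw [Submodule.span_le]
    rintro _ ⟨l, hl, rfl⟩
    by_cases hs : l.sum + χ i0 = μ
    · exact Submodule.mem_sup_left (Submodule.subset_span ⟨l, hl, hs, rfl⟩)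
    · apply Submodule.mem_sup_right
      have h3 : usp S.ι (l.sum + χ i0) ≤ ⨆ ψ, ⨆ (_ : ψ ≠ μ), usp S.ι ψ :=
        le_iSup₂_of_le (l.sum + χ i0) hs le_rfl
      exact h3 (S.gen_weight (W.wt i0) l fun γ hγ => (hl γ hγ).1)
  obtain ⟨y, hy, r, hr, hyr⟩ := Submodule.mem_sup.1 (h2 h1)
  have h4 : y ∈ usp S.ι μ := by
    refine (Submodule.span_le.2 ?_) hy
    rintro _ ⟨l, hl, hs, rfl⟩
    rw [← hs]
    exact S.gen_weight (W.wt i0) l fun γ hγ => (hl γ hγ).1
  have h5 : r ∈ usp S.ι μ := by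
    have h6 : r = w - y := by rw [← hyr]; abel
    rw [h6]
    exact Submodule.sub_mem _ hμ h4
  have h7 := (S.usp_indep μ).le_bot ⟨h5, hr⟩
  rw [(Submodule.mem_bot ℂ).1 h7, add_zero] at hyr
  rw [← hyr]
  exact hy

/-- The highest weight is simple. -/
theorem top_simple {j : Fin d} (hj : χ j = χ i0) : j = i0 := by
  have h1 := W.mem_gen hT hN (W.mem j) (W.wt j)
  rw [hj] at h1
  have h2 : Submodule.span ℂ {v | ∃ l : List (Module.Dual ℂ T), (∀ γ ∈ l, γ ∈ S.R.Φ ∧ φ γ < 0) ∧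
      l.sum + χ i0 = χ i0 ∧ v = S.gen (b i0) l} ≤ Submodule.span ℂ {b i0} := by
    rw [Submodule.span_le]
    rintro _ ⟨l, hl, hs, rfl⟩
    cases l with
    | nil =>
      rw [gen_nil]
      exact Submodule.mem_span_singleton_self _
    | cons γ l =>
      exfalso
      have h3 : (γ :: l).sum = 0 := by
        have := hs
        rwa [add_eq_right] at this
      have h4 : φ (γ :: l).sum < 0 := by
        have key : ∀ l : List (Module.Dual ℂ T), (∀ γ ∈ l, γ ∈ S.R.Φ ∧ φ γ < 0) → φ l.sum ≤ 0 := by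
          intro l
          induction l with
          | nil => intro _; rw [List.sum_nil, map_zero]
          | cons β l ih =>
            intro hl
            rw [List.sum_cons, map_add]
            have := (hl β List.mem_cons_self).2
            have := ih fun γ hγ => hl γ (List.mem_cons_of_mem _ hγ)
            linarith
        rw [List.sum_cons, map_add]
        have := (hl γ List.mem_cons_self).2
        have := key l fun γ hγ => hl γ (List.mem_cons_of_mem _ hγ)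
        linarith
      rw [h3, map_zero] at h4
      exact lt_irrefl _ h4
  obtain ⟨c, hc⟩ := Submodule.mem_span_singleton.1 (h2 h1)
  exact W.not_both (v := b i0) hc.symm (one_smul ℂ (b i0)).symm

/-- Vectors of weight `μ` are obtained from the basis vectors above. -/
theorem low {μ : Module.Dual ℂ T} {w : U} (hw : w ∈ N) (hμ : w ∈ usp S.ι μ) (hne : μ ≠ χ i0) :
    w ∈ Submodule.span ℂ {v | ∃ i, φ μ < φ (χ i) ∧ μ - χ i ∈ S.R.Φ ∧
      v = S.e (μ - χ i) (b i)} := by
  refine (Submodule.span_le.2 ?_) (W.mem_gen hT hN hw hμ)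
  rintro _ ⟨l, hl, hs, rfl⟩
  cases l with
  | nil =>
    rw [List.sum_nil, zero_add] at hs
    exact absurd hs.symm hne
  | cons γ l =>
    rw [gen_cons]
    have hγ := hl γ List.mem_cons_self
    have hl' : ∀ β ∈ l, β ∈ S.R.Φ := fun β hβ => (hl β (List.mem_cons_of_mem _ hβ)).1
    have h1 : S.gen (b i0) l ∈ usp S.ι (μ - γ) := by
      have h2 := S.gen_weight (W.wt i0) l hl'
      have h3 : l.sum + χ i0 = μ - γ := by
        rw [← hs, List.sum_cons]
        abel
      rwa [h3] at h2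
    have h4 := W.of_usp (W.gen_mem hT hN l hl') h1
    have h5 : Submodule.span ℂ (b '' {i | χ i = μ - γ}) ≤
        (Submodule.span ℂ {v | ∃ i, φ μ < φ (χ i) ∧ μ - χ i ∈ S.R.Φ ∧
          v = S.e (μ - χ i) (b i)}).comap (S.e γ) := by
      rw [Submodule.span_le]
      rintro _ ⟨i, hi, rfl⟩
      have hi' : χ i = μ - γ := hi
      refine Submodule.subset_span ⟨i, ?_, ?_, ?_⟩
      · rw [hi', map_sub]
        linarith [hγ.2]
      · rw [hi', sub_sub_cancel]
        exact hγ.1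
      · rw [hi', sub_sub_cancel]
    exact h5 h4

/-- The second weight is simple, and the difference is a root. -/
theorem second {i1 : Fin d} (h10 : χ i1 ≠ χ i0)
    (hmax : ∀ i, χ i ≠ χ i0 → φ (χ i) ≤ φ (χ i1)) :
    (∀ j, χ j = χ i1 → j = i1) ∧ χ i1 - χ i0 ∈ S.R.Φ ∧
      ∃ c : ℂ, c ≠ 0 ∧ S.e (χ i1 - χ i0) (b i0) = c • b i1 := by
  have key : ∀ j, χ j = χ i1 → ∃ c : ℂ, b j = c • S.e (χ i1 - χ i0) (b i0) ∧
      χ i1 - χ i0 ∈ S.R.Φ := by
    intro j hj
    have h1 := W.low hT hN (W.mem j) (W.wt j) (by rw [hj]; exact h10)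
    rw [hj] at h1
    have h3 : ∀ i, φ (χ i1) < φ (χ i) → i = i0 := by
      intro i hi
      by_contra hne
      have := hmax i fun h => hne (W.top_simple hT hN h)
      exact absurd this (not_le.2 hi)
    by_cases hr : χ i1 - χ i0 ∈ S.R.Φ
    · have h2 : Submodule.span ℂ {v | ∃ i, φ (χ i1) < φ (χ i) ∧ χ i1 - χ i ∈ S.R.Φ ∧
          v = S.e (χ i1 - χ i) (b i)} ≤ Submodule.span ℂ {S.e (χ i1 - χ i0) (b i0)} := by
        rw [Submodule.span_le]
        rintro _ ⟨i, hi, -, rfl⟩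
        rw [h3 i hi]
        exact Submodule.mem_span_singleton_self _
      obtain ⟨c, hc⟩ := Submodule.mem_span_singleton.1 (h2 h1)
      exact ⟨c, hc.symm, hr⟩
    · exfalso
      have h2 : {v | ∃ i, φ (χ i1) < φ (χ i) ∧ χ i1 - χ i ∈ S.R.Φ ∧
          v = S.e (χ i1 - χ i) (b i)} = ∅ := by
        refine Set.eq_empty_iff_forall_notMem.2 ?_
        rintro v ⟨i, hi, hr', -⟩
        rw [h3 i hi] at hr'
        exact hr hr'
      rw [h2, Submodule.span_empty, Submodule.mem_bot] at h1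
      exact W.ne j h1
  obtain ⟨c, hc, hr⟩ := key i1 rfl
  refine ⟨fun j hj => ?_, hr, c⁻¹, ?_, ?_⟩
  · obtain ⟨c', hc', -⟩ := key j hj
    exact W.not_both hc' hc
  · apply inv_ne_zero
    rintro rfl
    rw [zero_smul] at hc
    exact W.ne i1 hc
  · have hc0 : c ≠ 0 := by
      rintro rfl
      rw [zero_smul] at hc
      exact W.ne i1 hc
    rw [hc, smul_smul, inv_mul_cancel₀ hc0, one_smul]

end WB

end RS

end Pool.Agent.R912
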